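import Pool.Agent.K9h53.LN.Stm
import Pool.Agent.K9h53.LQ.A0
import Pool.Agent.W78.GA.SC

/-!
Project LN (helper53): the main frequency of the indicator function of the elements with first
coordinate coprime to `a`, imaginary orders.
-/

set_option autoImplicit false

namespace Pool.Agent.K9h53.LN

open Finset Filter
open Pool.Agent.H376R2.MR (w)
open Pool.Agent.W78
open Pool.Agent.W78.GA (Qd nm prim bg dt ip pball ang mem_pball nm_posR prim_ne_zero bg_nonneg bg_le
  bg_le' bg_ne pball_ne nm_castR three_le_disc)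
open Pool.Agent.K9h53.LQ (jj sh jj_le sh_prim sh_cop)

variable {t c a : ℤ}

/-- a shear changes the norm by a bounded factor -/
lemma shear_le (hD : t ^ 2 < 4 * c) (z z' : Qd t c) (j : ℝ) (hre : (z'.re : ℝ) = z.re + j * z.im)
    (him : z'.im = z.im) : (nm z' : ℝ) ≤ (2 + 3 * j ^ 2) * nm z := by
  have h3 := three_le_disc hD
  rw [nm_castR hD, nm_castR hD, hre, him]
  have e1 : 4 * ((z.re : ℝ) ^ 2 + t * z.re * z.im + c * z.im ^ 2) =
      (2 * z.re + t * z.im) ^ 2 + (4 * c - t ^ 2) * z.im ^ 2 := by ring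
  have e2 : 4 * (((z.re : ℝ) + j * z.im) ^ 2 + t * (z.re + j * z.im) * z.im + c * z.im ^ 2) =
      (2 * z.re + t * z.im + 2 * j * z.im) ^ 2 + (4 * c - t ^ 2) * z.im ^ 2 := by ring
  have h4 : 3 * (z.im : ℝ) ^ 2 ≤ (4 * c - t ^ 2) * z.im ^ 2 :=
    mul_le_mul_of_nonneg_right h3 (sq_nonneg _)
  have h5 : (2 * (z.re : ℝ) + t * z.im + 2 * j * z.im) ^ 2 ≤
      2 * (2 * z.re + t * z.im) ^ 2 + 8 * (j ^ 2 * z.im ^ 2) := by
    nlinarith [sq_nonneg (2 * (z.re : ℝ) + t * z.im - 2 * j * z.im)]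
  have h6 : j ^ 2 * (3 * (z.im : ℝ) ^ 2) ≤ j ^ 2 * ((4 * c - t ^ 2) * z.im ^ 2) :=
    mul_le_mul_of_nonneg_left h4 (sq_nonneg _)
  have h7 : 0 ≤ j ^ 2 * (2 * (z.re : ℝ) + t * z.im) ^ 2 := by positivity
  have h8 : 0 ≤ (4 * (c : ℝ) - t ^ 2) * z.im ^ 2 := by
    have : 0 ≤ 3 * (z.im : ℝ) ^ 2 := by positivity
    linarith
  nlinarith

lemma sh_nm (hD : t ^ 2 < 4 * c) (ha : 0 < a) (z : Qd t c) :
    (nm z : ℝ) ≤ (2 + 3 * a ^ 2) * nm (sh a z) ∧ (nm (sh a z) : ℝ) ≤ (2 + 3 * a ^ 2) * nm z := by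
  have hj : (0 : ℝ) ≤ jj a z := Nat.cast_nonneg _
  have hja : (jj a z : ℝ) ≤ a := by
    have h1 := jj_le ha z
    have h2 : ((jj a z : ℕ) : ℤ) ≤ a := by omega
    exact_mod_cast h2
  have h2 : (jj a z : ℝ) ^ 2 ≤ (a : ℝ) ^ 2 := pow_le_pow_left₀ hj hja 2
  have him : (sh a z).im = z.im := rfl
  have hre : ((sh a z).re : ℝ) = z.re + (jj a z : ℝ) * z.im := by
    unfold sh
    simp only
    push_cast
    ring
  constructor
  · have h1 := shear_le hD (sh a z) z (-(jj a z : ℝ)) (by rw [hre, him]; ring) him.symm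
    refine h1.trans (mul_le_mul_of_nonneg_right ?_ (Nat.cast_nonneg _))
    rw [neg_sq]
    linarith
  · have h1 := shear_le hD z (sh a z) (jj a z : ℝ) hre him
    refine h1.trans (mul_le_mul_of_nonneg_right ?_ (Nat.cast_nonneg _))
    linarith

/-- Task C -/
theorem a0_of (hD : t ^ 2 < 4 * c) (ha : 0 < a) (h : GA.S_A0 t c) : S_A0 t c a := by
  classical
  obtain ⟨c₀, hc₀, Y₀, h⟩ := h
  have haR : (0 : ℝ) < a := by exact_mod_cast ha
  have he1 : (0 : ℝ) < Real.exp 1 := Real.exp_pos 1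
  obtain ⟨Q, hQ⟩ : ∃ Q : ℝ, Q = 2 + 3 * a ^ 2 := ⟨_, rfl⟩
  have hQ1 : 1 ≤ Q := by
    rw [hQ]
    have : 0 ≤ 3 * (a : ℝ) ^ 2 := by positivity
    linarith
  have hQ0 : 0 < Q := by linarith
  obtain ⟨I, hI⟩ : ∃ I : ℕ, I = ⌈Real.log Q⌉₊ + 2 := ⟨_, rfl⟩
  have hIR : Real.log Q + 2 ≤ I := by
    rw [hI]
    push_cast
    have := Nat.le_ceil (Real.log Q)
    linarith
  have hlogQ : 0 ≤ Real.log Q := Real.log_nonneg hQ1
  refine ⟨c₀ / (2 * Real.exp 1 ^ 2 * Q * (a + 1) * (2 * I + 1)), by positivity,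
    Real.exp (2 * I), Real.one_le_exp (by positivity), Real.exp I * (|Y₀| + 1), fun X hX => ?_⟩
  obtain ⟨Y, hY⟩ : ∃ Y : ℝ, Y = X * Real.exp (-(I : ℝ)) := ⟨_, rfl⟩
  have hXY : X = Y * Real.exp I := by
    rw [hY, mul_assoc, ← Real.exp_add, neg_add_cancel, Real.exp_zero, mul_one]
  have hYbig : |Y₀| + 1 ≤ Y := by
    have h1 : Real.exp I * (|Y₀| + 1) ≤ Real.exp I * Y := by
      rw [mul_comm (Real.exp I) Y, ← hXY]; exact hX
    exact le_of_mul_le_mul_left h1 (Real.exp_pos _)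
  have hab := abs_nonneg Y₀
  have hY0 : 0 < Y := by linarith
  have hYY : Y₀ ≤ Y := by
    have := le_abs_self Y₀
    linarith
  have hA := h Y hYY
  -- the elements in the window
  obtain ⟨P, hP⟩ : ∃ P : Finset (Qd t c), P = (pball t c (Real.exp 1 * Y)).filter
    (fun z => bg Y z ≠ 0) := ⟨_, rfl⟩
  have hPcard : c₀ * Y / Real.exp 1 ≤ (P.card : ℝ) := by
    have h1 : ∑ z ∈ pball t c (Real.exp 1 * Y), bg Y z ≤ P.card * (Real.exp 1 / Y) := by
      rw [← Finset.sum_filter_ne_zero, ← hP]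
      refine (sum_le_card_nsmul _ _ (Real.exp 1 / Y) ?_).trans (by rw [nsmul_eq_mul])
      intro z hz
      rw [hP, mem_filter] at hz
      exact bg_le' hD hY0 (pball_ne hD hz.1)
    have h2 := hA.trans h1
    rw [← mul_div_assoc, le_div_iff₀ hY0] at h2
    rw [div_le_iff₀ he1]
    exact h2
  obtain ⟨T, hT⟩ : ∃ T : Finset (Qd t c), T = (pball t c (Real.exp 1 * Q * Y)).filter
    (fun z => IsCoprime z.re a ∧ Y / Real.exp 1 ≤ Q * nm z) := ⟨_, rfl⟩
  have hTcard : P.card ≤ (a.toNat + 1) * T.card := by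
    have hmap : P.card ≤ ((range (a.toNat + 1)) ×ˢ T).card := by
      refine card_le_card_of_injOn (fun z => (jj a z, sh a z)) ?_ ?_
      · intro z hz
        rw [Finset.mem_coe, hP, mem_filter, mem_pball hD] at hz
        obtain ⟨⟨pz, nz⟩, hb⟩ := hz
        obtain ⟨b1, b2⟩ := bg_ne hD hY0 (prim_ne_zero pz) hb
        obtain ⟨n1, n2⟩ := sh_nm hD ha z
        rw [← hQ] at n1 n2
        rw [Finset.mem_coe, mem_product, mem_range, hT, mem_filter, mem_pball hD]
        refine ⟨by have := jj_le ha z; simp only; omega, ⟨sh_prim pz, ?_⟩,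
          sh_cop ha pz, b1.trans n1⟩
        calc (nm (sh a z) : ℝ) ≤ Q * nm z := n2
          _ ≤ Q * (Real.exp 1 * Y) := mul_le_mul_of_nonneg_left b2 hQ0.le
          _ = Real.exp 1 * Q * Y := by ring
      · intro z _ z' _ hzz
        simp only [Prod.mk.injEq] at hzz
        obtain ⟨h1, h2⟩ := hzz
        have h3 := congrArg QuadraticAlgebra.re h2
        have h4 := congrArg QuadraticAlgebra.im h2
        unfold sh at h3 h4
        simp only at h3 h4
        rw [h1, h4] at h3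
        exact QuadraticAlgebra.ext (by linarith) h4
    rw [card_product, card_range] at hmap
    exact hmap
  have hTcard' : (P.card : ℝ) ≤ (a + 1) * T.card := by
    have h1 : (P.card : ℝ) ≤ (((a.toNat + 1) * T.card : ℕ) : ℝ) := by exact_mod_cast hTcard
    refine h1.trans (le_of_eq ?_)
    push_cast
    have h2 : ((a.toNat : ℕ) : ℝ) = a := by
      have h3 : ((a.toNat : ℕ) : ℤ) = a := Int.toNat_of_nonneg ha.le
      exact_mod_cast h3
    rw [h2]
  -- the scales
  obtain ⟨ui, hui⟩ : ∃ ui : Qd t c → ℝ, ui = fun z => Real.log (nm z) - Real.log Y := ⟨_, rfl⟩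
  have hmem : ∀ z ∈ T, z ≠ 0 ∧ prim z ∧ IsCoprime z.re a ∧ -1 - Real.log Q ≤ ui z ∧
      ui z ≤ 1 + Real.log Q ∧ (nm z : ℝ) ≤ Real.exp 1 * Q * Y := by
    intro z hz
    rw [hT, mem_filter, mem_pball hD] at hz
    obtain ⟨⟨pz, nz⟩, cz, lz⟩ := hz
    have hn := nm_posR hD (prim_ne_zero pz)
    refine ⟨prim_ne_zero pz, pz, cz, ?_, ?_, nz⟩
    · rw [hui]
      simp only
      have h1 := Real.log_le_log (by positivity) lz
      rw [Real.log_div hY0.ne' he1.ne', Real.log_exp, Real.log_mul hQ0.ne' hn.ne'] at h1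
      linarith
    · rw [hui]
      simp only
      have h1 := Real.log_le_log hn nz
      rw [Real.log_mul (by positivity) hY0.ne', Real.log_mul he1.ne' hQ0.ne', Real.log_exp] at h1
      linarith
  have hround : ∀ z ∈ T, round (ui z) ∈ Finset.Icc (-(I : ℤ)) I := by
    intro z hz
    obtain ⟨-, -, -, h1, h2, -⟩ := hmem z hz
    have h3 := abs_le.1 (abs_sub_round (ui z))
    rw [Finset.mem_Icc]
    constructor
    · have h4 : ((-(I : ℤ) : ℤ) : ℝ) ≤ ((round (ui z) : ℤ) : ℝ) := by push_cast; linarith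
      exact_mod_cast h4
    · have : ((round (ui z) : ℤ) : ℝ) ≤ ((I : ℤ) : ℝ) := by push_cast; linarith
      exact_mod_cast this
  obtain ⟨Yi, hYi⟩ : ∃ Yi : ℤ → ℝ, Yi = fun i : ℤ => Y * Real.exp (i : ℝ) := ⟨_, rfl⟩
  have hYi0 : ∀ i, 0 < Yi i := by intro i; rw [hYi]; positivity
  have hval : ∀ z ∈ T, 1 / (2 * Real.exp 1 * Q * Y) ≤ bg (Yi (round (ui z))) z := by
    intro z hz
    obtain ⟨tz, -, -, h1, h2, h4⟩ := hmem z hz
    have hn := nm_posR hD tz
    have h3 := abs_sub_round (ui z)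
    unfold GA.bg
    have e1 : Real.log (nm z) - Real.log (Yi (round (ui z))) = ui z - round (ui z) := by
      rw [hYi]
      simp only
      rw [Real.log_mul hY0.ne' (Real.exp_pos _).ne', Real.log_exp, hui]
      ring
    rw [e1]
    have h5 : 1 / 2 ≤ w (ui z - round (ui z)) := by
      unfold w
      refine le_trans ?_ (le_max_right _ _)
      linarith
    rw [div_le_div_iff₀ (by positivity) hn, one_mul]
    have h6 : (nm z : ℝ) ≤ 1 / 2 * (2 * Real.exp 1 * Q * Y) := by linarith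
    refine h6.trans ?_
    exact mul_le_mul_of_nonneg_right h5 (by positivity)
  have hsum : T.card * (1 / (2 * Real.exp 1 * Q * Y)) ≤ ∑ i ∈ Finset.Icc (-(I : ℤ)) I,
      ∑ z ∈ (pball t c (Real.exp 1 * Yi i)).filter (fun z => IsCoprime z.re a), bg (Yi i) z := by
    have h1 : (T.card : ℝ) * (1 / (2 * Real.exp 1 * Q * Y)) ≤
        ∑ z ∈ T, bg (Yi (round (ui z))) z := by
      have := card_nsmul_le_sum T (fun z => bg (Yi (round (ui z))) z) _ hval
      rwa [nsmul_eq_mul] at this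
    refine h1.trans ?_
    rw [← Finset.sum_fiberwise_of_maps_to hround]
    apply sum_le_sum
    intro i _
    have h2 : ∑ z ∈ T.filter (fun z => round (ui z) = i), bg (Yi (round (ui z))) z =
        ∑ z ∈ T.filter (fun z => round (ui z) = i), bg (Yi i) z := by
      apply sum_congr rfl
      intro z hz
      rw [(mem_filter.1 hz).2]
    rw [h2]
    apply sum_le_sum_of_subset_of_nonneg
    · intro z hz
      obtain ⟨hz1, hz2⟩ := mem_filter.1 hz
      obtain ⟨tz, pz, cz, h3, h4, -⟩ := hmem z hz1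
      rw [mem_filter, mem_pball hD]
      refine ⟨⟨pz, ?_⟩, cz⟩
      have hn := nm_posR hD tz
      have h5 := (abs_le.1 (abs_sub_round (ui z))).2
      rw [hz2] at h5
      have h6 : Real.log (nm z) ≤ Real.log (Real.exp 1 * Yi i) := by
        rw [hYi]
        simp only
        rw [Real.log_mul he1.ne' (by positivity), Real.log_mul hY0.ne' (Real.exp_pos _).ne',
          Real.log_exp, Real.log_exp]
        rw [hui] at h5
        simp only at h5
        linarith
      exact (Real.log_le_log_iff hn (mul_pos he1 (hYi0 i))).1 h6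
    · intro _ _ _
      exact bg_nonneg _ _
  -- pigeonhole
  by_contra hcon
  push Not at hcon
  have hlt : ∀ i ∈ Finset.Icc (-(I : ℤ)) I,
      ∑ z ∈ (pball t c (Real.exp 1 * Yi i)).filter (fun z => IsCoprime z.re a), bg (Yi i) z <
      c₀ / (2 * Real.exp 1 ^ 2 * Q * (a + 1) * (2 * I + 1)) := by
    intro i hi
    rw [Finset.mem_Icc] at hi
    have hi1 : (-(I : ℝ)) ≤ i := by exact_mod_cast hi.1
    have hi2 : (i : ℝ) ≤ I := by exact_mod_cast hi.2
    refine hcon (Yi i) ?_ ?_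
    · rw [hYi, hXY]
      simp only
      rw [div_le_iff₀ (Real.exp_pos _), mul_assoc, ← Real.exp_add]
      apply mul_le_mul_of_nonneg_left _ hY0.le
      apply Real.exp_le_exp.2
      linarith
    · rw [hYi, hXY]
      simp only
      apply mul_le_mul_of_nonneg_left _ hY0.le
      exact Real.exp_le_exp.2 hi2
  have hne : (Finset.Icc (-(I : ℤ)) I).Nonempty := ⟨0, by rw [Finset.mem_Icc]; omega⟩
  have h3 := sum_lt_sum_of_nonempty hne hlt
  rw [sum_const, nsmul_eq_mul, Int.card_Icc] at h3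
  have h4 : (((I : ℤ) + 1 - -(I : ℤ)).toNat : ℝ) = 2 * I + 1 := by
    have : ((I : ℤ) + 1 - -(I : ℤ)).toNat = 2 * I + 1 := by omega
    rw [this]
    push_cast
    ring
  rw [h4] at h3
  have h5 : (2 * (I : ℝ) + 1) * (c₀ / (2 * Real.exp 1 ^ 2 * Q * (a + 1) * (2 * I + 1))) =
      c₀ / (2 * Real.exp 1 ^ 2 * Q * (a + 1)) := by
    field_simp
  rw [h5] at h3
  have h6 : c₀ * Y / Real.exp 1 ≤ (a + 1) * T.card := hPcard.trans hTcard'
  have h7 : c₀ / (2 * Real.exp 1 ^ 2 * Q * (a + 1)) ≤ T.card * (1 / (2 * Real.exp 1 * Q * Y)) := by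
    rw [mul_one_div, div_le_div_iff₀ (by positivity) (by positivity)]
    rw [div_le_iff₀ he1] at h6
    have h8 := mul_le_mul_of_nonneg_left h6 (by positivity : 0 ≤ 2 * Real.exp 1 * Q)
    calc c₀ * (2 * Real.exp 1 * Q * Y) = 2 * Real.exp 1 * Q * (c₀ * Y) := by ring
      _ ≤ 2 * Real.exp 1 * Q * ((a + 1) * T.card * Real.exp 1) := h8
      _ = T.card * (2 * Real.exp 1 ^ 2 * Q * (a + 1)) := by ring
  linarith

end Pool.Agent.K9h53.LN
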