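import Pool.Agent.K9h53.LQ.Cls

/-!
Project LN (helper53): the residue classes and the Jacobi symbol, all discriminants.
-/

set_option autoImplicit false

namespace Pool.Agent.K9h53.LN

open scoped NumberTheorySymbols
open Pool.Agent.K9h53.LQ

/-- the character in the case where the Jacobi symbol is a character modulo `a` -/
lemma ch_jac {D a : ℤ} (hD0 : D ≠ 0) (ha : a ≠ 0) (hn : ¬ Nt D a) :
    ∃ χ : ℤ → ℤ, Ch a χ ∧ SplOne D a χ ∧
      ∀ M v : ℤ, a ∣ M → M ≠ 0 → IsCoprime v M → χ v = 1 → PJ D M v := by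
  classical
  have hN : 0 < 4 * D.natAbs * a.natAbs := by
    have h1 := Int.natAbs_pos.2 hD0
    have h2 := Int.natAbs_pos.2 ha
    positivity
  have hex : ∀ n : ℤ, ∃ w : ℕ, IsCoprime n a → (w.Coprime (4 * D.natAbs * a.natAbs) ∧
      a ∣ (w : ℤ) - n) := by
    intro n
    by_cases h : IsCoprime n a
    · obtain ⟨p, hp, hpN, hpn⟩ := exists_prime_class ha h (4 * D.natAbs * a.natAbs)
      exact ⟨p, fun _ => ⟨prime_cop hp hN hpN, hpn⟩⟩
    · exact ⟨0, fun h' => absurd h' h⟩
  choose W hW using hex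
  obtain ⟨χ, hχ⟩ : ∃ χ : ℤ → ℤ, ∀ n, χ n = if IsCoprime n a then J(D | W n) else 0 :=
    ⟨_, fun _ => rfl⟩
  have hcopw : ∀ (w : ℕ) (n : ℤ), w.Coprime (4 * D.natAbs * a.natAbs) → a ∣ (w : ℤ) - n →
      IsCoprime n a := by
    intro w n hw h
    obtain ⟨k, hk⟩ := h
    have h1 : IsCoprime (w : ℤ) a := (cop_abs hw).of_mul_right_right
    have e : n = w + a * (-k) := by linarith
    rw [e]
    exact IsCoprime.add_mul_left_left h1 _
  have key : ∀ (w : ℕ) (n : ℤ), w.Coprime (4 * D.natAbs * a.natAbs) → a ∣ (w : ℤ) - n →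
      χ n = J(D | w) := by
    intro w n hw h
    have h1 := hcopw w n hw h
    rw [hχ, if_pos h1]
    refine jac_wd hD0 ha hn (hW n h1).1 hw ?_
    have := dvd_sub (hW n h1).2 h
    simpa using this
  have hnon : ∀ n : ℤ, IsCoprime n a → χ n = 1 ∨ χ n = -1 := by
    intro n h
    rw [hχ, if_pos h]
    exact jac_val (Nat.Coprime.coprime_mul_right_right (hW n h).1)
  have hzero : ∀ n : ℤ, ¬ IsCoprime n a → χ n = 0 := by
    intro n h
    rw [hχ, if_neg h]
  have hone : χ 1 = 1 := by
    rw [key 1 1 (Nat.coprime_one_left _) (by simp)]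
    exact jacobiSym.one_right D
  have hmul : ∀ x y, χ (x * y) = χ x * χ y := by
    intro x y
    by_cases hx : IsCoprime x a <;> by_cases hy : IsCoprime y a
    · have h1 := (hW x hx)
      have h2 := (hW y hy)
      rw [key _ x h1.1 h1.2, key _ y h2.1 h2.2]
      have hx0 : W x ≠ 0 := by
        intro h0
        have h3 := h1.1
        rw [h0, Nat.coprime_zero_left] at h3
        have h4 : (4 : ℕ) ∣ 4 * D.natAbs * a.natAbs := ⟨D.natAbs * a.natAbs, by ring⟩
        rw [h3] at h4
        norm_num at h4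
      have hy0 : W y ≠ 0 := by
        intro h0
        have h3 := h2.1
        rw [h0, Nat.coprime_zero_left] at h3
        have h4 : (4 : ℕ) ∣ 4 * D.natAbs * a.natAbs := ⟨D.natAbs * a.natAbs, by ring⟩
        rw [h3] at h4
        norm_num at h4
      have : NeZero (W x) := ⟨hx0⟩
      have : NeZero (W y) := ⟨hy0⟩
      rw [← jacobiSym.mul_right]
      apply key _ _ (Nat.Coprime.mul_left h1.1 h2.1)
      have e : ((W x * W y : ℕ) : ℤ) - x * y = (W x - x) * W y + x * (W y - y) := by
        push_cast; ring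
      rw [e]
      exact dvd_add (Dvd.dvd.mul_right h1.2 _) (Dvd.dvd.mul_left h2.2 _)
    · rw [hzero y hy, hzero _ (fun h => hy h.of_mul_left_right), mul_zero]
    · rw [hzero x hx, hzero _ (fun h => hx h.of_mul_left_left), zero_mul]
    · rw [hzero x hx, hzero _ (fun h => hx h.of_mul_left_left), zero_mul]
  have hper : ∀ x y, a ∣ x - y → χ x = χ y := by
    intro x y h
    by_cases hy : IsCoprime y a
    · have h2 := hW y hy
      rw [key _ y h2.1 h2.2]
      apply key _ x h2.1
      have e : (W y : ℤ) - x = (W y - y) - (x - y) := by ring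
      rw [e]
      exact dvd_sub h2.2 h
    · rw [hzero y hy]
      apply hzero
      intro hx
      apply hy
      obtain ⟨k, hk⟩ := h
      have e : y = x + a * (-k) := by linarith
      rw [e]
      exact IsCoprime.add_mul_left_left hx _
  refine ⟨χ, ⟨hmul, hper, hone, ?_, ?_⟩, ?_, ?_⟩
  · intro x
    by_cases hx : IsCoprime x a
    · exact Or.inr (hnon x hx)
    · exact Or.inl (hzero x hx)
  · intro x
    constructor
    · intro h
      by_contra hx
      exact h (hzero x hx)
    · intro hx h0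
      rcases hnon x hx with h | h <;> rw [h] at h0 <;> norm_num at h0
  · intro q hq hqd hs
    have hqp : Prime (q : ℤ) := Nat.prime_iff_prime_int.1 hq
    have hqc : IsCoprime (q : ℤ) (4 * D * a) := by
      rw [hqp.coprime_iff_not_dvd]
      intro h
      apply hqd
      rcases hqp.dvd_or_dvd h with h1 | h1
      · rcases hqp.dvd_or_dvd h1 with h2 | h2
        · have h3 : (q : ℤ) ∣ 2 := by
            have h4 : (4 : ℤ) = 2 * 2 := by norm_num
            rw [h4] at h2
            rcases hqp.dvd_or_dvd h2 with h5 | h5 <;> exact h5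
          exact Dvd.dvd.mul_right (Dvd.dvd.mul_right h3 a) D
        · exact Dvd.dvd.mul_left h2 _
      · exact Dvd.dvd.mul_right (Dvd.dvd.mul_left h1 2) D
    rw [key q q (cop_abs' hqc) (by simp)]
    have : Fact q.Prime := ⟨hq⟩
    rw [← jacobiSym.legendreSym.to_jacobiSym]
    have h5 : (D : ZMod q) ≠ 0 := by
      rw [Ne, ZMod.intCast_zmod_eq_zero_iff_dvd]
      intro h6
      exact hqd (Dvd.dvd.mul_left h6 _)
    rw [legendreSym.eq_one_iff q h5]
    obtain ⟨s, hs⟩ := hs
    exact ⟨s, hs.symm⟩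
  · intro M v haM hM hv hχv
    obtain ⟨x, y, hxy⟩ := hv
    have hx : IsCoprime x M := ⟨v, y, by linarith⟩
    have hN' : 0 < 4 * D.natAbs * M.natAbs := by
      have h1 := Int.natAbs_pos.2 hD0
      have h2 := Int.natAbs_pos.2 hM
      positivity
    obtain ⟨p, hp, hpR, hpx⟩ := exists_prime_class hM hx (4 * D.natAbs * M.natAbs)
    have hpc := prime_cop hp hN' hpR
    have hpv : M ∣ (p : ℤ) * v - 1 := by
      have e : (p : ℤ) * v - 1 = (p - x) * v - M * y := by linear_combination hxy
      rw [e]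
      exact dvd_sub (Dvd.dvd.mul_right hpx v) (Dvd.intro _ rfl)
    refine ⟨p, hpc, hpv, ?_⟩
    have hpa : p.Coprime (4 * D.natAbs * a.natAbs) := by
      refine Nat.Coprime.coprime_dvd_right ?_ hpc
      exact Nat.mul_dvd_mul_left _ (Int.natAbs_dvd_natAbs.2 haM)
    rw [← key p p hpa (by simp)]
    have h1 : χ (p * v) = 1 := by
      rw [hper (p * v) 1 (haM.trans hpv), hone]
    rw [hmul, hχv, mul_one] at h1
    exact h1

end Pool.Agent.K9h53.LN
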