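import Pool.Agent.W78.GS.Basic
import Pool.Agent.K9h53.LQ.Defs

/-!
Project LN (helper53): the Matomaki-Radziwill method of projects GA, GS for a multiplicative function
of the elements of an imaginary quadratic order (a function of the norm times a character of the
first coordinate), in place of a function of the norm. Definitions.
-/

set_option autoImplicit false

namespace Pool.Agent.K9h53.LN

open Finset Filter Pool.Agent.W78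
open Pool.Agent.H376R2.MR (FK Fj)
open Pool.Agent.W78.GA (Qd nm prim bg dt ip lat NN cellM mE)

variable {t c : ℤ}

/-- bounded, multiplicative on the nonzero elements, of parity `e` -/
structure Tw (Gf : Qd t c → ℤ) (e : ℕ) : Prop where
  abs : ∀ z, |Gf z| ≤ 1
  mul : ∀ {z w : Qd t c}, z ≠ 0 → w ≠ 0 → Gf (z * w) = Gf z * Gf w
  neg : ∀ z : Qd t c, Gf (-z) = (-1) ^ e * Gf z

export Pool.Agent.K9h53.LQ (NtOK)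

section Lemmas
variable {Gf : Qd t c → ℤ} {e : ℕ}

lemma Tw.abs_real (h : Tw Gf e) (z : Qd t c) : |(Gf z : ℝ)| ≤ 1 := by
  exact_mod_cast h.abs z

lemma Tw.norm_le (h : Tw Gf e) (z : Qd t c) : ‖(Gf z : ℂ)‖ ≤ 1 := by
  rw [Complex.norm_intCast]
  exact h.abs_real z

lemma Tw.sq_le (h : Tw Gf e) (z : Qd t c) : (Gf z : ℝ) ^ 2 ≤ 1 := by
  rw [← sq_abs]
  exact pow_le_one₀ (abs_nonneg _) (h.abs_real z)

/-- a term with a frequency of the other parity changes its sign with `z` -/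
lemma Tw.neg_term (h : Tw Gf e) (z : Qd t c) {k : ℤ} (hk : ¬ Even (k + e)) :
    (Gf (-z) : ℂ) * GA.ps k (-z) = -((Gf z : ℂ) * GA.ps k z) := by
  rw [h.neg]
  rcases Int.even_or_odd k with hk1 | hk1
  · have he : Odd e := by
      rw [← Nat.not_even_iff_odd]
      intro he
      exact hk (hk1.add ((Int.even_coe_nat e).2 he))
    rw [GA.ps_neg z hk1, he.neg_one_pow]
    push_cast
    ring
  · have he : Even e := by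
      rw [← Nat.not_odd_iff_even]
      intro he
      exact hk (hk1.add_odd ((Int.odd_coe_nat e).2 he))
    rw [GA.ps_neg_odd z hk1, he.neg_one_pow]
    push_cast
    ring

end Lemmas

variable (Gf : Qd t c → ℤ) (e : ℕ)

/-- `G_Y(k) = ∑_{z primitive} G(z) w(log(N z/Y))/N z (z/|z|)^k` -/
noncomputable def GG (Y : ℝ) (k : ℤ) : ℂ :=
  GA.DPG (GA.pball t c (Real.exp 1 * Y)) (fun z => (Gf z : ℂ) * (bg Y z : ℂ)) k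

/-- `- ∑_{m ∈ cell} G(ϖ_m) (ϖ_m/|ϖ_m|)^k / m` for `k` of the parity of `G` -/
noncomputable def PE (M : ℕ → Prop) (ϖ : ℕ → Qd t c) (H v : ℕ) (k : ℤ) : ℂ :=
  if Even (k + e) then -∑ m ∈ cellM M H v, (Gf (ϖ m) : ℂ) * GA.ps k (ϖ m) / (m : ℂ) else 0

/-- DEC: the decomposition -/
def S_DEC : Prop := ∀ (Ap Bp M : ℕ → Prop) (E : ℕ) (ρ : ℕ → ℤ) (ϖ : ℕ → Qd t c),
  GA.Ele t c Ap Bp M E ρ ϖ → NtOK Gf M → ∃ C : ℝ, 0 < C ∧ ∀ H v₀ v₁ : ℕ, 1 ≤ H → H ≤ v₀ →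
    1 ≤ ∑ v ∈ Ico v₀ v₁, mE M H v → ∀ Y : ℝ, Real.exp (4 * (v₁ : ℝ) / H) ≤ Y →
    ∃ (s : Finset (Qd t c)) (f : Qd t c → ℂ), (∀ z ∈ s, prim z ∧ (nm z : ℝ) ≤ Real.exp 2 * Y) ∧
      (∀ k : ℤ, Even (k + e) → GG Gf Y k = -(1 / ((∑ v ∈ Ico v₀ v₁, mE M H v : ℝ) : ℂ)) *
        ∑ v ∈ Ico v₀ v₁, PE Gf e M ϖ H v k * GG Gf (Y * Real.exp (-((v : ℝ) / H))) k +
        GA.DPG s f k) ∧
      Y * ∑ z ∈ s, ‖f z‖ ^ 2 ≤ C * (1 / (∑ v ∈ Ico v₀ v₁, mE M H v) + 1 / (H : ℝ) ^ 2)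

/-- MOM0: the mean values of `G` -/
def S_MOM0 : Prop := ∃ C : ℝ, 0 < C ∧ ∀ (K : ℕ) (Z : ℝ), 3 ≤ Z → 1 ≤ K →
    ∑ k ∈ FK K, ‖GG Gf Z k‖ ^ 2 ≤ C * (1 + (K : ℝ) / Z)

/-- MOMP: the moments of `P` -/
def S_MOMP : Prop := ∀ (Ap Bp M : ℕ → Prop) (E : ℕ) (ρ : ℕ → ℤ) (ϖ : ℕ → Qd t c),
  GA.Ele t c Ap Bp M E ρ ϖ → ∃ C : ℝ, 1 ≤ C ∧ ∀ H r ℓ K : ℕ, 1 ≤ H → 1 ≤ K →
    (K : ℝ) ≤ Real.exp ((r : ℝ) * ℓ / H) →
    ∑ k ∈ FK K, ‖PE Gf e M ϖ H r k‖ ^ (2 * ℓ) ≤ C ^ (ℓ + 1) * (ℓ.factorial : ℝ) ^ 8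

/-- MOM: mixed moments -/
def S_MOM : Prop := ∀ (Ap Bp M : ℕ → Prop) (E : ℕ) (ρ : ℕ → ℤ) (ϖ : ℕ → Qd t c),
  GA.Ele t c Ap Bp M E ρ ϖ → ∃ C : ℝ, 1 ≤ C ∧ ∀ (H r ℓ K : ℕ) (Z : ℝ), 1 ≤ H → 3 ≤ Z → 1 ≤ K →
    (K : ℝ) ≤ Z * Real.exp ((r : ℝ) * ℓ / H) →
    ∑ k ∈ FK K, ‖PE Gf e M ϖ H r k ^ ℓ * GG Gf Z k‖ ^ 2 ≤ C ^ (ℓ + 1) * (ℓ.factorial : ℝ) ^ 8

/-- CELLE -/
def S_CELLE : Prop := ∀ (Ap Bp M : ℕ → Prop) (E : ℕ) (ρ : ℕ → ℤ) (ϖ : ℕ → Qd t c),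
  GA.Ele t c Ap Bp M E ρ ϖ → ∃ c' : ℝ, 0 < c' ∧ c' ≤ 1 ∧ ∃ Λ : ℕ, ∀ M' H : ℕ, 1 ≤ H →
    ∃ V₀ : ℕ, ∀ v₀ v₁ : ℕ, V₀ ≤ v₀ → Λ * v₀ ≤ v₁ → ∀ k : ℤ, k ≠ 0 →
    |(k : ℝ)| ≤ Real.exp (M' * (v₀ : ℝ) / H) →
    ∑ v ∈ Ico v₀ v₁, ‖PE Gf e M ϖ H v k‖ ≤ (1 - c') * ∑ v ∈ Ico v₀ v₁, mE M H v

/-- ELE: a system of elements adapted to `G` -/
def S_ELE : Prop := ∃ (Ap Bp M : ℕ → Prop) (E : ℕ) (ρ : ℕ → ℤ) (ϖ : ℕ → Qd t c),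
  GA.Ele t c Ap Bp M E ρ ϖ ∧ NtOK Gf M

/-- MR: the Matomaki-Radziwill theorem for the angles in the order, for the function `G` -/
def S_MR : Prop := ∀ η : ℝ, 0 < η → ∃ h : ℝ, 1 ≤ h ∧ ∃ Y₀ : ℝ, ∀ Y : ℝ, Y₀ ≤ Y →
  ∑ k ∈ (FK ⌊Y / h⌋₊).erase 0, ‖GG Gf Y k‖ ^ 2 ≤ η

variable {Gf e}

lemma GG_zero (hg : Tw Gf e) (hD : t ^ 2 < 4 * c) (Y : ℝ) {k : ℤ} (hk : ¬ Even (k + e)) :
    GG Gf Y k = 0 := by
  unfold GG GA.DPG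
  have h : ∑ z ∈ GA.pball t c (Real.exp 1 * Y), (Gf z : ℂ) * (bg Y z : ℂ) * GA.ps k z =
      ∑ z ∈ GA.pball t c (Real.exp 1 * Y), -((Gf z : ℂ) * (bg Y z : ℂ) * GA.ps k z) := by
    refine sum_bij' (fun z _ => -z) (fun z _ => -z) ?_ ?_ ?_ ?_ ?_
    · intro z hz
      rw [GA.mem_pball hD] at hz ⊢
      rw [GA.prim_neg, GA.nm_neg]
      exact hz
    · intro z hz
      rw [GA.mem_pball hD] at hz ⊢
      rw [GA.prim_neg, GA.nm_neg]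
      exact hz
    · intro z _; simp
    · intro z _; simp
    · intro z _
      have h1 := hg.neg_term z hk
      have h2 : bg Y (-z) = bg Y z := by unfold GA.bg; rw [GA.nm_neg]
      rw [h2]
      linear_combination (bg Y z : ℂ) * h1
  rw [sum_neg_distrib] at h
  have h2 : (2 : ℂ) * ∑ z ∈ GA.pball t c (Real.exp 1 * Y),
      (Gf z : ℂ) * (bg Y z : ℂ) * GA.ps k z = 0 := by
    linear_combination h
  simpa using h2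

end Pool.Agent.K9h53.LN
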