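import Pool.Agent.K9h53.LN.Defs
import Pool.Agent.K9h53.LQ.EleX

/-!
Project LN (helper53): the function `g (N z) χ (z.re)`, and a system of elements adapted to it,
imaginary quadratic orders.
-/

set_option autoImplicit false

namespace Pool.Agent.K9h53.LN

open Finset Filter
open Pool.Agent.W78
open Pool.Agent.W78.GA (Qd nm prim bg dt ip lat NN cellM mE Sm)
open Pool.Agent.W78.GS (Pm)
open Pool.Agent.K9h53.LQ (Gt Ch SplOne gt_natCast)

variable {g : ℕ → ℤ} {χ : ℤ → ℤ} {t c a : ℤ} {e : ℕ}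

lemma tw_gt (hg : Pm g) (hD : t ^ 2 < 4 * c) (hχ : Ch a χ) (hac : a ∣ c)
    (he : χ (-1) = (-1) ^ e) : Tw (Gt (t := t) (c := c) g χ) e where
  abs := by
    intro z
    unfold Gt
    rw [abs_mul, hg.abs_eq, one_mul]
    exact hχ.abs_le _
  mul := by
    intro z w hz hw
    unfold Gt
    rw [hχ.mul_re hac, hg.nm_mul (GA.nm_pos hD hz).ne' (GA.nm_pos hD hw).ne']
    ring
  neg := by
    intro z
    unfold Gt
    rw [GA.nm_neg, ← he, QuadraticAlgebra.re_neg, neg_eq_neg_one_mul z.re, hχ.mul]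
    ring

theorem ele_restrict {Ap Bp M : ℕ → Prop} {E : ℕ} {ρ : ℕ → ℤ} {ϖ : ℕ → Qd t c}
    (h : GA.Ele t c Ap Bp M E ρ ϖ) (ha : 0 < a) :
    GA.Ele t c (fun p => Ap p ∧ ¬ (p : ℤ) ∣ a) (fun p => Bp p ∧ ¬ (p : ℤ) ∣ a)
      (fun m => M m ∧ ∀ p : ℕ, p.Prime → p ∣ m → ¬ (p : ℤ) ∣ a) E ρ ϖ := by
  classical
  have hsm : ∀ d, Sm (fun p => Ap p ∧ ¬ (p : ℤ) ∣ a) (fun p => Bp p ∧ ¬ (p : ℤ) ∣ a) d →
      Sm Ap Bp d := by
    intro d hd
    refine ⟨hd.1, fun p hp hpd => ?_⟩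
    rcases hd.2 p hp hpd with h1 | h1
    · exact Or.inl h1.1
    · exact Or.inr h1.1
  refine ⟨h.pos, fun p hp => h.prA p hp.1, fun p hp => h.prB p hp.1,
    fun p hp hq => h.disj p hp.1 hq.1, ?_, fun d hd => h.root d (hsm d hd),
    fun d e he hde => h.compat d e (hsm e he) hde, fun m hm => h.elt m hm.1, ?_⟩
  · intro m hm
    obtain ⟨p, q, hp, hq, hmpq, h1, h2⟩ := h.fac m hm.1
    refine ⟨p, q, ⟨hp, ?_⟩, ⟨hq, ?_⟩, hmpq, h1, h2⟩
    · exact hm.2 p (h.prA p hp).1 ⟨q, hmpq⟩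
    · exact hm.2 q (h.prB q hq).1 ⟨p, by rw [hmpq, mul_comm]⟩
  · obtain ⟨c₁, hc₁, C, hC⟩ := h.rich
    obtain ⟨N₀, hN₀⟩ : ∃ N₀ : ℕ, N₀ = a.toNat ^ (E + 1) := ⟨_, rfl⟩
    have haN : (a.toNat : ℤ) = a := Int.toNat_of_nonneg ha.le
    -- the excluded elements are bounded
    have hbd : ∀ m, M m → ¬ (∀ p : ℕ, p.Prime → p ∣ m → ¬ (p : ℤ) ∣ a) → m ≤ N₀ := by
      intro m hm hex
      push Not at hex
      obtain ⟨l, hl, hlm, hla⟩ := hex
      have hla' : l ≤ a.toNat := by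
        have h1 := Int.le_of_dvd ha hla
        omega
      obtain ⟨p, q, hp, hq, hmpq, h1, h2⟩ := h.fac m hm
      rw [hmpq] at hlm
      rw [hmpq, hN₀]
      rcases (Nat.Prime.dvd_mul hl).1 hlm with h3 | h3
      · have h4 : l = p := (Nat.prime_dvd_prime_iff_eq hl (h.prA p hp).1).1 h3
        subst h4
        calc l * q ≤ l * l ^ E := Nat.mul_le_mul_left _ h2
          _ = l ^ (E + 1) := by rw [pow_succ]; ring
          _ ≤ _ := Nat.pow_le_pow_left hla' _
      · have h4 : l = q := (Nat.prime_dvd_prime_iff_eq hl (h.prB q hq).1).1 h3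
        subst h4
        calc p * l ≤ l ^ E * l := Nat.mul_le_mul_right _ h1
          _ = l ^ (E + 1) := by rw [pow_succ]
          _ ≤ _ := Nat.pow_le_pow_left hla' _
    refine ⟨c₁, hc₁, C + (N₀ + 1), fun H v₀ v₁ hH hHv hv => ?_⟩
    have h1 := hC H v₀ v₁ hH hHv hv
    set M' : ℕ → Prop := fun m => M m ∧ ∀ p : ℕ, p.Prime → p ∣ m → ¬ (p : ℤ) ∣ a with hM'
    have hHR : (0 : ℝ) < H := by exact_mod_cast hH
    have hcell : ∀ v, mE M H v ≤ mE M' H v +
        ∑ m ∈ range (N₀ + 1), (if m ∈ cellM M H v then (1 : ℝ) else 0) := by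
      intro v
      unfold mE
      have h2 : cellM M' H v = (cellM M H v).filter
          (fun m => ∀ p : ℕ, p.Prime → p ∣ m → ¬ (p : ℤ) ∣ a) := by
        ext m
        unfold cellM
        simp only [mem_filter, hM']
        tauto
      rw [h2, ← Finset.sum_filter_add_sum_filter_not (cellM M H v)
        (fun m => ∀ p : ℕ, p.Prime → p ∣ m → ¬ (p : ℤ) ∣ a)]
      apply add_le_add le_rfl
      rw [← Finset.sum_filter]
      calc ∑ m ∈ (cellM M H v).filter (fun m => ¬ ∀ p : ℕ, p.Prime → p ∣ m → ¬ (p : ℤ) ∣ a),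
            1 / (m : ℝ)
          ≤ ∑ m ∈ (cellM M H v).filter (fun m => ¬ ∀ p : ℕ, p.Prime → p ∣ m → ¬ (p : ℤ) ∣ a),
            (1 : ℝ) := by
            apply sum_le_sum
            intro m _
            rcases Nat.eq_zero_or_pos m with h3 | h3
            · rw [h3]; simp
            · rw [div_le_one (by exact_mod_cast h3)]
              exact_mod_cast h3
        _ ≤ _ := by
            rw [sum_const, sum_const, nsmul_eq_mul, nsmul_eq_mul, mul_one, mul_one]
            apply Nat.cast_le.2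
            apply card_le_card
            intro m hm
            rw [mem_filter] at hm ⊢
            refine ⟨?_, hm.1⟩
            have h3 : M m := (mem_filter.1 hm.1).2.1
            rw [mem_range]
            have := hbd m h3 hm.2
            omega
    have h3 : ∑ v ∈ Ico v₀ v₁, ∑ m ∈ range (N₀ + 1), (if m ∈ cellM M H v then (1 : ℝ) else 0) ≤
        N₀ + 1 := by
      rw [sum_comm]
      have h4 : ∀ m ∈ range (N₀ + 1),
          ∑ v ∈ Ico v₀ v₁, (if m ∈ cellM M H v then (1 : ℝ) else 0) ≤ 1 := by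
        intro m _
        rw [← Finset.sum_filter, sum_const, nsmul_eq_mul, mul_one]
        have h5 : ((Ico v₀ v₁).filter (fun v => m ∈ cellM M H v)).card ≤ 1 := by
          rw [card_le_one]
          intro x hx y hy
          rw [mem_filter] at hx hy
          obtain ⟨-, hx2⟩ := hx
          obtain ⟨-, hy2⟩ := hy
          unfold cellM at hx2 hy2
          rw [mem_filter] at hx2 hy2
          obtain ⟨-, -, x1, x2⟩ := hx2
          obtain ⟨-, -, y1, y2⟩ := hy2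
          have k1 : (x : ℝ) / H < ((y : ℝ) + 1) / H := x1.trans_lt y2
          have k2 : (y : ℝ) / H < ((x : ℝ) + 1) / H := y1.trans_lt x2
          rw [div_lt_div_iff_of_pos_right hHR] at k1 k2
          have k3 : x < y + 1 := by exact_mod_cast k1
          have k4 : y < x + 1 := by exact_mod_cast k2
          omega
        exact_mod_cast h5
      refine (sum_le_card_nsmul _ _ _ h4).trans ?_
      rw [card_range, nsmul_eq_mul, mul_one]
      push_cast
      exact le_rfl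
    have h5 := sum_le_sum (fun v (_ : v ∈ Ico v₀ v₁) => hcell v)
    rw [sum_add_distrib] at h5
    linarith

theorem sele_of (hg : Pm g) (hχ : Ch a χ) (ha : 0 < a) (hs : SplOne (t ^ 2 - 4 * c) a χ)
    (h : GA.S_ELE t c) : S_ELE (Gt (t := t) (c := c) g χ) := by
  obtain ⟨Ap, Bp, M, E, ρ, ϖ, hE⟩ := h
  refine ⟨_, _, _, E, ρ, ϖ, ele_restrict hE ha, ?_⟩
  -- the primes
  have key : ∀ p : ℕ, p.Prime → 5 ≤ p → ¬ (p : ℤ) ∣ t ^ 2 - 4 * c → ¬ (p : ℤ) ∣ a →
      Sm Ap Bp p → χ p = 1 := by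
    intro p hp h5 hD hpa hsm
    have hpp : Prime (p : ℤ) := Nat.prime_iff_prime_int.1 hp
    apply hs p hp
    · intro h1
      rcases hpp.dvd_or_dvd h1 with h2 | h2
      · rcases hpp.dvd_or_dvd h2 with h3 | h3
        · have h4 := Int.le_of_dvd (by norm_num) h3
          have : (5 : ℤ) ≤ p := by exact_mod_cast h5
          linarith
        · exact hpa h3
      · exact hD h2
    · have h1 := hE.root p hsm
      refine ⟨((2 * ρ p - t : ℤ) : ZMod p), ?_⟩
      have h2 : ((4 * (ρ p ^ 2 - t * ρ p + c) : ℤ) : ZMod p) = 0 := by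
        rw [ZMod.intCast_zmod_eq_zero_iff_dvd]
        exact Dvd.dvd.mul_left h1 4
      have h3 : (2 * ρ p - t) * (2 * ρ p - t) = t ^ 2 - 4 * c + 4 * (ρ p ^ 2 - t * ρ p + c) := by
        ring
      rw [← Int.cast_mul, h3, Int.cast_add, h2, add_zero]
  intro m hm n hn
  obtain ⟨hm1, hm2⟩ := hm
  obtain ⟨p, q, hp, hq, hmpq, -, -⟩ := hE.fac m hm1
  obtain ⟨p1, p2, p3⟩ := hE.prA p hp
  obtain ⟨q1, q2, q3⟩ := hE.prB q hq
  have hp0 : p ∣ m := ⟨q, hmpq⟩
  have hq0 : q ∣ m := ⟨p, by rw [hmpq, mul_comm]⟩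
  have hcp : χ p = 1 := key p p1 p2 p3 (hm2 p p1 hp0)
    ⟨p1.ne_zero, fun l hl hlp => Or.inl (by
      rw [(Nat.prime_dvd_prime_iff_eq hl p1).1 hlp]; exact hp)⟩
  have hcq : χ q = 1 := key q q1 q2 q3 (hm2 q q1 hq0)
    ⟨q1.ne_zero, fun l hl hlp => Or.inr (by
      rw [(Nat.prime_dvd_prime_iff_eq hl q1).1 hlp]; exact hq)⟩
  rw [hmpq] at hn
  obtain ⟨n₁, n₂, h1, h2, rfl⟩ := (Nat.dvd_mul).1 hn
  have h3 : χ (n₁ : ℤ) = 1 := by
    rcases (Nat.dvd_prime p1).1 h1 with h | h <;> rw [h]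
    · rw [Nat.cast_one, hχ.one]
    · exact hcp
  have h4 : χ (n₂ : ℤ) = 1 := by
    rcases (Nat.dvd_prime q1).1 h2 with h | h <;> rw [h]
    · rw [Nat.cast_one, hχ.one]
    · exact hcq
  have hn0 : n₁ * n₂ ≠ 0 := by
    intro h0
    rw [h0, zero_dvd_iff] at hn
    have := mul_ne_zero p1.ne_zero q1.ne_zero
    exact this hn
  rw [gt_natCast hg hn0, Nat.cast_mul, hχ.mul, h3, h4, one_mul]

end Pool.Agent.K9h53.LN
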