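import Pool.Agent.K9h53.LQ.StB
import Pool.Agent.W583.GT.Sq
import Pool.Agent.W591.GT.Large
import Pool.Agent.W578.GT.Equt

/-!
Project LN (helper53): few triples whose product has a large square divisor, all nonsquare
discriminants.
-/

set_option autoImplicit false

namespace Pool.Agent.K9h53.LN.Sqf

open Finset Filter
open Pool.Agent.W78.GT
open Pool.Agent.W583.GT
open Pool.Agent.W880.GM (tail_all tail_prime)

variable {t c : ℤ}

lemma pow_dvd_of {l : ℤ} (hl : Prime l) : ∀ (w j : ℕ) (δ x : ℤ), ¬ l ^ w ∣ x → l ^ j ∣ δ * x →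
    l ^ (j - w) ∣ δ := by
  intro w
  induction w with
  | zero =>
    intro j δ x h _
    exact absurd (by rw [pow_zero]; exact one_dvd _) h
  | succ w ih =>
    intro j δ x h h2
    by_cases hlx : l ∣ x
    · obtain ⟨x', rfl⟩ := hlx
      rcases j with _ | j
      · rw [Nat.zero_sub, pow_zero]
        exact one_dvd _
      · have h3 : ¬ l ^ w ∣ x' := by
          intro h4
          apply h
          rw [pow_succ, mul_comm]
          exact mul_dvd_mul_left l h4
        have h4 : l ^ j ∣ δ * x' := by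
          have h5 : l * l ^ j ∣ l * (δ * x') := by
            have e1 : l * l ^ j = l ^ (j + 1) := by ring
            have e2 : l * (δ * x') = δ * (l * x') := by ring
            rw [e1, e2]
            exact h2
          exact Int.dvd_of_mul_dvd_mul_left hl.ne_zero h5
        have h5 := ih j δ x' h3 h4
        have e : j + 1 - (w + 1) = j - w := by omega
        rw [e]
        exact h5
    · have h3 : l ^ j ∣ δ := hl.pow_dvd_of_dvd_mul_right j hlx h2
      exact (pow_dvd_pow l (Nat.sub_le _ _)).trans h3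

/-- the roots of a quadratic polynomial modulo a prime power -/
lemma card_roots {l : ℕ} (hl : l.Prime) {A B C : ℤ} {w : ℕ}
    (hw : ¬ (l : ℤ) ^ w ∣ B ^ 2 - 4 * A * C) (j : ℕ) (S : Finset ℤ)
    (hS : ∀ s ∈ S, 0 ≤ s ∧ s < (l : ℤ) ^ j ∧ (l : ℤ) ^ j ∣ A * s ^ 2 + B * s + C) :
    S.card ≤ l ^ (2 * w) := by
  have hlp : Prime (l : ℤ) := Nat.prime_iff_prime_int.1 hl
  have hl0 : (0 : ℤ) < l := by exact_mod_cast hl.pos
  rcases lt_or_ge j w with hjw | hjw
  · have h1 : S ⊆ Finset.Ico (0 : ℤ) ((l : ℤ) ^ j) := by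
      intro s hs
      obtain ⟨h1, h2, -⟩ := hS s hs
      exact Finset.mem_Ico.2 ⟨h1, h2⟩
    have h2 := card_le_card h1
    rw [Int.card_Ico, sub_zero] at h2
    have h3 : ((l : ℤ) ^ j).toNat = l ^ j := by
      have : ((l : ℤ) ^ j) = ((l ^ j : ℕ) : ℤ) := by push_cast; ring
      rw [this, Int.toNat_natCast]
    rw [h3] at h2
    exact h2.trans (Nat.pow_le_pow_right hl.pos (by omega))
  · have hmap : S.card ≤ ((Finset.Ico (0 : ℤ) ((l : ℤ) ^ w)) ×ˢ
        (Finset.Ico (0 : ℤ) ((l : ℤ) ^ w))).card := by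
      refine card_le_card_of_injOn (fun s => (s % (l : ℤ) ^ w, s / (l : ℤ) ^ (j - w))) ?_ ?_
      · intro s hs
        obtain ⟨h1, h2, -⟩ := hS s hs
        have hp1 : (0 : ℤ) < (l : ℤ) ^ w := by positivity
        have hp2 : (0 : ℤ) < (l : ℤ) ^ (j - w) := by positivity
        rw [Finset.mem_coe, mem_product, Finset.mem_Ico, Finset.mem_Ico]
        refine ⟨⟨Int.emod_nonneg _ hp1.ne', Int.emod_lt_of_pos _ hp1⟩, Int.ediv_nonneg h1 hp2.le, ?_⟩
        apply Int.ediv_lt_of_lt_mul hp2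
        rw [← pow_add]
        have e : w + (j - w) = j := by omega
        rw [e]
        exact h2
      · intro s hs s' hs' hss
        obtain ⟨h1, h2, h3⟩ := hS s hs
        obtain ⟨h1', h2', h3'⟩ := hS s' hs'
        simp only [Prod.mk.injEq] at hss
        obtain ⟨e1, e2⟩ := hss
        have hd : (l : ℤ) ^ w ∣ s' - s := Int.ModEq.dvd e1
        have hx : ¬ (l : ℤ) ^ w ∣ 2 * A * s + B + A * (s' - s) := by
          intro h4
          have h5 : (l : ℤ) ^ w ∣ 2 * A * s + B := by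
            have := dvd_sub h4 (Dvd.dvd.mul_left hd A)
            simpa using this
          apply hw
          have h6 : B ^ 2 - 4 * A * C = (2 * A * s + B) * (2 * A * s + B) -
              4 * A * (A * s ^ 2 + B * s + C) := by ring
          rw [h6]
          exact dvd_sub (Dvd.dvd.mul_right h5 _)
            (Dvd.dvd.mul_left ((pow_dvd_pow _ hjw).trans h3) _)
        have h4 : (l : ℤ) ^ j ∣ (s' - s) * (2 * A * s + B + A * (s' - s)) := by
          have e : (s' - s) * (2 * A * s + B + A * (s' - s)) =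
              (A * s' ^ 2 + B * s' + C) - (A * s ^ 2 + B * s + C) := by ring
          rw [e]
          exact dvd_sub h3' h3
        have h5 := pow_dvd_of hlp w j _ _ hx h4
        have h6 : s % (l : ℤ) ^ (j - w) = s' % (l : ℤ) ^ (j - w) := (Int.modEq_iff_dvd.2 h5)
        rw [← Int.emod_add_mul_ediv s ((l : ℤ) ^ (j - w)),
          ← Int.emod_add_mul_ediv s' ((l : ℤ) ^ (j - w)), h6, e2]
    rw [card_product, Int.card_Ico, sub_zero] at hmap
    have h3 : ((l : ℤ) ^ w).toNat = l ^ w := by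
      have : ((l : ℤ) ^ w) = ((l ^ w : ℕ) : ℤ) := by push_cast; ring
      rw [this, Int.toNat_natCast]
    rw [h3, ← pow_add] at hmap
    have e : w + w = 2 * w := by ring
    rwa [e] at hmap

/-- the roots `(d, r)` with `l ^ j ∣ d` -/
noncomputable def V (t c : ℤ) (l j : ℕ) (X : ℝ) : Finset (ℕ × ℤ) :=
  (rts t c X).filter (fun v => l ^ j ∣ v.1)

lemma card_V {l : ℕ} (hl : l.Prime) {w : ℕ} (hw : ¬ (l : ℤ) ^ w ∣ t ^ 2 - 4 * c) (j : ℕ)
    (X : ℝ) : (V t c l j X).card ≤ l ^ (2 * w) * (rts t c (X / l ^ j)).card := by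
  classical
  have hl0 : 0 < l ^ j := pow_pos hl.pos j
  have hl0R : (0 : ℝ) < (l : ℝ) ^ j := by exact_mod_cast hl0
  refine card_le_mul_card_image_of_maps_to
    (f := fun v : ℕ × ℤ => (v.1 / l ^ j, v.2 % ((v.1 / l ^ j : ℕ) : ℤ))) ?_ _ ?_
  · intro v hv
    unfold V at hv
    rw [mem_filter, mem_rts] at hv
    obtain ⟨⟨v1, v2, v3, v4, v5⟩, d, hd⟩ := hv
    have hdiv : v.1 / l ^ j = d := by
      rw [hd, Nat.mul_div_cancel_left _ hl0]
    have hd1 : 1 ≤ d := by
      rcases Nat.eq_zero_or_pos d with h | h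
      · rw [h, mul_zero] at hd
        omega
      · exact h
    rw [hdiv]
    refine root_mem hd1 ?_ ?_
    · rw [le_div_iff₀ hl0R]
      have : (v.1 : ℝ) = d * (l : ℝ) ^ j := by rw [hd]; push_cast; ring
      rw [← this]
      exact v2
    · refine dvd_trans ?_ v3
      rw [hd]
      push_cast
      exact Dvd.intro_left _ rfl
  · rintro ⟨d, r⟩ hp
    have hp1 : 1 ≤ d := (mem_rts.1 hp).1
    obtain ⟨-, -, ⟨q₁, hq₁⟩, -, -⟩ := mem_rts.1 hp
    simp only at hq₁
    have hd0 : (0 : ℤ) < d := by exact_mod_cast hp1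
    have hdisc : (2 * r + t) ^ 2 - 4 * (d : ℤ) * q₁ = t ^ 2 - 4 * c := by
      have h1 : (d : ℤ) * q₁ = r ^ 2 + t * r + c := hq₁.symm
      linear_combination (-4) * h1
    refine le_trans ?_ (card_roots hl (A := (d : ℤ)) (B := 2 * r + t) (C := q₁) (w := w)
      (by rw [hdisc]; exact hw) j
      (((V t c l j X).filter (fun v => (v.1 / l ^ j, v.2 % ((v.1 / l ^ j : ℕ) : ℤ)) = (d, r))).image
        (fun v => v.2 / (d : ℤ))) ?_)
    · rw [card_image_of_injOn]
      intro v hv v' hv' hvv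
      rw [Finset.mem_coe, mem_filter] at hv hv'
      obtain ⟨hv1, hv2⟩ := hv
      obtain ⟨hv1', hv2'⟩ := hv'
      unfold V at hv1 hv1'
      rw [mem_filter] at hv1 hv1'
      simp only [Prod.mk.injEq] at hv2 hv2'
      have e1 : v.1 = v'.1 := by
        have h1 := Nat.div_mul_cancel hv1.2
        have h2 := Nat.div_mul_cancel hv1'.2
        rw [← h1, ← h2, hv2.1, hv2'.1]
      have e2 : v.2 = v'.2 := by
        have h1 := hv2.2
        have h2 := hv2'.2
        rw [hv2.1] at h1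
        rw [hv2'.1] at h2
        simp only at hvv
        rw [← Int.emod_add_mul_ediv v.2 d, ← Int.emod_add_mul_ediv v'.2 d, h1, h2, hvv]
      exact Prod.ext e1 e2
    · intro s hs
      rw [mem_image] at hs
      obtain ⟨v, hv, rfl⟩ := hs
      rw [mem_filter] at hv
      obtain ⟨hv1, hv2⟩ := hv
      unfold V at hv1
      rw [mem_filter, mem_rts] at hv1
      obtain ⟨⟨v1, v2, v3, v4, v5⟩, hdvd⟩ := hv1
      simp only [Prod.mk.injEq] at hv2
      have h1 := hv2.2
      rw [hv2.1] at h1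
      have hv1e : (v.1 : ℤ) = d * (l : ℤ) ^ j := by
        have h2 := Nat.div_mul_cancel hdvd
        rw [hv2.1] at h2
        rw [← h2]
        push_cast
        ring
      refine ⟨Int.ediv_nonneg v4 hd0.le, ?_, ?_⟩
      · apply Int.ediv_lt_of_lt_mul hd0
        rw [hv1e] at v5
        linarith
      · obtain ⟨s, hs⟩ : ∃ s : ℤ, s = v.2 / d := ⟨_, rfl⟩
        rw [← hs]
        have h2 : v.2 = r + d * s := by
          rw [hs, ← h1]
          exact (Int.emod_add_mul_ediv _ _).symm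
        have h3 : (d : ℤ) * (l : ℤ) ^ j ∣ d * (d * s ^ 2 + (2 * r + t) * s + q₁) := by
          rw [← hv1e]
          refine dvd_trans v3 (dvd_of_eq ?_)
          rw [h2]
          have h4 : (d : ℤ) * q₁ = r ^ 2 + t * r + c := hq₁.symm
          unfold Qp
          linear_combination (-1) * h4
        exact Int.dvd_of_mul_dvd_mul_left hd0.ne' h3

/-- few triples with a high power of a given prime -/
lemma few_pow (hns : ¬ IsSquare (t ^ 2 - 4 * c)) {l : ℕ} (hl : l.Prime) {κ : ℝ} (hκ : 0 < κ) :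
    ∃ j : ℕ, ∀ X : ℝ, 1 ≤ X →
      (((tri t c X X).filter (fun e => l ^ (2 * j) ∣ NT e)).card : ℝ) ≤ κ * X := by
  classical
  have hD0 : t ^ 2 - 4 * c ≠ 0 := by
    intro h
    exact hns ⟨0, by rw [h, mul_zero]⟩
  have hroot := Pool.Agent.W29.GT.root_of (Pool.Agent.W571.GT.rep hns)
  obtain ⟨ε, hε, hv⟩ := LQ.vet_small (Pool.Agent.W29.GT.vet_of hroot) hκ
  obtain ⟨C, hC, hroot⟩ := hroot
  -- the exponent `w`
  obtain ⟨w, hw⟩ : ∃ w : ℕ, ¬ (l : ℤ) ^ w ∣ t ^ 2 - 4 * c := by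
    refine ⟨(t ^ 2 - 4 * c).natAbs, fun h => ?_⟩
    have h1 : l ^ (t ^ 2 - 4 * c).natAbs ∣ (t ^ 2 - 4 * c).natAbs := by
      have h2 := Int.natAbs_dvd_natAbs.2 h
      rwa [Int.natAbs_pow, Int.natAbs_natCast] at h2
    have h2 := Nat.le_of_dvd (Int.natAbs_pos.2 hD0) h1
    have h3 : (t ^ 2 - 4 * c).natAbs < l ^ (t ^ 2 - 4 * c).natAbs := Nat.lt_pow_self hl.one_lt
    omega
  obtain ⟨j, hj⟩ : ∃ j : ℕ, (l : ℝ) ^ (2 * w) * C / ε < (l : ℝ) ^ j :=
    pow_unbounded_of_one_lt _ (by exact_mod_cast hl.one_lt)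
  refine ⟨j, fun X hX => ?_⟩
  have hl0 : (0 : ℝ) < l := by exact_mod_cast hl.pos
  have hX0 : 0 ≤ X := by linarith
  have hV : ((V t c l j X).card : ℝ) ≤ ε * X := by
    have h1 : ((V t c l j X).card : ℝ) ≤ (l : ℝ) ^ (2 * w) * (rts t c (X / l ^ j)).card := by
      exact_mod_cast card_V hl hw j X
    have h2 := hroot (X / l ^ j) (by positivity)
    have h3 : (l : ℝ) ^ (2 * w) * (C * (X / l ^ j)) ≤ ε * X := by
      rw [div_lt_iff₀ hε] at hj
      have e1 : (l : ℝ) ^ (2 * w) * (C * (X / l ^ j)) = (l : ℝ) ^ (2 * w) * C * X / l ^ j := by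
        ring
      rw [e1, div_le_iff₀ (by positivity)]
      have h4 := mul_le_mul_of_nonneg_right hj.le hX0
      linarith
    exact (h1.trans (mul_le_mul_of_nonneg_left h2 (by positivity))).trans h3
  refine le_trans (Nat.cast_le.2 (card_le_card ?_)) (hv X (V t c l j X) hX (filter_subset _ _) hV)
  intro e he
  rw [mem_filter] at he ⊢
  obtain ⟨he1, he2⟩ := he
  refine ⟨he1, ?_⟩
  obtain ⟨a1, a2, a3, a4, a5, a6⟩ := mem_tri.1 he1
  have h5 : l ^ j ∣ e.1 ∨ l ^ j ∣ e.2.2 := by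
    by_contra hcon
    push Not at hcon
    have n1 : e.1 ≠ 0 := by omega
    have n2 : e.2.2 ≠ 0 := by omega
    rw [hl.pow_dvd_iff_le_factorization n1, hl.pow_dvd_iff_le_factorization n2] at hcon
    unfold NT at he2
    rw [hl.pow_dvd_iff_le_factorization (mul_ne_zero n1 n2), Nat.factorization_mul n1 n2,
      Finsupp.add_apply] at he2
    omega
  rcases h5 with h | h
  · left
    unfold V
    rw [mem_filter]
    exact ⟨vx_mem he1, h⟩
  · right
    unfold V
    rw [mem_filter]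
    exact ⟨vy_mem he1, h⟩

/-- large primes -/
theorem sqt_large (hns : ¬ IsSquare (t ^ 2 - 4 * c)) : ∃ C : ℝ, 0 < C ∧ ∀ z : ℕ, 2 ≤ z →
    (2 * (t ^ 2 - 4 * c)).natAbs ≤ z → ∃ X₀ : ℝ, ∀ X : ℝ, X₀ ≤ X →
    (open scoped Classical in
      (((tri t c X X).filter (fun e => ∃ l : ℕ, l.Prime ∧ z < l ∧ l ^ 2 ∣ NT e)).card : ℝ)) ≤
      C / z * X := by
  classical
  have hD0 : t ^ 2 - 4 * c ≠ 0 := by
    intro h
    exact hns ⟨0, by rw [h, mul_zero]⟩
  obtain ⟨C, hC, hE⟩ := Pool.Agent.W578.GT.equt_of (Pool.Agent.W571.GT.rep hns)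
  obtain ⟨A, hL⟩ := Pool.Agent.W591.GT.larget hns
  refine ⟨6 * C + 1, by positivity, fun z hz hzD => ?_⟩
  have hzR : (2 : ℝ) ≤ z := by exact_mod_cast hz
  obtain ⟨X₁, hX₁⟩ := hL (1 / (z : ℝ)) (by positivity)
  obtain ⟨X₂, hX₂⟩ := hE (2 * A)
  refine ⟨max (Real.exp 1) (max X₁ X₂), fun X hX => ?_⟩
  have hXe : Real.exp 1 ≤ X := (le_max_left _ _).trans hX
  have hXX1 : X₁ ≤ X := ((le_max_left _ _).trans (le_max_right _ _)).trans hX
  have hXX2 : X₂ ≤ X := ((le_max_right _ _).trans (le_max_right _ _)).trans hX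
  have hX1 : 1 ≤ X := by
    have := Real.add_one_le_exp (1 : ℝ)
    linarith
  have hlog : 1 ≤ Real.log X := by
    rw [Real.le_log_iff_exp_le (by linarith)]
    exact hXe
  have hlogpow : ∀ k : ℕ, 1 ≤ Real.log X ^ k := fun k => one_le_pow₀ hlog
  set N : ℕ := ⌊Real.log X ^ A⌋₊ with hN
  set L : Finset ℕ := (Ioc z N).filter (fun l => Spl t c l) with hLdef
  set BL := (tri t c X X).filter (fun e => ∃ l : ℕ, l.Prime ∧ Real.log X ^ A < (l : ℝ) ∧
      l ^ 2 ∣ NT e) with hBL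
  set B : ℕ → Finset Tr := fun l => (tri t c X X).filter (fun e => l ^ 2 ∣ NT e) with hB
  have hsub : (tri t c X X).filter (fun e => ∃ l : ℕ, l.Prime ∧ z < l ∧ l ^ 2 ∣ NT e) ⊆
      BL ∪ L.biUnion B := by
    intro e he
    rw [mem_filter] at he
    obtain ⟨he1, l, hl, hzl, hle⟩ := he
    rw [mem_union]
    by_cases hlg : Real.log X ^ A < (l : ℝ)
    · left
      rw [hBL, mem_filter]
      exact ⟨he1, l, hl, hlg, hle⟩
    · right
      rw [mem_biUnion]
      refine ⟨l, ?_, ?_⟩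
      · rw [hLdef, mem_filter, mem_Ioc]
        refine ⟨⟨hzl, Nat.le_floor (not_lt.1 hlg)⟩, hl, fun h2 => ?_, e.2.1, ?_⟩
        · have h3 : l ∣ (2 * (t ^ 2 - 4 * c)).natAbs := by
            have := Int.natAbs_dvd_natAbs.2 h2
            rwa [Int.natAbs_natCast] at this
          have h4 := Nat.le_of_dvd (Int.natAbs_pos.2 (mul_ne_zero two_ne_zero hD0)) h3
          omega
        · have h5 := (mem_tri.1 he1).2.2.2.2.1
          rw [← h5]
          unfold NT at hle
          exact_mod_cast (dvd_trans (dvd_pow_self _ two_ne_zero) hle)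
      · rw [hB, mem_filter]
        exact ⟨he1, hle⟩
  have hcardBL : (BL.card : ℝ) ≤ 1 / (z : ℝ) * X := hX₁ X hXX1
  have hcardB : ∀ l ∈ L, ((B l).card : ℝ) ≤ 6 * C * X * (1 / (l : ℝ) ^ 2) := by
    intro l hl
    rw [hLdef, mem_filter, mem_Ioc] at hl
    obtain ⟨⟨hzl, hlN⟩, hls⟩ := hl
    have hlp := hls.1
    have hlpos : (0 : ℝ) < l := by exact_mod_cast hlp.pos
    have hlR : (l : ℝ) ≤ Real.log X ^ A :=
      (Nat.cast_le.2 hlN).trans (Nat.floor_le (by positivity))
    have hB1 : ∀ f ∈ B l, (((tri t c X X).filter (fun e => Cg (l ^ 2) e f)).card : ℝ) ≤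
        C * X * (Nat.totient (l ^ 2) : ℝ) / ((l ^ 2 : ℕ) : ℝ) ^ 3 := by
      intro f _
      refine hX₂ X X X (l ^ 2) f hXX2 hX1 hX1 (by rw [pow_two]) ?_ ?_ ?_ ?_ ?_
      · have := hlogpow (2 * A); nlinarith
      · have := hlogpow (2 * A); nlinarith
      · exact Nat.one_le_pow _ _ hlp.pos
      · push_cast
        rw [mul_comm 2 A, pow_mul]
        exact pow_le_pow_left₀ hlpos.le hlR 2
      · intro p hp hpl
        rw [(Nat.prime_dvd_prime_iff_eq hp hlp).1 (hp.dvd_of_dvd_pow hpl)]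
        exact hls
    have h1 := (occ_sq hls).card_le (B l) (tri t c X X) (by
      intro e he
      rw [hB, mem_filter] at he
      exact he.1) (by
      intro e he
      rw [hB, mem_filter] at he
      refine ⟨toZ_mem he.1, ?_⟩
      have h2 := he.2
      unfold NT at h2
      show ((l ^ 2 : ℕ) : ℤ) ∣ (e.1 : ℤ) * (e.2.2 : ℤ)
      exact_mod_cast h2) _ (by positivity) hB1
    refine h1.trans ?_
    have h2 := wt_sq hlp.pos 6
    unfold wt at h2
    calc ((6 * l ^ 2 : ℕ) : ℝ) * (C * X * (Nat.totient (l ^ 2) : ℝ) / ((l ^ 2 : ℕ) : ℝ) ^ 3)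
        = C * X * (((6 * l ^ 2 : ℕ) : ℝ) * (Nat.totient (l ^ 2) : ℝ) / ((l ^ 2 : ℕ) : ℝ) ^ 3) := by
          ring
      _ ≤ C * X * ((6 : ℕ) / (l : ℝ) ^ 2) := mul_le_mul_of_nonneg_left h2 (by positivity)
      _ = 6 * C * X * (1 / (l : ℝ) ^ 2) := by push_cast; ring
  have hsum : ∑ l ∈ L, 1 / (l : ℝ) ^ 2 ≤ 1 / (z : ℝ) := by
    refine tail_all z (by omega) L fun l hl => ?_
    rw [hLdef, mem_filter, mem_Ioc] at hl
    exact hl.1.1
  have hcard := (Finset.card_le_card hsub).trans (card_union_le _ _)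
  have hcard2 : (((tri t c X X).filter
      (fun e => ∃ l : ℕ, l.Prime ∧ z < l ∧ l ^ 2 ∣ NT e)).card : ℝ) ≤
      (BL.card : ℝ) + ((L.biUnion B).card : ℝ) := by exact_mod_cast hcard
  have hcard3 : ((L.biUnion B).card : ℝ) ≤ ∑ l ∈ L, ((B l).card : ℝ) := by
    exact_mod_cast card_biUnion_le
  refine hcard2.trans ?_
  calc (BL.card : ℝ) + ((L.biUnion B).card : ℝ)
      ≤ 1 / (z : ℝ) * X + ∑ l ∈ L, 6 * C * X * (1 / (l : ℝ) ^ 2) :=
        add_le_add hcardBL (hcard3.trans (sum_le_sum hcardB))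
    _ = 1 / (z : ℝ) * X + 6 * C * X * ∑ l ∈ L, (1 / (l : ℝ) ^ 2) := by rw [mul_sum]
    _ ≤ 1 / (z : ℝ) * X + 6 * C * X * (1 / (z : ℝ)) := by
        have : 0 ≤ 6 * C * X := by positivity
        have := mul_le_mul_of_nonneg_left hsum this
        linarith
    _ = (6 * C + 1) / z * X := by ring

/-- few triples whose product has a large square divisor -/
theorem sqf (hns : ¬ IsSquare (t ^ 2 - 4 * c)) {δ : ℝ} (hδ : 0 < δ) :
    ∃ (K : ℕ) (X₀ : ℝ), ∀ X : ℝ, X₀ ≤ X →
    (open scoped Classical in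
      (((tri t c X X).filter (fun e => ∃ q : ℕ, K < q ∧ q ^ 2 ∣ NT e)).card : ℝ)) ≤ δ * X := by
  classical
  obtain ⟨C, hC, hsq⟩ := sqt_large hns
  obtain ⟨z, hz⟩ : ∃ z : ℕ, z = 2 + (2 * (t ^ 2 - 4 * c)).natAbs + ⌈2 * C / δ⌉₊ := ⟨_, rfl⟩
  have hz2 : 2 ≤ z := by omega
  have hzC : C / z ≤ δ / 2 := by
    have h1 : 2 * C / δ ≤ z := by
      refine (Nat.le_ceil _).trans ?_
      have : ⌈2 * C / δ⌉₊ ≤ z := by omega
      exact_mod_cast this
    have hz0 : (0 : ℝ) < z := by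
      have : (2 : ℝ) ≤ z := by exact_mod_cast hz2
      linarith
    rw [div_le_iff₀ hδ] at h1
    rw [div_le_iff₀ hz0]
    linarith
  obtain ⟨X₁, hX₁⟩ := hsq z hz2 (by omega)
  obtain ⟨P, hP⟩ : ∃ P : Finset ℕ, P = (range (z + 1)).filter Nat.Prime := ⟨_, rfl⟩
  have hPcard : (P.card : ℝ) ≤ z + 1 := by
    have h1 : P.card ≤ z + 1 := by
      rw [hP]
      exact (card_filter_le _ _).trans (by rw [card_range])
    exact_mod_cast h1
  have hκ : 0 < δ / (2 * (z + 1)) := by positivity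
  have hex : ∀ l : ℕ, ∃ j : ℕ, l ∈ P → ∀ X : ℝ, 1 ≤ X →
      (((tri t c X X).filter (fun e => l ^ (2 * j) ∣ NT e)).card : ℝ) ≤ δ / (2 * (z + 1)) * X := by
    intro l
    by_cases hl : l ∈ P
    · have hlp : l.Prime := by
        rw [hP, mem_filter] at hl
        exact hl.2
      obtain ⟨j, hj⟩ := few_pow hns hlp hκ
      exact ⟨j, fun _ => hj⟩
    · exact ⟨0, fun h => absurd h hl⟩
  choose j hj using hex
  refine ⟨∏ l ∈ P, l ^ j l, max 1 X₁, fun X hX => ?_⟩
  have hX1 : 1 ≤ X := (le_max_left _ _).trans hX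
  have hXX₁ : X₁ ≤ X := (le_max_right _ _).trans hX
  have hsub : (tri t c X X).filter (fun e => ∃ q : ℕ, ∏ l ∈ P, l ^ j l < q ∧ q ^ 2 ∣ NT e) ⊆
      (tri t c X X).filter (fun e => ∃ l : ℕ, l.Prime ∧ z < l ∧ l ^ 2 ∣ NT e) ∪
        P.biUnion (fun l => (tri t c X X).filter (fun e => l ^ (2 * j l) ∣ NT e)) := by
    intro e he
    rw [mem_filter] at he
    obtain ⟨he1, q, hq, hqe⟩ := he
    rw [mem_union]
    by_cases hbig : ∃ l : ℕ, l.Prime ∧ z < l ∧ l ^ 2 ∣ NT e
    · left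
      exact mem_filter.2 ⟨he1, hbig⟩
    · right
      rw [mem_biUnion]
      by_contra hcon
      push Not at hcon hbig
      have hq0 : q ≠ 0 := by omega
      have hprod0 : ∏ l ∈ P, l ^ j l ≠ 0 := by
        rw [Finset.prod_ne_zero_iff]
        intro l hl
        rw [hP, mem_filter] at hl
        exact pow_ne_zero _ hl.2.ne_zero
      have hdvd : q ∣ ∏ l ∈ P, l ^ j l := by
        rw [← Nat.factorization_prime_le_iff_dvd hq0 hprod0]
        intro p hp
        by_cases hpq : p ∣ q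
        · have hpz : p ≤ z := by
            by_contra h
            exact hbig p hp (by omega) ((pow_dvd_pow_of_dvd hpq 2).trans hqe)
          have hpP : p ∈ P := by
            rw [hP, mem_filter, mem_range]
            exact ⟨by omega, hp⟩
          have h1 : q.factorization p ≤ j p := by
            by_contra h
            apply hcon p hpP
            rw [mem_filter]
            refine ⟨he1, dvd_trans ?_ hqe⟩
            have h2 : p ^ j p ∣ q := (hp.pow_dvd_iff_le_factorization hq0).2 (by omega)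
            have e2 : p ^ (2 * j p) = (p ^ j p) ^ 2 := by rw [← pow_mul, mul_comm]
            rw [e2]
            exact pow_dvd_pow_of_dvd h2 2
          refine h1.trans ?_
          rw [← hp.pow_dvd_iff_le_factorization hprod0]
          exact Finset.dvd_prod_of_mem (fun l => l ^ j l) hpP
        · rw [Nat.factorization_eq_zero_of_not_dvd hpq]
          exact Nat.zero_le _
      have := Nat.le_of_dvd (Nat.pos_of_ne_zero hprod0) hdvd
      omega
  have h1 := (card_le_card hsub).trans ((card_union_le _ _).trans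
    (Nat.add_le_add_left card_biUnion_le _))
  have h2 : (((tri t c X X).filter
      (fun e => ∃ q : ℕ, ∏ l ∈ P, l ^ j l < q ∧ q ^ 2 ∣ NT e)).card : ℝ) ≤
      (((tri t c X X).filter (fun e => ∃ l : ℕ, l.Prime ∧ z < l ∧ l ^ 2 ∣ NT e)).card : ℝ) +
      ∑ l ∈ P, (((tri t c X X).filter (fun e => l ^ (2 * j l) ∣ NT e)).card : ℝ) := by
    exact_mod_cast h1
  have h3 := hX₁ X hXX₁
  have h4 : ∑ l ∈ P, (((tri t c X X).filter (fun e => l ^ (2 * j l) ∣ NT e)).card : ℝ) ≤
      δ / 2 * X := by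
    refine (sum_le_card_nsmul _ _ _ (fun l hl => hj l hl X hX1)).trans ?_
    rw [nsmul_eq_mul]
    have hX0 : 0 ≤ X := by linarith
    calc (P.card : ℝ) * (δ / (2 * (z + 1)) * X) ≤ (z + 1) * (δ / (2 * (z + 1)) * X) :=
          mul_le_mul_of_nonneg_right hPcard (by positivity)
      _ = δ / 2 * X := by field_simp
  have h5 : C / z * X ≤ δ / 2 * X := mul_le_mul_of_nonneg_right hzC (by linarith)
  linarith

end Pool.Agent.K9h53.LN.Sqf
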