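import Pool.Agent.K9h53.LN.Main
import Pool.Agent.K9h53.LN.Sqf
import Pool.Agent.K9h53.LQ.Fin

/-!
Project LN (helper53): from the factorisations to the values, for an arbitrary property of the
values; values with a bounded square factor.
-/

set_option autoImplicit false

namespace Pool.Agent.K9h53.LN

open Finset Filter
open Pool.Agent.H376R2.MR (lam)
open Pool.Agent.W78.GT (Tr tri mem_tri Qp NT)
open Pool.Agent.K9h53.LQ (fQ PB S_FIN pairs_fin)

variable {a b c₀ : ℤ}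

open scoped Classical in
/-- the pairs `(d, m)`, `d, m ≤ Y`, with `d m = a t^2 + b t + c₀ > 0` for some `t ≥ 1`, for which
the value has the property `R` -/
noncomputable def PR (R : ℕ → Prop) (a b c₀ : ℤ) (Y : ℝ) : Finset (ℕ × ℕ) :=
  ((Icc 1 ⌊Y⌋₊) ×ˢ (Icc 1 ⌊Y⌋₊)).filter (fun p => ∃ t : ℕ, 1 ≤ t ∧ 0 < fQ a b c₀ t ∧
    (p.1 : ℤ) * p.2 = fQ a b c₀ t ∧ R (fQ a b c₀ t).toNat)

/-- a positive proportion of the factorisations, and many values, have the property `R` -/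
def BothR (R : ℕ → Prop) (a b c₀ : ℤ) : Prop :=
  (∃ κ : ℝ, 0 < κ ∧ ∃ N₀ : ℕ, ∀ N : ℕ, N₀ ≤ N → κ * N ≤
    (Set.ncard {p : ℕ × ℕ | 1 ≤ p.1 ∧ p.1 ≤ N ∧ 1 ≤ p.2 ∧ p.2 ≤ N ∧
      (∃ n : ℕ, 1 ≤ n ∧ (p.1 : ℤ) * p.2 = a * n ^ 2 + b * n + c₀) ∧ R (p.1 * p.2)} : ℝ)) ∧
  ∀ ε : ℝ, 0 < ε → ∃ N₀ : ℕ, ∀ N : ℕ, N₀ ≤ N → (N : ℝ) / Real.log N ^ (Real.log 2 + ε) ≤
    (Set.ncard {n : ℕ | 1 ≤ n ∧ n ≤ N ∧ ∃ m : ℕ, 1 ≤ m ∧
      (m : ℤ) = a * (n : ℤ) ^ 2 + b * n + c₀ ∧ R m} : ℝ)

theorem bothR_of {R : ℕ → Prop} (ha : 0 < a) (hns : ¬ IsSquare (b ^ 2 - 4 * (a * c₀)))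
    (h : ∃ κ X₀ : ℝ, 0 < κ ∧ ∀ X : ℝ, X₀ ≤ X → κ * X ≤ ((PR R a b c₀ X).card : ℝ)) :
    BothR R a b c₀ := by
  classical
  obtain ⟨κ, X₀, hκ, hX⟩ := h
  have haR : (1 : ℝ) ≤ a := by exact_mod_cast ha
  have haN : ((a.toNat : ℕ) : ℤ) = a := Int.toNat_of_nonneg ha.le
  have haNR : ((a.toNat : ℕ) : ℝ) = a := by exact_mod_cast haN
  constructor
  · refine ⟨κ, hκ, ⌈X₀⌉₊, fun N hN => ?_⟩
    refine (hX N ((Nat.le_ceil _).trans (by exact_mod_cast hN))).trans ?_
    rw [← Set.ncard_coe_finset]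
    apply Nat.cast_le.2
    apply Set.ncard_le_ncard _ (pairs_fin N _)
    intro p hp
    rw [Finset.mem_coe] at hp
    unfold PR at hp
    rw [mem_filter, mem_product, Finset.mem_Icc, Finset.mem_Icc, Nat.floor_natCast] at hp
    obtain ⟨⟨⟨h1, h2⟩, h3, h4⟩, t, h5, h6, h7, h8⟩ := hp
    refine ⟨h1, h2, h3, h4, ⟨t, h5, h7⟩, ?_⟩
    have e : (fQ a b c₀ t).toNat = p.1 * p.2 := by
      rw [← h7]
      exact_mod_cast Int.toNat_natCast (p.1 * p.2)
    rwa [e] at h8
  · -- the property of the values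
    obtain ⟨P, hP⟩ : ∃ P : ℕ → Prop, P = fun M : ℕ => ∃ n : ℕ, 1 ≤ n ∧ (M : ℤ) = a * fQ a b c₀ n ∧
      0 < fQ a b c₀ n ∧ R (fQ a b c₀ n).toNat := ⟨_, rfl⟩
    have hpairs : ∃ κ : ℝ, 0 < κ ∧ ∃ N₀ : ℕ, ∀ N : ℕ, N₀ ≤ N → κ * N ≤
      (Set.ncard {p : ℕ × ℕ | 1 ≤ p.1 ∧ p.1 ≤ N ∧ 1 ≤ p.2 ∧ p.2 ≤ N ∧
        (∃ n : ℤ, (p.1 : ℤ) * p.2 = n ^ 2 + b * n + a * c₀) ∧ P (p.1 * p.2)} : ℝ) := by
      refine ⟨κ / a, by positivity, ⌈a * |X₀|⌉₊, fun N hN => ?_⟩
      have hN' : a * |X₀| ≤ N := (Nat.le_ceil _).trans (by exact_mod_cast hN)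
      have h1 := hX (N / a) (by
        rw [le_div_iff₀ (by linarith)]
        have := le_abs_self X₀
        nlinarith)
      have e1 : κ / a * N = κ * (N / a) := by ring
      rw [e1]
      refine h1.trans ?_
      have hNa : (0 : ℝ) ≤ N / a := by positivity
      rw [← Set.ncard_coe_finset]
      apply Nat.cast_le.2
      refine Set.ncard_le_ncard_of_injOn (fun p : ℕ × ℕ => (p.1, a.toNat * p.2)) ?_ ?_
        (pairs_fin N _)
      · intro p hp
        rw [Finset.mem_coe] at hp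
        unfold PR at hp
        rw [mem_filter, mem_product, Finset.mem_Icc, Finset.mem_Icc] at hp
        obtain ⟨⟨⟨h1, h2⟩, h3, h4⟩, t, h5, h6, h7, h8⟩ := hp
        rw [Nat.le_floor_iff hNa, le_div_iff₀ (by linarith)] at h2 h4
        refine ⟨h1, ?_, Nat.mul_pos (by omega) h3, ?_, ⟨a * t, ?_⟩, ?_⟩
        · have h9 : (p.1 : ℝ) ≤ N := by
            refine le_trans ?_ h2
            exact le_mul_of_one_le_right (Nat.cast_nonneg _) haR
          exact_mod_cast h9
        · have h9 : ((a.toNat * p.2 : ℕ) : ℝ) ≤ N := by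
            push_cast
            rw [haNR]
            linarith
          exact_mod_cast h9
        · simp only
          push_cast
          rw [haN]
          unfold fQ at h7
          linear_combination a * h7
        · rw [hP]
          refine ⟨t, h5, ?_, h6, h8⟩
          simp only
          push_cast
          rw [haN, ← h7]
          ring
      · intro p _ q _ hpq
        simp only [Prod.mk.injEq] at hpq
        have h3 : 0 < a.toNat := by omega
        exact Prod.ext hpq.1 (Nat.eq_of_mul_eq_mul_left h3 hpq.2)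
    intro ε hε
    obtain ⟨N₁, hN₁⟩ := Pool.Agent.TH890.DV.upgrade hns hpairs (ε / 2) (by positivity)
    -- comparison of the bounds
    have hlog : Tendsto (fun N : ℕ => Real.log (N : ℝ) ^ (ε / 2)) atTop atTop :=
      (tendsto_rpow_atTop (by positivity)).comp
        (Real.tendsto_log_atTop.comp tendsto_natCast_atTop_atTop)
    have hbig : Tendsto (fun N : ℕ => (N : ℝ) / Real.log N ^ (Real.log 2 + ε)) atTop atTop := by
      have h1 : Tendsto (fun x : ℝ => x / Real.log x ^ (Real.log 2 + ε)) atTop atTop := by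
        have h2 := (isLittleO_log_rpow_rpow_atTop (Real.log 2 + ε)
          (one_pos)).tendsto_div_nhds_zero
        have h3 : Tendsto (fun x : ℝ => Real.log x ^ (Real.log 2 + ε) / x ^ (1 : ℝ)) atTop
            (nhdsWithin 0 (Set.Ioi 0)) := by
          rw [tendsto_nhdsWithin_iff]
          refine ⟨h2, ?_⟩
          filter_upwards [eventually_gt_atTop 1] with x hx
          have h4 : 0 < Real.log x := Real.log_pos hx
          have h5 : 0 < x := by linarith
          exact div_pos (Real.rpow_pos_of_pos h4 _) (Real.rpow_pos_of_pos h5 _)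
        refine h3.inv_tendsto_nhdsGT_zero.congr fun x => ?_
        rw [Pi.inv_apply, inv_div, Real.rpow_one]
      exact h1.comp tendsto_natCast_atTop_atTop
    obtain ⟨N₂, hN₂⟩ := eventually_atTop.1 ((hlog.eventually_ge_atTop 2).and
      ((hbig.eventually_ge_atTop (|(b : ℝ)| + 1)).and (eventually_ge_atTop 3)))
    refine ⟨max N₁ N₂, fun N hN => ?_⟩
    obtain ⟨h1, h2, h3⟩ := hN₂ N ((le_max_right _ _).trans hN)
    have h4 := hN₁ N ((le_max_left _ _).trans hN)
    have hL : 0 < Real.log N := by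
      apply Real.log_pos
      have : (3 : ℝ) ≤ N := by exact_mod_cast h3
      linarith
    have hN0 : (0 : ℝ) < N := by
      have : (3 : ℝ) ≤ N := by exact_mod_cast h3
      linarith
    obtain ⟨S, hS⟩ : ∃ S : Set ℕ, S = {n : ℕ | 1 ≤ n ∧ n ≤ N ∧ ∃ m : ℕ, (n : ℤ) ^ 2 + b * n +
      a * c₀ = m ∧ P m} := ⟨_, rfl⟩
    obtain ⟨T, hT⟩ : ∃ T : Set ℕ, T = {n : ℕ | 1 ≤ n ∧ n ≤ N ∧ ∃ m : ℕ, 1 ≤ m ∧
      (m : ℤ) = a * (n : ℤ) ^ 2 + b * n + c₀ ∧ R m} := ⟨_, rfl⟩
    rw [← hS] at h4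
    rw [← hT]
    have hTfin : T.Finite := by
      rw [hT]
      exact (Set.finite_Icc 1 N).subset fun n hn => ⟨hn.1, hn.2.1⟩
    have hsub : S ⊆ Set.Icc 1 b.natAbs ∪ (fun t : ℕ => a.toNat * t) '' T := by
      intro n hn
      rw [hS] at hn
      obtain ⟨n1, n2, m, hm, hPm⟩ := hn
      rw [hP] at hPm
      obtain ⟨t, t1, t2, t3, t4⟩ := hPm
      have h5 : ((n : ℤ) - a * t) * (n + a * t + b) = 0 := by
        unfold fQ at t2
        linear_combination hm + t2
      rcases mul_eq_zero.1 h5 with h6 | h6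
      · right
        have h7 : n = a.toNat * t := by
          have : (n : ℤ) = ((a.toNat * t : ℕ) : ℤ) := by
            push_cast
            rw [haN]
            linarith
          exact_mod_cast this
        refine ⟨t, ?_, h7.symm⟩
        rw [hT]
        refine ⟨t1, ?_, (fQ a b c₀ t).toNat, by omega, ?_, t4⟩
        · refine le_trans ?_ n2
          rw [h7]
          exact Nat.le_mul_of_pos_left _ (by omega)
        · rw [Int.toNat_of_nonneg t3.le]
          rfl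
      · left
        refine ⟨n1, ?_⟩
        have h7 : 0 ≤ a * (t : ℤ) := by positivity
        omega
    have hcard : (S.ncard : ℝ) ≤ |(b : ℝ)| + T.ncard := by
      have h5 := Set.ncard_le_ncard hsub ((Set.finite_Icc 1 _).union (hTfin.image _))
      have h6 := h5.trans (Set.ncard_union_le _ _)
      have h7 := Set.ncard_image_le (f := fun t : ℕ => a.toNat * t) hTfin
      have h8 : (Set.Icc 1 b.natAbs).ncard = b.natAbs := by
        rw [← Finset.coe_Icc, Set.ncard_coe_finset, Nat.card_Icc]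
        omega
      have h9 : S.ncard ≤ b.natAbs + T.ncard := by omega
      have h10 : ((b.natAbs : ℕ) : ℝ) = |(b : ℝ)| := by
        rw [Nat.cast_natAbs, Int.cast_abs]
      rw [← h10]
      exact_mod_cast h9
    have hpow : Real.log (N : ℝ) ^ (Real.log 2 + ε) =
        Real.log N ^ (Real.log 2 + ε / 2) * Real.log N ^ (ε / 2) := by
      rw [← Real.rpow_add hL]
      congr 1
      ring
    have hp1 : 0 < Real.log (N : ℝ) ^ (Real.log 2 + ε / 2) := Real.rpow_pos_of_pos hL _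
    have hp2 : 0 < Real.log (N : ℝ) ^ (Real.log 2 + ε) := Real.rpow_pos_of_pos hL _
    have h5 : 2 * ((N : ℝ) / Real.log N ^ (Real.log 2 + ε)) ≤
        (N : ℝ) / Real.log N ^ (Real.log 2 + ε / 2) := by
      rw [hpow, mul_div_assoc', div_le_div_iff₀ (by positivity) hp1]
      have h6 := mul_le_mul_of_nonneg_left h1 (mul_pos hN0 hp1).le
      linarith
    linarith

/-- values with a bounded square factor -/
theorem near_sqf {g : ℕ → ℤ} (ha : 0 < a) (hns : ¬ IsSquare (b ^ 2 - 4 * (a * c₀)))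
    (h : S_FIN g a b c₀) {s : ℤ} (hs : s = 1 ∨ s = -1) : ∃ K : ℕ, ∃ κ X₀ : ℝ, 0 < κ ∧
    ∀ X : ℝ, X₀ ≤ X → κ * X ≤
      ((PR (fun m => g m = s ∧ ∀ q : ℕ, q ^ 2 ∣ m → q ≤ K) a b c₀ X).card : ℝ) := by
  classical
  obtain ⟨κ, X₁, hκ, hX⟩ := h s hs
  have haR : (1 : ℝ) ≤ a := by exact_mod_cast ha
  have haN : ((a.toNat : ℕ) : ℤ) = a := Int.toNat_of_nonneg ha.le
  have haNR : ((a.toNat : ℕ) : ℝ) = a := by exact_mod_cast haN
  obtain ⟨K, X₂, hK⟩ := Sqf.sqf hns (show 0 < κ / (4 * a) by positivity)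
  obtain ⟨M, hM⟩ : ∃ M : ℕ, M = (a * b ^ 2 + b ^ 2 + |c₀|).toNat := ⟨_, rfl⟩
  refine ⟨K, κ / 2, max (max 1 X₁) (max X₂ (4 * M ^ 2 / κ)), by positivity, fun X hXX => ?_⟩
  have hX1 : 1 ≤ X := (le_max_left _ _).trans ((le_max_left _ _).trans hXX)
  have hX2 : X₁ ≤ X := (le_max_right _ _).trans ((le_max_left _ _).trans hXX)
  have hX3 : X₂ ≤ X := (le_max_left _ _).trans ((le_max_right _ _).trans hXX)
  have hX4 : 4 * (M : ℝ) ^ 2 / κ ≤ X := (le_max_right _ _).trans ((le_max_right _ _).trans hXX)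
  have hX0 : 0 < X := by linarith
  have h1 := hX X hX2
  have h2 := hK (a * X) (hX3.trans (le_mul_of_one_le_left hX0.le haR))
  have e1 : κ / (4 * a) * (a * X) = κ / 4 * X := by field_simp
  rw [e1] at h2
  set T := (tri b (a * c₀) (a * X) (a * X)).filter (fun e => ∃ q : ℕ, K < q ∧ q ^ 2 ∣ NT e) with hT
  have hsub : PB g a b c₀ s X ⊆
      PR (fun m => g m = s ∧ ∀ q : ℕ, q ^ 2 ∣ m → q ≤ K) a b c₀ X ∪
        ((T.image (fun e => (e.1 / a.toNat, e.2.2))) ∪ (Icc 1 M ×ˢ Icc 1 M)) := by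
    intro p hp
    unfold PB at hp
    rw [mem_filter, mem_product, Finset.mem_Icc, Finset.mem_Icc] at hp
    obtain ⟨⟨⟨p1, p2⟩, p3, p4⟩, t, t1, t2, t3, t4⟩ := hp
    rw [mem_union, mem_union]
    have hval : (fQ a b c₀ t).toNat = p.1 * p.2 := by
      rw [← t3]
      exact_mod_cast Int.toNat_natCast (p.1 * p.2)
    by_cases hq : ∀ q : ℕ, q ^ 2 ∣ (fQ a b c₀ t).toNat → q ≤ K
    · left
      unfold PR
      rw [mem_filter, mem_product, Finset.mem_Icc, Finset.mem_Icc]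
      exact ⟨⟨⟨p1, p2⟩, p3, p4⟩, t, t1, t2, t3, t4, hq⟩
    · right
      push Not at hq
      obtain ⟨q, hq1, hq2⟩ := hq
      by_cases hpos : 0 ≤ 2 * (a * (t : ℤ)) + b
      · left
        rw [mem_image]
        refine ⟨(a.toNat * p.1, a * t, p.2), ?_, ?_⟩
        · rw [hT, mem_filter, mem_tri]
          rw [Nat.le_floor_iff hX0.le] at p2 p4
          refine ⟨⟨?_, ?_, p3, ?_, ?_, hpos⟩, q, hq2, ?_⟩
          · exact Nat.mul_pos (by omega) p1
          · simp only
            push_cast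
            rw [haNR]
            exact mul_le_mul_of_nonneg_left p2 (by linarith)
          · exact p4.trans (le_mul_of_one_le_left hX0.le haR)
          · simp only
            push_cast
            rw [haN]
            unfold LQ.fQ at t3
            unfold Pool.Agent.W78.GT.Qp
            linear_combination a * t3
          · unfold Pool.Agent.W78.GT.NT
            simp only
            rw [hval] at hq1
            rw [mul_assoc]
            exact Dvd.dvd.mul_left hq1 _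
        · simp only
          rw [Nat.mul_div_cancel_left _ (by omega)]
      · right
        have ht : (t : ℤ) < |b| := by
          have h3 := neg_abs_le b
          have h4 : (1 : ℤ) * t ≤ a * t := mul_le_mul_of_nonneg_right (by linarith) (by positivity)
          omega
        have hfle : fQ a b c₀ t ≤ a * b ^ 2 + b ^ 2 + |c₀| := by
          unfold LQ.fQ
          have h3 : (t : ℤ) ^ 2 ≤ b ^ 2 := by
            rw [← sq_abs b]
            exact pow_le_pow_left₀ (by positivity) ht.le 2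
          have h4 : b * (t : ℤ) ≤ b ^ 2 := by
            rw [← sq_abs b]
            have h5 : b * (t : ℤ) ≤ |b| * t := mul_le_mul_of_nonneg_right (le_abs_self b) (by positivity)
            have h6 : |b| * (t : ℤ) ≤ |b| * |b| := mul_le_mul_of_nonneg_left ht.le (abs_nonneg b)
            nlinarith
          have h5 : a * (t : ℤ) ^ 2 ≤ a * b ^ 2 := mul_le_mul_of_nonneg_left h3 ha.le
          have h6 := le_abs_self c₀
          linarith
        have hprod : p.1 * p.2 ≤ M := by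
          rw [← hval, hM]
          exact Int.toNat_le_toNat hfle
        rw [mem_product, Finset.mem_Icc, Finset.mem_Icc]
        exact ⟨⟨p1, (Nat.le_mul_of_pos_right _ p3).trans hprod⟩, p3,
          (Nat.le_mul_of_pos_left _ p1).trans hprod⟩
  have h3 := (card_le_card hsub).trans ((card_union_le _ _).trans
    (Nat.add_le_add_left ((card_union_le _ _).trans (Nat.add_le_add_right card_image_le _)) _))
  rw [card_product, Nat.card_Icc, Nat.add_sub_cancel] at h3
  have h4 : ((PB g a b c₀ s X).card : ℝ) ≤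
      ((PR (fun m => g m = s ∧ ∀ q : ℕ, q ^ 2 ∣ m → q ≤ K) a b c₀ X).card : ℝ) +
        ((T.card : ℝ) + M * M) := by exact_mod_cast h3
  have h5 : (M : ℝ) * M ≤ κ / 4 * X := by
    rw [div_le_iff₀ hκ] at hX4
    nlinarith
  linarith

/-- both signs, with a bounded square factor -/
theorem both_sqf (ha : 0 < a) (hns : ¬ IsSquare (b ^ 2 - 4 * (a * c₀))) : ∃ K : ℕ, ∀ s : ℤ,
    s = 1 ∨ s = -1 → BothR (fun m => lam m = s ∧ ∀ q : ℕ, q ^ 2 ∣ m → q ≤ K) a b c₀ := by
  classical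
  obtain ⟨K₁, κ₁, X₁, hκ₁, h₁⟩ := near_sqf ha hns (fin_all ha hns) (s := 1) (Or.inl rfl)
  obtain ⟨K₂, κ₂, X₂, hκ₂, h₂⟩ := near_sqf ha hns (fin_all ha hns) (s := -1) (Or.inr rfl)
  have hmono : ∀ (K K' : ℕ) (s : ℤ) (X : ℝ), K ≤ K' →
      ((PR (fun m => lam m = s ∧ ∀ q : ℕ, q ^ 2 ∣ m → q ≤ K) a b c₀ X).card : ℝ) ≤
      ((PR (fun m => lam m = s ∧ ∀ q : ℕ, q ^ 2 ∣ m → q ≤ K') a b c₀ X).card : ℝ) := by
    intro K K' s X hKK
    apply Nat.cast_le.2
    apply card_le_card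
    unfold PR
    intro p hp
    rw [mem_filter] at hp ⊢
    obtain ⟨hp1, t, t1, t2, t3, t4, t5⟩ := hp
    exact ⟨hp1, t, t1, t2, t3, t4, fun q hq => (t5 q hq).trans hKK⟩
  refine ⟨max K₁ K₂, fun s hs => bothR_of ha hns ?_⟩
  rcases hs with rfl | rfl
  · exact ⟨κ₁, X₁, hκ₁, fun X hX => (h₁ X hX).trans (hmono _ _ _ _ (le_max_left _ _))⟩
  · exact ⟨κ₂, X₂, hκ₂, fun X hX => (h₂ X hX).trans (hmono _ _ _ _ (le_max_right _ _))⟩

end Pool.Agent.K9h53.LN
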