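import Pool.Agent.K9h53.LN.TriAll
import Pool.Agent.K9h53.LN.Cases

/-!
Project LN (helper53): the Liouville function takes both signs at the values of an arbitrary
quadratic polynomial of nonsquare discriminant.
-/

set_option autoImplicit false

namespace Pool.Agent.K9h53.LN

open Finset Filter
open Pool.Agent.W78
open Pool.Agent.H376R2.MR (lam)
open Pool.Agent.K9h53.LQ (Ch SplOne S_TRI S_FIN)

variable {a b c₀ : ℤ}

theorem fin_all (ha : 0 < a) (hns : ¬ IsSquare (b ^ 2 - 4 * (a * c₀))) : S_FIN lam a b c₀ := by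
  rcases lt_trichotomy (b ^ 2 - 4 * (a * c₀)) 0 with h | h | h
  · exact fin_of GS.pm_lam ha h.ne hns fun _ hχ hs => tri_all ha h hχ hs
  · exact absurd ⟨0, by rw [h, mul_zero]⟩ hns
  · exact LQ.fin_all ha h hns

end Pool.Agent.K9h53.LN
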