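import Pool.Agent.W78.GS.All
import Pool.Agent.K9h53.LN.A
import Pool.Agent.K9h53.LN.Dec
import Pool.Agent.K9h53.LN.MomF
import Pool.Agent.K9h53.LN.Celle
import Pool.Agent.K9h53.LN.EleX

/-!
Project LN (helper53): the Matomaki-Radziwill theorem for `g (N z) χ (z.re)`, imaginary quadratic
orders.
-/

set_option autoImplicit false

namespace Pool.Agent.K9h53.LN

open Finset Filter
open Pool.Agent.W78
open Pool.Agent.W78.GA (Qd nm prim bg dt ip lat NN cellM mE Sm)
open Pool.Agent.W78.GS (Pm)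
open Pool.Agent.K9h53.LQ (Gt Ch SplOne)

variable {g : ℕ → ℤ} {χ : ℤ → ℤ} {t c a : ℤ} {e : ℕ}

theorem mr_gt (hg : Pm g) (hD : t ^ 2 < 4 * c) (hχ : Ch a χ) (ha : 0 < a) (hac : a ∣ c)
    (hs : SplOne (t ^ 2 - 4 * c) a χ) (he : χ (-1) = (-1) ^ e) :
    S_MR (Gt (t := t) (c := c) g χ) := by
  have hang1 : GA.S_ANG1 t c := Pool.Agent.W327.GA.ang1 hD
  have hlat : GA.S_LAT t c := Pool.Agent.W45.GA.lat hD
  have hred : GA.S_RED t c := Pool.Agent.W322.GA.red hD
  have hlati : GA.S_LATI t c := Pool.Agent.W322.GA.lati_of hD hlat hred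
  have hls : GA.S_LS t c := Pool.Agent.W327.GA.ls hD
  have hang : GA.S_ANG t c := Pool.Agent.W397.GA.ang_of hang1 (Pool.Agent.W397.GA.ang2 hD)
  have hangi : GA.S_ANGI t c := Pool.Agent.W322.GA.angi_of hD hang hred
  have hmach : GA.S_MACH := Pool.Agent.W586.GA.mach_of Pool.Agent.W240.GA.leva
    Pool.Agent.W240.GA.levb Pool.Agent.W397.GA.s_cnt Pool.Agent.W586.GA.upart
  have hT : Tw (Gt (t := t) (c := c) g χ) e := tw_gt hg hD hχ hac he
  exact mr_of hT hD hmach (sele_of hg hχ ha hs (Pool.Agent.W573.GA.ele hD))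
    (dec_of hT hD hlat hlati (Pool.Agent.W999.GA.tk_of hD hlat hlati))
    (mom0_of hT hD hls hlat) (momp_of hT hD hls)
    (mom_of hT hD hls hlat hlati)
    (Pool.Agent.W191.GA.sparse_of hD hang hlat) hls
    (celle_of hT hD
      (Pool.Agent.W194.GA.sele_of hD hangi hlat (Pool.Agent.W109.GA.selb hD))) hlat

end Pool.Agent.K9h53.LN
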