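import Pool.Agent.K9h53.LN.Stm
import Pool.Agent.K9h53.LQ.NearP
import Pool.Agent.W803.GA.Pair
import Pool.Agent.W78.GA.SC

/-!
Project LN (helper53): many pairs of close directions with different values of `g` and the same
nonzero value of `χ`, imaginary quadratic orders.
-/

set_option autoImplicit false

namespace Pool.Agent.K9h53.LN

open Finset Filter
open Pool.Agent.H376R2.MR (FK Fj Fj_le Fj_le_sq Fj_nonneg)
open Pool.Agent.W78.GA hiding GG PE sedge S_PAIR S_BETW gl_mul S_U0 S_A0 S_MR S_ELE S_DEC S_MOM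
  S_MOM0 S_MOMP S_CELLE
open Pool.Agent.W78.GS (Pm)
open Pool.Agent.W803.GA (rd rd_eq abs_rd_le Fj_rd geom_half geom_quarter pt_bound ang_mul sqrt_disc)
open Pool.Agent.W78.GA (bg_nonneg bg_le)
open Pool.Agent.K9h53.LQ (Gt Ch SplOne FK_mono Hf PP)

variable {g : ℕ → ℤ} {χ : ℤ → ℤ} {t c a : ℤ}

lemma one_ne (t c : ℤ) : (1 : Qd t c) ≠ 0 := by
  intro h
  have := congrArg QuadraticAlgebra.re h
  rw [QuadraticAlgebra.re_one, QuadraticAlgebra.re_zero] at this
  norm_num at this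

/-- far pairs -/
lemma far_bound (hD : t ^ 2 < 4 * c) (hS : S_SECT t c) (hL : S_LAT t c) :
    ∃ Cf : ℝ, 0 < Cf ∧ ∀ (u : Qd t c), u ≠ 0 → ∀ (X T : ℝ) (K : ℕ), 1 ≤ X → 1 ≤ T → 1 ≤ K →
    2 * T ≤ K → ∀ P : Qd t c → Qd t c → Prop, (open scoped Classical in
    ∑ z ∈ pball t c X, ∑ z' ∈ pball t c X,
      (if P z z' then Fj K (ang z - ang (u * z')) else 0) ≤
      K * (((pball t c X ×ˢ pball t c X).filter (fun p => P p.1 p.2 ∧
        |rd (ang p.1 - ang (u * p.2))| ≤ T / K)).card : ℝ) +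
        Cf * (X ^ 2 / T + X * K / T ^ 2)) := by
  classical
  obtain ⟨C, hC, hS⟩ := hS
  obtain ⟨CL, hCL, hL, -⟩ := hL
  have hpi := Real.pi_pos
  have hkap : 0 < kap t c := by
    unfold kap
    have := sqrt_disc hD
    positivity
  refine ⟨(kap t c + CL) * (8 * C * Real.pi ^ 2), by positivity, ?_⟩
  intro u hu X T K hX hT hK hTK P
  have hX0 : 0 < X := by linarith
  have hT0 : 0 < T := by linarith
  have hKR : (1 : ℝ) ≤ K := by exact_mod_cast hK
  have hK0 : (0 : ℝ) < K := by linarith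
  set r : Qd t c → Qd t c → ℝ := fun z z' => rd (ang z - ang (u * z')) with hr
  -- pointwise bound
  have hpt : ∀ z ∈ pball t c X, ∀ z' ∈ pball t c X,
      (if P z z' then Fj K (ang z - ang (u * z')) else 0) ≤
      (if P z z' ∧ |r z z'| ≤ T / K then (K : ℝ) else 0) +
      ∑ j ∈ range (K + 2), (if |r z z'| ≤ 2 ^ (j + 1) * T / K then
        Real.pi ^ 2 * K / (T ^ 2) * (1 / 4) ^ j else 0) := by
    intro z _ z' _
    have h1 := pt_bound hK hT (abs_rd_le (ang z - ang (u * z')))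
    have h2 : 0 ≤ ∑ j ∈ range (K + 2), (if |r z z'| ≤ 2 ^ (j + 1) * T / K then
        Real.pi ^ 2 * K / (T ^ 2) * (1 / 4) ^ j else 0) := by
      apply Finset.sum_nonneg
      intro j _
      split_ifs
      · positivity
      · exact le_rfl
    by_cases hg : P z z'
    · rw [if_pos hg, Fj_rd]
      refine h1.trans ?_
      apply add_le_add _ le_rfl
      by_cases hn : |rd (ang z - ang (u * z'))| ≤ T / K
      · rw [if_pos hn, if_pos ⟨hg, hn⟩]
      · rw [if_neg hn]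
        split_ifs
        · positivity
        · exact le_rfl
    · rw [if_neg hg]
      have : 0 ≤ (if P z z' ∧ |r z z'| ≤ T / K then (K : ℝ) else 0) := by
        split_ifs
        · positivity
        · exact le_rfl
      linarith
  -- near pairs
  have hnear : ∑ z ∈ pball t c X, ∑ z' ∈ pball t c X,
      (if P z z' ∧ |r z z'| ≤ T / K then (K : ℝ) else 0) =
      K * (((pball t c X ×ˢ pball t c X).filter (fun p => P p.1 p.2 ∧
        |rd (ang p.1 - ang (u * p.2))| ≤ T / K)).card : ℝ) := by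
    rw [← Finset.sum_product', ← Finset.sum_filter, Finset.sum_const, nsmul_eq_mul, mul_comm]
  -- far pairs
  have hfar : ∑ z ∈ pball t c X, ∑ z' ∈ pball t c X,
      ∑ j ∈ range (K + 2), (if |r z z'| ≤ 2 ^ (j + 1) * T / K then
        Real.pi ^ 2 * K / (T ^ 2) * (1 / 4) ^ j else 0) ≤
      (kap t c + CL) * (8 * C * Real.pi ^ 2) * (X ^ 2 / T + X * K / T ^ 2) := by
    have hone : ∀ z ∈ pball t c X, ∑ z' ∈ pball t c X,
        ∑ j ∈ range (K + 2), (if |r z z'| ≤ 2 ^ (j + 1) * T / K then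
          Real.pi ^ 2 * K / (T ^ 2) * (1 / 4) ^ j else 0) ≤
        8 * C * Real.pi ^ 2 * (X / T + K / T ^ 2) := by
      intro z _
      rw [Finset.sum_comm]
      have hj : ∀ j ∈ range (K + 2), ∑ z' ∈ pball t c X, (if |r z z'| ≤ 2 ^ (j + 1) * T / K then
          Real.pi ^ 2 * K / (T ^ 2) * (1 / 4) ^ j else 0) ≤
          2 * C * Real.pi ^ 2 * X / T * (1 / 2) ^ j + C * Real.pi ^ 2 * K / T ^ 2 * (1 / 4) ^ j := by
        intro j _
        rw [← Finset.sum_filter, Finset.sum_const, nsmul_eq_mul]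
        set δ := min Real.pi (2 ^ (j + 1) * T / K) with hδd
        have hδ0 : 0 ≤ δ := le_min hpi.le (by positivity)
        have hsub : (pball t c X).filter (fun z' => |r z z'| ≤ 2 ^ (j + 1) * T / K) ⊆
            (pball t c X).filter (fun z' => ∃ m : ℤ,
              |ang z' - (ang z - ang u) + 2 * Real.pi * m| ≤ δ) := by
          intro z' hz'
          rw [mem_filter] at hz' ⊢
          refine ⟨hz'.1, ?_⟩
          have hz2 : z' ≠ 0 := pball_ne hD hz'.1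
          obtain ⟨j1, hj1⟩ := ang_mul hD hu hz2
          obtain ⟨m, hm⟩ := rd_eq (ang z - ang (u * z'))
          refine ⟨-m + j1, ?_⟩
          have e1 : ang z' - (ang z - ang u) +
              2 * Real.pi * ((-m + j1 : ℤ) : ℝ) = -(r z z') := by
            rw [hr]
            simp only
            rw [hm]
            push_cast
            linarith
          rw [e1, abs_neg]
          exact le_min (abs_rd_le _) hz'.2
        have h1 : (((pball t c X).filter (fun z' => |r z z'| ≤ 2 ^ (j + 1) * T / K)).card : ℝ) ≤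
            C * (X * (2 ^ (j + 1) * T / K) + 1) := by
          have h2 := hS X δ (ang z - ang u) hX hδ0 (min_le_left _ _)
          have h3 : (((pball t c X).filter (fun z' => |r z z'| ≤ 2 ^ (j + 1) * T / K)).card : ℝ) ≤
              (((pball t c X).filter (fun z' => ∃ m : ℤ,
                |ang z' - (ang z - ang u) + 2 * Real.pi * m| ≤ δ)).card : ℝ) := by
            exact_mod_cast Finset.card_le_card hsub
          have h4 : C * (X * δ + 1) ≤ C * (X * (2 ^ (j + 1) * T / K) + 1) := by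
            apply mul_le_mul_of_nonneg_left _ hC.le
            have := mul_le_mul_of_nonneg_left (min_le_right Real.pi (2 ^ (j + 1) * T / K)) hX0.le
            linarith
          exact h3.trans (h2.trans h4)
        calc _ ≤ C * (X * (2 ^ (j + 1) * T / K) + 1) * (Real.pi ^ 2 * K / T ^ 2 * (1 / 4) ^ j) :=
              mul_le_mul_of_nonneg_right h1 (by positivity)
          _ = 2 * C * Real.pi ^ 2 * X / T * (1 / 2) ^ j +
              C * Real.pi ^ 2 * K / T ^ 2 * (1 / 4) ^ j := by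
              have e1 : (2 : ℝ) ^ (j + 1) * (1 / 4) ^ j = 2 * (1 / 2) ^ j := by
                rw [pow_succ, mul_comm ((2 : ℝ) ^ j) 2, mul_assoc, ← mul_pow]; norm_num
              have e2 : C * (X * (2 ^ (j + 1) * T / K) + 1) *
                  (Real.pi ^ 2 * K / T ^ 2 * (1 / 4) ^ j) =
                  C * X * Real.pi ^ 2 / T * (2 ^ (j + 1) * (1 / 4) ^ j) +
                    C * Real.pi ^ 2 * K / T ^ 2 * (1 / 4) ^ j := by
                field_simp
              rw [e2, e1]; ring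
      refine (Finset.sum_le_sum hj).trans ?_
      rw [Finset.sum_add_distrib, ← Finset.mul_sum, ← Finset.mul_sum]
      have g1 := mul_le_mul_of_nonneg_left (geom_half (K + 2))
        (by positivity : 0 ≤ 2 * C * Real.pi ^ 2 * X / T)
      have g2 := mul_le_mul_of_nonneg_left (geom_quarter (K + 2))
        (by positivity : 0 ≤ C * Real.pi ^ 2 * K / T ^ 2)
      have g3 : 0 ≤ C * Real.pi ^ 2 * X / T := by positivity
      have g4 : 0 ≤ C * Real.pi ^ 2 * K / T ^ 2 := by positivity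
      calc _ ≤ 2 * C * Real.pi ^ 2 * X / T * 2 + C * Real.pi ^ 2 * K / T ^ 2 * 2 :=
            add_le_add g1 g2
        _ = 4 * (C * Real.pi ^ 2 * X / T) + 2 * (C * Real.pi ^ 2 * K / T ^ 2) := by ring
        _ ≤ 8 * (C * Real.pi ^ 2 * X / T) + 8 * (C * Real.pi ^ 2 * K / T ^ 2) := by linarith
        _ = 8 * C * Real.pi ^ 2 * (X / T + K / T ^ 2) := by ring
    refine (Finset.sum_le_sum hone).trans ?_
    rw [Finset.sum_const, nsmul_eq_mul]
    have hcard : ((pball t c X).card : ℝ) ≤ (kap t c + CL) * X := by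
      have h1 : ((pball t c X).card : ℝ) ≤ ((ball t c X).card : ℝ) := by
        exact_mod_cast Finset.card_le_card (Finset.filter_subset _ _)
      have hL1 := hL X 1 0 hX le_rfl
      rw [filter_true_of_mem (by intro z _; unfold lat; simp)] at hL1
      have h2 := (abs_le.1 hL1).2
      rw [Nat.cast_one, div_one] at h2
      have h3 : Real.sqrt X ≤ X := by
        rw [Real.sqrt_le_left hX0.le]
        nlinarith
      have h4 := mul_le_mul_of_nonneg_left h3 hCL.le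
      linarith
    calc ((pball t c X).card : ℝ) * (8 * C * Real.pi ^ 2 * (X / T + K / T ^ 2))
        ≤ (kap t c + CL) * X * (8 * C * Real.pi ^ 2 * (X / T + K / T ^ 2)) :=
          mul_le_mul_of_nonneg_right hcard (by positivity)
      _ = (kap t c + CL) * (8 * C * Real.pi ^ 2) * (X ^ 2 / T + X * K / T ^ 2) := by ring
  refine (Finset.sum_le_sum fun z hz => Finset.sum_le_sum fun z' hz' => hpt z hz z' hz').trans ?_
  simp only [Finset.sum_add_distrib] at hnear hfar ⊢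
  linarith

lemma dsum_GG (hD : t ^ 2 < 4 * c) (f : Qd t c → ℤ) (Y : ℝ) {u : Qd t c} (hu : u ≠ 0) (K : ℕ) :
    ∑ z ∈ pball t c (Real.exp 1 * Y), ∑ z' ∈ pball t c (Real.exp 1 * Y),
      bg Y z * bg Y z' * ((f z : ℝ) * (f z' : ℝ)) * Fj K (ang z - ang (u * z')) =
    ∑ k ∈ FK K, (1 - |(k : ℝ)| / K) * ((ps k u).re * ‖GG f Y k‖ ^ 2) := by
  set s := pball t c (Real.exp 1 * Y) with hs
  have hs0 : ∀ z ∈ s, z ≠ 0 := fun z hz => pball_ne hD hz
  have h1 := dsum_eq hD s hs0 (fun z => (f z : ℝ) * bg Y z) (fun z => (f z : ℝ) * bg Y z) hu K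
  have h2 : ∑ z ∈ s, ∑ z' ∈ s,
      bg Y z * bg Y z' * ((f z : ℝ) * (f z' : ℝ)) * Fj K (ang z - ang (u * z')) =
      ∑ z ∈ s, ∑ z' ∈ s, ((f z : ℝ) * bg Y z) * ((f z' : ℝ) * bg Y z') *
        Fj K (ang z - ang (u * z')) := by
    refine sum_congr rfl fun z hz => ?_
    refine sum_congr rfl fun z' hz' => ?_
    ring
  rw [h2, h1]
  refine sum_congr rfl fun k _ => ?_
  have h4 : ∀ D : ℂ, (D * (starRingEnd ℂ) D * (starRingEnd ℂ) (ps k u)).re =
      (ps k u).re * ‖D‖ ^ 2 := by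
    intro D
    rw [Complex.mul_conj, Complex.normSq_eq_norm_sq, Complex.re_ofReal_mul, Complex.conj_re]
    ring
  have h5 : DPG s (fun z => (((f z : ℝ) * bg Y z : ℝ) : ℂ)) k = GG f Y k := by
    unfold GG
    congr 1
    funext z
    push_cast
    rfl
  rw [h4, h5]

lemma low2 {A B : ℤ → ℝ} (hA : ∀ k, 0 ≤ A k) (hB : ∀ k, 0 ≤ B k) {u₀ : Qd t c} {K : ℕ}
    (hKpos : (0 : ℝ) < K) :
    2 * A 0 ≤ ∑ k ∈ FK K, (1 - |(k : ℝ)| / K) * ((ps k (1 : Qd t c)).re * (A k - B k)) +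
      ∑ k ∈ FK K, (1 - |(k : ℝ)| / K) * ((ps k u₀).re * (A k + B k)) +
      2 * ∑ k ∈ (FK K).erase 0, B k := by
  have hKn : 1 ≤ K := by exact_mod_cast hKpos
  rw [← sum_add_distrib]
  have h0 : (0 : ℤ) ∈ FK K := by
    rw [FK, Finset.mem_Ioo]
    omega
  rw [← Finset.add_sum_erase _ _ h0, mul_sum, add_assoc, ← sum_add_distrib]
  have h1 : (1 - |((0 : ℤ) : ℝ)| / K) * ((ps 0 (1 : Qd t c)).re * (A 0 - B 0)) +
    (1 - |((0 : ℤ) : ℝ)| / K) * ((ps 0 u₀).re * (A 0 + B 0)) = 2 * A 0 := by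
    rw [ps_zero, ps_zero]
    simp
    ring
  rw [h1]
  refine le_add_of_nonneg_right (sum_nonneg fun k hk => ?_)
  rw [mem_erase, FK, Finset.mem_Ioo] at hk
  have hw0 : 0 ≤ 1 - |(k : ℝ)| / K := by
    rw [sub_nonneg, div_le_one hKpos]
    rw [abs_le]
    constructor
    · have : ((-(K : ℤ) : ℤ) : ℝ) < (k : ℝ) := by exact_mod_cast hk.2.1
      push_cast at this
      linarith
    · have : (k : ℝ) < ((K : ℤ) : ℝ) := by exact_mod_cast hk.2.2
      push_cast at this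
      linarith
  have hw1 : 1 - |(k : ℝ)| / K ≤ 1 := by
    have : 0 ≤ |(k : ℝ)| / K := by positivity
    linarith
  have hps1 : ps k (1 : Qd t c) = 1 := by
    have := ps_natCast (t := t) (c := c) (n := 1) one_pos k
    simpa using this
  have hc1 : (ps k u₀).re ≤ 1 := by
    have := (Complex.abs_re_le_norm (ps k u₀)).trans (norm_ps_le _ k)
    exact (abs_le.1 this).2
  have hc2 : -1 ≤ (ps k u₀).re := by
    have := (Complex.abs_re_le_norm (ps k u₀)).trans (norm_ps_le _ k)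
    exact (abs_le.1 this).1
  rw [hps1, Complex.one_re]
  set γ := (ps k u₀).re
  set W := 1 - |(k : ℝ)| / K
  have hAk := hA k
  have hBk := hB k
  have e : W * (1 * (A k - B k)) + W * (γ * (A k + B k)) + 2 * B k =
      W * (1 + γ) * A k + (W * (1 + γ) + 2 * (1 - W)) * B k := by
    ring
  rw [e]
  have : 0 ≤ W * (1 + γ) := mul_nonneg hw0 (by linarith)
  have : 0 ≤ W * (1 + γ) + 2 * (1 - W) := by linarith
  positivity

open scoped Classical in
lemma pt_value (hg : Pm g) (hχ : Ch a χ) (hD : t ^ 2 < 4 * c) {u z z' : Qd t c} (hu : u ≠ 0) (hz' : z' ≠ 0) :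
    ((χ z.re : ℝ) ^ 2 * (χ z'.re : ℝ) ^ 2 + (χ z.re : ℝ) * χ z'.re) -
      (g (nm u) : ℝ) * (((g (nm z) : ℝ) * (χ z.re : ℝ) ^ 2) * ((g (nm z') : ℝ) * (χ z'.re : ℝ) ^ 2) +
        ((g (nm z) : ℝ) * χ z.re) * ((g (nm z') : ℝ) * χ z'.re)) =
      if PP g χ u z z' then 4 else 0 := by
  have h1 : g (nm (u * z')) = g (nm u) * g (nm z') :=
    hg.nm_mul (nm_pos hD hu).ne' (nm_pos hD hz').ne'
  have h1' : (g (nm (u * z')) : ℝ) = g (nm u) * g (nm z') := by exact_mod_cast h1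
  have e : ((χ z.re : ℝ) ^ 2 * (χ z'.re : ℝ) ^ 2 + (χ z.re : ℝ) * χ z'.re) -
      (g (nm u) : ℝ) * (((g (nm z) : ℝ) * (χ z.re : ℝ) ^ 2) * ((g (nm z') : ℝ) * (χ z'.re : ℝ) ^ 2) +
        ((g (nm z) : ℝ) * χ z.re) * ((g (nm z') : ℝ) * χ z'.re)) =
      ((χ z.re : ℝ) * χ z'.re) * ((χ z.re : ℝ) * χ z'.re + 1) *
        (1 - (g (nm z) : ℝ) * g (nm (u * z'))) := by
    rw [h1']; ring
  rw [e]
  unfold PP
  have k1 := hg.val (nm z)
  have k2 := hg.val (nm (u * z'))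
  have k3 := hχ.val z.re
  have k4 := hχ.val z'.re
  rcases k1 with k1 | k1 <;> rcases k2 with k2 | k2 <;> rcases k3 with k3 | k3 | k3 <;>
    rcases k4 with k4 | k4 | k4 <;> rw [k1, k2, k3, k4] <;> norm_num

/-- the sum over the pairs -/
lemma pair_sum (hg : Pm g) (hχ : Ch a χ) (hD : t ^ 2 < 4 * c) (Y : ℝ) {u : Qd t c} (hu : u ≠ 0) (K : ℕ) :
    ∑ k ∈ FK K, (1 - |(k : ℝ)| / K) * ((ps k u).re *
      ((‖GG (Hf (t := t) (c := c) (fun x => χ x ^ 2)) Y k‖ ^ 2 +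
        ‖GG (Hf (t := t) (c := c) χ) Y k‖ ^ 2) -
      (g (nm u) : ℝ) * (‖GG (Gt (t := t) (c := c) g (fun x => χ x ^ 2)) Y k‖ ^ 2 +
        ‖GG (Gt (t := t) (c := c) g χ) Y k‖ ^ 2))) =
    (open scoped Classical in
    ∑ z ∈ pball t c (Real.exp 1 * Y), ∑ z' ∈ pball t c (Real.exp 1 * Y),
      bg Y z * bg Y z' * (if PP g χ u z z' then 4 else 0) * Fj K (ang z - ang (u * z'))) := by
  classical
  have h1 := dsum_GG hD (Hf (t := t) (c := c) (fun x => χ x ^ 2)) Y hu K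
  have h2 := dsum_GG hD (Hf (t := t) (c := c) χ) Y hu K
  have h3 := dsum_GG hD (Gt (t := t) (c := c) g (fun x => χ x ^ 2)) Y hu K
  have h4 := dsum_GG hD (Gt (t := t) (c := c) g χ) Y hu K
  set s := pball t c (Real.exp 1 * Y) with hs
  have hL : ∑ k ∈ FK K, (1 - |(k : ℝ)| / K) * ((ps k u).re *
      ((‖GG (Hf (t := t) (c := c) (fun x => χ x ^ 2)) Y k‖ ^ 2 +
        ‖GG (Hf (t := t) (c := c) χ) Y k‖ ^ 2) -
      (g (nm u) : ℝ) * (‖GG (Gt (t := t) (c := c) g (fun x => χ x ^ 2)) Y k‖ ^ 2 +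
        ‖GG (Gt (t := t) (c := c) g χ) Y k‖ ^ 2))) =
    (∑ k ∈ FK K, (1 - |(k : ℝ)| / K) * ((ps k u).re *
      ‖GG (Hf (t := t) (c := c) (fun x => χ x ^ 2)) Y k‖ ^ 2) +
    ∑ k ∈ FK K, (1 - |(k : ℝ)| / K) * ((ps k u).re *
      ‖GG (Hf (t := t) (c := c) χ) Y k‖ ^ 2)) -
    (g (nm u) : ℝ) * (∑ k ∈ FK K, (1 - |(k : ℝ)| / K) * ((ps k u).re *
      ‖GG (Gt (t := t) (c := c) g (fun x => χ x ^ 2)) Y k‖ ^ 2) +
    ∑ k ∈ FK K, (1 - |(k : ℝ)| / K) * ((ps k u).re *
      ‖GG (Gt (t := t) (c := c) g χ) Y k‖ ^ 2)) := by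
    rw [← sum_add_distrib, ← sum_add_distrib, mul_sum, ← sum_sub_distrib]
    refine sum_congr rfl fun k _ => ?_
    ring
  rw [hL, ← h1, ← h2, ← h3, ← h4, ← sum_add_distrib, ← sum_add_distrib, mul_sum,
    ← sum_sub_distrib]
  refine sum_congr rfl fun z hz => ?_
  rw [← sum_add_distrib, ← sum_add_distrib, mul_sum, ← sum_sub_distrib]
  refine sum_congr rfl fun z' hz' => ?_
  rw [← pt_value hg hχ hD hu (pball_ne hD hz')]
  unfold Hf Gt
  push_cast
  ring

lemma GG_at_zero (f : Qd t c → ℤ) (Y : ℝ) :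
    GG f Y 0 = ((∑ z ∈ pball t c (Real.exp 1 * Y), (f z : ℝ) * bg Y z : ℝ) : ℂ) := by
  unfold GG DPG
  push_cast
  refine sum_congr rfl fun z _ => ?_
  rw [ps_zero, mul_one]

theorem near_of (hg : Pm g) (hD : t ^ 2 < 4 * c) (hχ : Ch a χ)
    (hmr1 : S_MR (Gt (t := t) (c := c) g (fun x => χ x ^ 2)))
    (hmr2 : S_MR (Gt (t := t) (c := c) g χ)) (hA0 : S_A0 t c a) (hS : S_SECT t c)
    (hL : S_LAT t c) {u₀ : Qd t c} (hu₀ : u₀ ≠ 0) (hgu : g (nm u₀) = -1) (hχu : χ u₀.re = 1)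
    (hdv : ∀ n : ℕ, n ∣ nm u₀ → χ n = 1) : S_NEAR g χ t c := by
  classical
  obtain ⟨Cf, hCf, hfar⟩ := far_bound hD hS hL
  obtain ⟨c₁, hc₁, C, hC, XA, hXA⟩ := hA0
  obtain ⟨h₁, hh₁, Y₁, hmr1⟩ := hmr1 (c₁ ^ 2 / 8) (by positivity)
  obtain ⟨h₂, hh₂, Y₂, hmr2⟩ := hmr2 (c₁ ^ 2 / 8) (by positivity)
  obtain ⟨h, hh⟩ : ∃ h : ℝ, h = max h₁ h₂ := ⟨_, rfl⟩
  have hh1 : 1 ≤ h := by rw [hh]; exact hh₁.trans (le_max_left _ _)
  have hhp : 0 < h := by linarith
  obtain ⟨T, hT⟩ : ∃ T : ℝ, T = 32 * Real.exp 1 ^ 4 * Cf / c₁ ^ 2 + 1 := ⟨_, rfl⟩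
  have he1 : (0 : ℝ) < Real.exp 1 := Real.exp_pos 1
  have he : 1 ≤ Real.exp 1 := Real.one_le_exp (by norm_num)
  have hT1 : 1 ≤ T := by
    rw [hT]
    have : 0 ≤ 32 * Real.exp 1 ^ 4 * Cf / c₁ ^ 2 := by positivity
    linarith
  have hTp : 0 < T := by linarith
  have hCp : 0 < C := by linarith
  refine ⟨u₀, 2 * h * T * C * Real.exp 1, c₁ ^ 2 / (8 * Real.exp 1 ^ 3 * C),
    Real.exp 1 * |XA| + Real.exp 1 * C * (|Y₁| + |Y₂| + 4 * h * T + 1), hu₀, hχu, hdv,
    by positivity, by positivity, fun Xo hXo => ?_⟩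
  have h4hT : 0 < 4 * h * T := by positivity
  have hXo0 : 0 < Xo := by
    have h1 : 0 ≤ Real.exp 1 * |XA| := by positivity
    have h2 : 0 < Real.exp 1 * C * (|Y₁| + |Y₂| + 4 * h * T + 1) := by positivity
    linarith
  obtain ⟨Y, hY1, hY2, hY3⟩ := hXA (Xo / Real.exp 1) (by
    rw [le_div_iff₀ he1]
    have h2 : 0 ≤ Real.exp 1 * C * (|Y₁| + |Y₂| + 4 * h * T + 1) := by positivity
    have h3 : XA * Real.exp 1 ≤ Real.exp 1 * |XA| := by
      rw [mul_comm]
      exact mul_le_mul_of_nonneg_left (le_abs_self _) he1.le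
    linarith)
  have hYbig : |Y₁| + |Y₂| + 4 * h * T + 1 ≤ Y := by
    refine le_trans ?_ hY1
    rw [div_div, le_div_iff₀ (by positivity)]
    have h1 : 0 ≤ Real.exp 1 * |XA| := by positivity
    linarith
  have hab1 := abs_nonneg Y₁
  have hab2 := abs_nonneg Y₂
  have hYY1 : Y₁ ≤ Y := by
    have := le_abs_self Y₁
    linarith
  have hYY2 : Y₂ ≤ Y := by
    have := le_abs_self Y₂
    linarith
  have hY4 : 4 * h * T ≤ Y := by linarith
  have hYpos : 0 < Y := by linarith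
  obtain ⟨K, hK⟩ : ∃ K : ℕ, K = ⌊Y / h⌋₊ := ⟨_, rfl⟩
  have hYh : 4 * T ≤ Y / h := by
    rw [le_div_iff₀ hhp]; linarith
  have hK1 : (K : ℝ) ≤ Y / h := by rw [hK]; exact Nat.floor_le (by positivity)
  have hK2 : Y / h - 1 < K := by rw [hK]; exact Nat.sub_one_lt_floor _
  have hK3 : Y / (2 * h) ≤ K := by
    have : Y / (2 * h) = (Y / h) / 2 := by field_simp
    rw [this]
    linarith
  have hK4 : 2 * T ≤ K := by linarith
  have hKpos : (0 : ℝ) < K := by linarith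
  have hKn : 1 ≤ K := by exact_mod_cast hKpos
  have hKY : (K : ℝ) ≤ Y := hK1.trans (div_le_self hYpos.le hh1)
  obtain ⟨X, hX⟩ : ∃ X : ℝ, X = Real.exp 1 * Y := ⟨_, rfl⟩
  have hYX : Y ≤ X := by rw [hX]; nlinarith
  have hX1 : 1 ≤ X := by linarith
  have hXXo : X ≤ Xo := by
    rw [hX]
    rw [le_div_iff₀ he1] at hY2
    linarith
  -- the near pairs
  have hnear : ∀ u : Qd t c, (((pball t c X ×ˢ pball t c X).filter (fun p => PP g χ u p.1 p.2 ∧
        |rd (ang p.1 - ang (u * p.2))| ≤ T / K)).card : ℝ) ≤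
      ((near g χ u (2 * h * T * C * Real.exp 1 / Xo) Xo).card : ℝ) := by
    intro u
    apply Nat.cast_le.2
    apply card_le_card
    rintro ⟨z, z'⟩ hp
    rw [mem_filter, mem_product] at hp
    obtain ⟨⟨hz, hz'⟩, hP, hr⟩ := hp
    simp only at hz hz' hP hr
    unfold near
    rw [mem_filter, mem_product]
    have hmono : ∀ w, w ∈ pball t c X → w ∈ pball t c Xo := by
      intro w hw
      rw [mem_pball hD] at hw ⊢
      exact ⟨hw.1, hw.2.trans hXXo⟩
    obtain ⟨m, hm⟩ := rd_eq (ang z - ang (u * z'))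
    refine ⟨⟨hmono z hz, hmono z' hz'⟩, hP.1, hP.2.1, hP.2.2, m, ?_⟩
    simp only
    rw [← hm]
    refine hr.trans ?_
    calc T / K ≤ T / (Y / (2 * h)) := div_le_div_of_nonneg_left hTp.le (by positivity) hK3
      _ = 2 * h * T / Y := by field_simp
      _ ≤ 2 * h * T / (Xo / Real.exp 1 / C) :=
          div_le_div_of_nonneg_left (by positivity) (by positivity) hY1
      _ = 2 * h * T * C * Real.exp 1 / Xo := by field_simp
  -- the upper bound
  have hup : ∀ u : Qd t c, u ≠ 0 →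
      (∑ z ∈ pball t c (Real.exp 1 * Y), ∑ z' ∈ pball t c (Real.exp 1 * Y),
        bg Y z * bg Y z' * (if PP g χ u z z' then 4 else 0) * Fj K (ang z - ang (u * z'))) ≤
      4 * (Real.exp 1 / Y) ^ 2 * (K *
        ((near g χ u (2 * h * T * C * Real.exp 1 / Xo) Xo).card : ℝ) +
        Cf * (X ^ 2 / T + X * K / T ^ 2)) := by
    intro u hu
    have h1 := hfar u hu X T K hX1 hT1 hKn hK4 (PP g χ u)
    have h2 := mul_le_mul_of_nonneg_left (hnear u) hKpos.le
    have h3 : (∑ z ∈ pball t c (Real.exp 1 * Y), ∑ z' ∈ pball t c (Real.exp 1 * Y),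
        bg Y z * bg Y z' * (if PP g χ u z z' then 4 else 0) * Fj K (ang z - ang (u * z'))) ≤
        4 * (Real.exp 1 / Y) ^ 2 * (∑ z ∈ pball t c X, ∑ z' ∈ pball t c X,
          (if PP g χ u z z' then Fj K (ang z - ang (u * z')) else 0)) := by
      rw [hX, mul_sum]
      refine sum_le_sum fun z hz => ?_
      rw [mul_sum]
      refine sum_le_sum fun z' hz' => ?_
      have hF := Fj_nonneg K (ang z - ang (u * z'))
      have ha := bg_le' hD hYpos (pball_ne hD hz)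
      have hb := bg_le' hD hYpos (pball_ne hD hz')
      have ha0 := bg_nonneg Y z
      have hb0 := bg_nonneg Y z'
      have hab : bg Y z * bg Y z' ≤ (Real.exp 1 / Y) ^ 2 := by
        rw [pow_two]
        exact mul_le_mul ha hb hb0 (ha0.trans ha)
      by_cases hP : PP g χ u z z'
      · rw [if_pos hP, if_pos hP]
        have := mul_le_mul_of_nonneg_right hab hF
        linarith
      · rw [if_neg hP, if_neg hP]
        simp
    refine h3.trans ?_
    apply mul_le_mul_of_nonneg_left _ (by positivity)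
    linarith
  -- the lower bound
  obtain ⟨A, hA⟩ : ∃ A : ℤ → ℝ, A = fun k =>
      ‖GG (Hf (t := t) (c := c) (fun x => χ x ^ 2)) Y k‖ ^ 2 +
        ‖GG (Hf (t := t) (c := c) χ) Y k‖ ^ 2 := ⟨_, rfl⟩
  obtain ⟨B, hB⟩ : ∃ B : ℤ → ℝ, B = fun k =>
      ‖GG (Gt (t := t) (c := c) g (fun x => χ x ^ 2)) Y k‖ ^ 2 +
        ‖GG (Gt (t := t) (c := c) g χ) Y k‖ ^ 2 := ⟨_, rfl⟩
  have hlow := low2 (t := t) (c := c) (A := A) (B := B) (fun k => by rw [hA]; positivity)
    (fun k => by rw [hB]; positivity) (u₀ := u₀) hKpos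
  have hAz : c₁ ^ 2 ≤ A 0 := by
    have h1 : c₁ ≤ ∑ z ∈ pball t c (Real.exp 1 * Y),
        ((Hf (t := t) (c := c) (fun x => χ x ^ 2) z : ℤ) : ℝ) * bg Y z := by
      refine hY3.trans (le_of_eq ?_)
      rw [Finset.sum_filter]
      refine sum_congr rfl fun z _ => ?_
      unfold Hf
      by_cases hz : IsCoprime z.re a
      · rw [if_pos hz]
        have h2 := (hχ.cop z.re).2 hz
        show bg Y z = ((χ z.re ^ 2 : ℤ) : ℝ) * bg Y z
        rcases hχ.val z.re with h3 | h3 | h3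
        · exact absurd h3 h2
        · rw [h3]; norm_num
        · rw [h3]; norm_num
      · rw [if_neg hz]
        have h2 : χ z.re = 0 := by
          by_contra h3
          exact hz ((hχ.cop z.re).1 h3)
        show (0 : ℝ) = ((χ z.re ^ 2 : ℤ) : ℝ) * bg Y z
        rw [h2]; norm_num
    rw [hA]
    simp only
    rw [GG_at_zero, Complex.norm_real, Real.norm_of_nonneg (hc₁.le.trans h1)]
    have h2 := pow_le_pow_left₀ hc₁.le h1 2
    have h3 : 0 ≤ ‖GG (Hf (t := t) (c := c) χ) Y 0‖ ^ 2 := by positivity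
    linarith
  have hBs : ∑ k ∈ (FK K).erase 0, B k ≤ c₁ ^ 2 / 4 := by
    rw [hB, sum_add_distrib]
    have h1 : ∑ k ∈ (FK K).erase 0, ‖GG (Gt (t := t) (c := c) g (fun x => χ x ^ 2)) Y k‖ ^ 2 ≤
        c₁ ^ 2 / 8 := by
      refine le_trans ?_ (hmr1 Y hYY1)
      apply sum_le_sum_of_subset_of_nonneg
      · apply FK_mono
        rw [hK]
        apply Nat.floor_le_floor
        apply div_le_div_of_nonneg_left hYpos.le (by linarith)
        rw [hh]; exact le_max_left _ _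
      · intro _ _ _; positivity
    have h2 : ∑ k ∈ (FK K).erase 0, ‖GG (Gt (t := t) (c := c) g χ) Y k‖ ^ 2 ≤
        c₁ ^ 2 / 8 := by
      refine le_trans ?_ (hmr2 Y hYY2)
      apply sum_le_sum_of_subset_of_nonneg
      · apply FK_mono
        rw [hK]
        apply Nat.floor_le_floor
        apply div_le_div_of_nonneg_left hYpos.le (by linarith)
        rw [hh]; exact le_max_right _ _
      · intro _ _ _; positivity
    linarith
  have hs1 := pair_sum hg hχ hD Y (one_ne t c) K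
  have hs2 := pair_sum hg hχ hD Y hu₀ K
  have hu1 := hup 1 (one_ne t c)
  have hu2 := hup u₀ hu₀
  rw [← hs1] at hu1
  rw [← hs2] at hu2
  rw [Pool.Agent.W78.GA.nm_one, hg.one, Int.cast_one] at hu1
  rw [hgu] at hu2
  have hu1' : ∑ k ∈ FK K, (1 - |(k : ℝ)| / K) * ((ps k (1 : Qd t c)).re * (A k - B k)) ≤
      4 * (Real.exp 1 / Y) ^ 2 * (K *
        ((near g χ (1 : Qd t c) (2 * h * T * C * Real.exp 1 / Xo) Xo).card : ℝ) +
        Cf * (X ^ 2 / T + X * K / T ^ 2)) := by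
    refine le_trans (le_of_eq ?_) hu1
    rw [hA, hB]
    refine sum_congr rfl fun k _ => ?_
    ring
  have hu2' : ∑ k ∈ FK K, (1 - |(k : ℝ)| / K) * ((ps k u₀).re * (A k + B k)) ≤
      4 * (Real.exp 1 / Y) ^ 2 * (K *
        ((near g χ u₀ (2 * h * T * C * Real.exp 1 / Xo) Xo).card : ℝ) +
        Cf * (X ^ 2 / T + X * K / T ^ 2)) := by
    refine le_trans (le_of_eq ?_) hu2
    rw [hA, hB]
    refine sum_congr rfl fun k _ => ?_
    push_cast
    ring
  obtain ⟨N₁, hN₁⟩ : ∃ N₁ : ℝ, N₁ =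
    ((near g χ (1 : Qd t c) (2 * h * T * C * Real.exp 1 / Xo) Xo).card : ℝ) := ⟨_, rfl⟩
  obtain ⟨N₂, hN₂⟩ : ∃ N₂ : ℝ, N₂ =
    ((near g χ u₀ (2 * h * T * C * Real.exp 1 / Xo) Xo).card : ℝ) := ⟨_, rfl⟩
  rw [← hN₁] at hu1' ⊢
  rw [← hN₂] at hu2' ⊢
  have hN10 : 0 ≤ N₁ := by rw [hN₁]; positivity
  have hN20 : 0 ≤ N₂ := by rw [hN₂]; positivity
  -- the far part
  have hfp : 4 * (Real.exp 1 / Y) ^ 2 * (Cf * (X ^ 2 / T + X * K / T ^ 2)) ≤ c₁ ^ 2 / 4 := by
    have hb : X * K / T ^ 2 ≤ X ^ 2 / T := by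
      rw [div_le_div_iff₀ (by positivity) (by positivity)]
      have h9 : (K : ℝ) ≤ X := hKY.trans hYX
      have h10 : T ≤ T ^ 2 := by nlinarith
      have hX0 : 0 ≤ X := by linarith
      calc X * K * T ≤ X * X * T ^ 2 := by gcongr
        _ = X ^ 2 * T ^ 2 := by ring
    have h1 : 4 * (Real.exp 1 / Y) ^ 2 * (Cf * (X ^ 2 / T + X * K / T ^ 2)) ≤
        4 * (Real.exp 1 / Y) ^ 2 * (Cf * (X ^ 2 / T + X ^ 2 / T)) := by
      gcongr
    have h2 : 4 * (Real.exp 1 / Y) ^ 2 * (Cf * (X ^ 2 / T + X ^ 2 / T)) =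
        8 * Real.exp 1 ^ 4 * Cf / T := by
      rw [hX]
      field_simp
      ring
    rw [h2] at h1
    refine h1.trans ?_
    rw [div_le_div_iff₀ hTp (by norm_num)]
    have h3 : c₁ ^ 2 * T = 32 * Real.exp 1 ^ 4 * Cf + c₁ ^ 2 := by
      rw [hT]; field_simp
    have h4 : 0 < c₁ ^ 2 := by positivity
    linarith
  have hmain : c₁ ^ 2 ≤ 4 * (Real.exp 1 / Y) ^ 2 * (K * (N₁ + N₂)) := by
    have h4 : 0 < c₁ ^ 2 := by positivity
    have e1 : 4 * (Real.exp 1 / Y) ^ 2 * (K * N₁ + Cf * (X ^ 2 / T + X * K / T ^ 2)) +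
        4 * (Real.exp 1 / Y) ^ 2 * (K * N₂ + Cf * (X ^ 2 / T + X * K / T ^ 2)) =
        4 * (Real.exp 1 / Y) ^ 2 * (K * (N₁ + N₂)) +
        2 * (4 * (Real.exp 1 / Y) ^ 2 * (Cf * (X ^ 2 / T + X * K / T ^ 2))) := by ring
    linarith
  have hmain2 : c₁ ^ 2 * Y ≤ 4 * Real.exp 1 ^ 2 * (N₁ + N₂) := by
    have h1 : 4 * (Real.exp 1 / Y) ^ 2 * (K * (N₁ + N₂)) ≤
        4 * (Real.exp 1 / Y) ^ 2 * (Y * (N₁ + N₂)) := by
      have : 0 ≤ N₁ + N₂ := by linarith
      gcongr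
    have h2 : 4 * (Real.exp 1 / Y) ^ 2 * (Y * (N₁ + N₂)) =
        4 * Real.exp 1 ^ 2 * (N₁ + N₂) / Y := by
      field_simp
    have h3 := hmain.trans h1
    rw [h2, le_div_iff₀ hYpos] at h3
    exact h3
  have hmain3 : c₁ ^ 2 * (Xo / Real.exp 1 / C) ≤ 4 * Real.exp 1 ^ 2 * (N₁ + N₂) :=
    (mul_le_mul_of_nonneg_left hY1 (by positivity)).trans hmain2
  have e5 : c₁ ^ 2 / (8 * Real.exp 1 ^ 3 * C) * Xo =
      (c₁ ^ 2 * (Xo / Real.exp 1 / C)) / (8 * Real.exp 1 ^ 2) := by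
    field_simp
  have h8 : 0 < 8 * Real.exp 1 ^ 2 := by positivity
  rw [e5]
  by_contra hcon
  push Not at hcon
  obtain ⟨k1, k2⟩ := hcon
  rw [lt_div_iff₀ h8] at k1 k2
  nlinarith

end Pool.Agent.K9h53.LN
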