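import Pool.Agent.K9h53.LN.EleX

/-!
Project LN (helper53): statements of the remaining parts, imaginary quadratic orders.
-/

set_option autoImplicit false

namespace Pool.Agent.K9h53.LN

open Finset Filter
open Pool.Agent.W78
open Pool.Agent.W78.GA (Qd nm prim bg dt ip pball ang)

variable {t c : ℤ}

/-- Task C: the main frequency of the indicator function of the elements with first coordinate
coprime to `a` is not small, at many scales -/
def S_A0 (t c a : ℤ) : Prop := ∃ c₁ : ℝ, 0 < c₁ ∧ ∃ C : ℝ, 1 ≤ C ∧ ∃ X₀ : ℝ,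
  ∀ X : ℝ, X₀ ≤ X → ∃ Y : ℝ, X / C ≤ Y ∧ Y ≤ X ∧ c₁ ≤ (open scoped Classical in
    ∑ z ∈ (pball t c (Real.exp 1 * Y)).filter (fun z => IsCoprime z.re a), bg Y z)

open scoped Classical in
/-- pairs of close directions with different values of `g` and the same nonzero value of `χ` -/
noncomputable def near (g : ℕ → ℤ) (χ : ℤ → ℤ) (u : Qd t c) (δ X : ℝ) :
    Finset (Qd t c × Qd t c) :=
  (pball t c X ×ˢ pball t c X).filter (fun p => g (nm p.1) ≠ g (nm (u * p.2)) ∧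
    χ p.1.re = χ p.2.re ∧ χ p.1.re ≠ 0 ∧
    ∃ j : ℤ, |ang p.1 - ang (u * p.2) + 2 * Real.pi * j| ≤ δ)

/-- many near pairs -/
def S_NEAR (g : ℕ → ℤ) (χ : ℤ → ℤ) (t c : ℤ) : Prop :=
  ∃ (u : Qd t c) (L κ X₀ : ℝ), u ≠ 0 ∧ χ u.re = 1 ∧ (∀ n : ℕ, n ∣ nm u → χ n = 1) ∧
    0 ≤ L ∧ 0 < κ ∧ ∀ X : ℝ, X₀ ≤ X →
    κ * X ≤ ((near g χ (1 : Qd t c) (L / X) X).card : ℝ) ∨
      κ * X ≤ ((near g χ u (L / X) X).card : ℝ)

end Pool.Agent.K9h53.LN
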