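import Pool.Agent.K9h53.LN.Stm
import Pool.Agent.K9h53.LQ.TaskD
import Pool.Agent.W803.GA.Pair
import Pool.Agent.W29.GA.Mult
import Pool.Agent.W78.GA.T1

/-!
Project LN (helper53): from near pairs to triples, imaginary orders.
-/

set_option autoImplicit false

namespace Pool.Agent.K9h53.LN

open Finset Filter
open Pool.Agent.W78
open Pool.Agent.W78.GA (Qd nm prim dt ip pball ang tc mem_pball nm_pos nm_cast nm_castR one_le_nm
  prim_ne_zero nm_mul nm_natCast nm_neg star_mul_self' norm_tc dedge mem_dedge S_MULT)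
open Pool.Agent.W78.GS (Pm)
open Pool.Agent.W78.GT (Tr tri mem_tri Qp)
open Pool.Agent.W803.GA (dt_eq_sin ip_eq_cos sqrt_disc dt_zero exists_primpart ang_natCast_mul
  mul_ne_zero' cos_add_two_pi_mul sin_add_two_pi_mul)
open Pool.Agent.K9h53.LQ (Ch SplOne Cnd S_TRI nA nB exists_lift mkY re_natCast_mul im_natCast_mul)

variable {g : ℕ → ℤ} {χ : ℤ → ℤ} {t c a : ℤ}

/-- the trace of `v̄ y` -/
def tr (v y : Qd t c) : ℤ := 2 * v.re * y.re + t * (v.re * y.im + v.im * y.re) + 2 * c * v.im * y.im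

lemma tr_eq (v y : Qd t c) : tr v y = 2 * ip v y + t * dt v y := by
  unfold tr GA.ip GA.dt
  ring

lemma tr_le (hD : t ^ 2 < 4 * c) (v y : Qd t c) : tr v y ≤ nm v + nm y := by
  have h := GA.nm_nonneg hD (v - y)
  rw [nm_cast hD, nm_cast hD]
  unfold tr
  simp only [QuadraticAlgebra.re_sub, QuadraticAlgebra.im_sub] at h
  linarith

lemma cnd_of (hD : t ^ 2 < 4 * c) (hac : a ∣ c) {v x y : Qd t c} {k r μ : ℤ}
    (hy : y ≠ 0) (htr : 0 ≤ tr v y) (hdt : dt v x = 1)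
    (h1 : y.re = r * v.re + k * x.re) (h2 : y.im = r * v.im + k * x.im)
    (hg : g (nm v) ≠ g (nm y)) (hμ : a ∣ v.re * μ + x.re) :
    Cnd g a t k r μ (nm v, ip v x, nm x) := by
  have nv := nm_cast hD v
  have nx := nm_cast hD x
  have ny := nm_cast hD y
  have hdt' : v.re * x.im - v.im * x.re = 1 := hdt
  have hA : nA t k r (nm v) (ip v x) (nm x) = nm y := by
    rw [ny, h1, h2]
    unfold LQ.nA GA.ip
    rw [nv, nx]
    linear_combination (-(r * k * t)) * hdt'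
  have hB : nB t k r (nm v) (ip v x) = tr v y := by
    unfold tr
    rw [h1, h2]
    unfold LQ.nB GA.ip
    rw [nv]
    linear_combination (-(k * t)) * hdt'
  refine ⟨?_, ?_, ?_, ?_, ?_⟩
  · simp only
    rw [hA]
    exact_mod_cast nm_pos hD hy
  · simp only
    rw [hB]
    exact htr
  · simp only
    rw [hA, Int.toNat_natCast]
    exact hg
  · simp only
    obtain ⟨s, hs⟩ := hμ
    obtain ⟨w, hw⟩ := hac
    rw [nv]
    unfold GA.ip
    refine ⟨(v.re + t * v.im) * s + w * v.im * (v.im * μ + x.im), ?_⟩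
    linear_combination (v.re + t * v.im) * hs + (v.im ^ 2 * μ + v.im * x.im) * hw
  · simp only
    obtain ⟨s, hs⟩ := hμ
    obtain ⟨w, hw⟩ := hac
    rw [nv, nx]
    unfold GA.ip
    refine ⟨(v.re * μ + x.re + t * (μ * v.im + x.im)) * s + w * (μ * v.im + x.im) ^ 2, ?_⟩
    linear_combination (v.re * μ + x.re + t * (μ * v.im + x.im)) * hs +
      (μ * v.im + x.im) ^ 2 * hw - t * μ * hdt'

lemma tri_mem (hD : t ^ 2 < 4 * c) {v x : Qd t c} (hv : v ≠ 0) (hx : x ≠ 0) (hdt : dt v x = 1)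
    (htr : 0 ≤ 2 * ip v x + t) {X : ℝ} (h1 : (nm v : ℝ) ≤ X) (h2 : (nm x : ℝ) ≤ X) :
    ((nm v, ip v x, nm x) : Tr) ∈ tri t c X X := by
  rw [mem_tri]
  have nv := nm_cast hD v
  have nx := nm_cast hD x
  have hdt' : v.re * x.im - v.im * x.re = 1 := hdt
  refine ⟨nm_pos hD hv, h1, nm_pos hD hx, h2, ?_, htr⟩
  simp only
  rw [nv, nx]
  unfold GT.Qp GA.ip
  linear_combination (t * (v.re * x.re + t * v.im * x.re + c * v.im * x.im) +
    c * (v.re * x.im - v.im * x.re + 1)) * hdt'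

lemma fin_dat (hD : t ^ 2 < 4 * c) (hχ : Ch a χ) (ha : 0 < a) (hac : a ∣ c)
    {A B : Qd t c} (pA : prim A) (pB : prim B) (hk : 0 < dt A B) (htr : 0 ≤ tr A B)
    (hg : g (nm A) ≠ g (nm B)) (hχA : χ A.re = χ B.re) (hχ0 : χ A.re ≠ 0) {X : ℝ}
    (nA : (nm A : ℝ) ≤ X) (nB : (nm B : ℝ) ≤ X) :
    ∃ (x : Qd t c) (r μ : ℤ), mkY (dt A B) r A x = B ∧
      -(dt A B) < r ∧ r ≤ 0 ∧ IsCoprime r (dt A B) ∧ 0 ≤ μ ∧ μ < a ∧
      χ (r - dt A B * μ) = 1 ∧ (A, x) ∈ dedge t c (4 * X) ∧ 0 ≤ 2 * ip A x + t ∧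
      Cnd g a t (dt A B) r μ (nm A, ip A x, nm x) := by
  obtain ⟨k, hkk⟩ : ∃ k : ℤ, k = dt A B := ⟨_, rfl⟩
  obtain ⟨x, r, hx1, hr1, hr2, hr3, e1, e2⟩ := exists_lift pA pB hk
  rw [← hkk] at hk hr1 hr3 e1 e2 ⊢
  have px : prim x := Pool.Agent.W803.GA.prim_of_dt hx1
  -- the trace of `Ā x`
  have htr1 : tr A B = k * tr A x + r * (2 * nm A) := by
    rw [nm_cast hD]
    unfold tr
    rw [e1, e2]
    ring
  have htrx : 0 ≤ tr A x := by
    have h1 : 0 ≤ k * tr A x := by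
      have h2 : r * (2 * (nm A : ℤ)) ≤ 0 := mul_nonpos_of_nonpos_of_nonneg hr2 (by positivity)
      linarith
    exact (mul_nonneg_iff_of_pos_left hk).1 h1
  have htrx' : 0 ≤ 2 * ip A x + t := by
    rw [tr_eq, hx1] at htrx
    linarith
  -- the norm of `x`
  have hnx : k ^ 2 * (nm x : ℤ) = nm B - r * tr A B + r ^ 2 * nm A := by
    rw [nm_cast hD, nm_cast hD, nm_cast hD]
    unfold tr
    rw [e1, e2]
    ring
  have hX0 : 0 ≤ X := (Nat.cast_nonneg _).trans nA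
  have hnxX : (nm x : ℝ) ≤ 4 * X := by
    have h1 := tr_le hD A B
    have h2 : k ^ 2 * (nm x : ℤ) ≤ k ^ 2 * (2 * nm A + 2 * nm B) := by
      rw [hnx]
      have hA0 : (0 : ℤ) ≤ nm A := Int.natCast_nonneg _
      have hB0 : (0 : ℤ) ≤ nm B := Int.natCast_nonneg _
      have h3 : -r * tr A B ≤ k * (nm A + nm B) :=
        mul_le_mul (by linarith) h1 htr hk.le
      have h4 : r ^ 2 ≤ k ^ 2 := by nlinarith
      have h5 : r ^ 2 * (nm A : ℤ) ≤ k ^ 2 * nm A := mul_le_mul_of_nonneg_right h4 hA0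
      have h6 : k ≤ k ^ 2 := by nlinarith
      have h7 : k * ((nm A : ℤ) + nm B) ≤ k ^ 2 * (nm A + nm B) :=
        mul_le_mul_of_nonneg_right h6 (by linarith)
      have h8 : (1 : ℤ) * nm B ≤ k ^ 2 * nm B :=
        mul_le_mul_of_nonneg_right (by nlinarith) hB0
      linarith
    have h3 : (nm x : ℤ) ≤ 2 * nm A + 2 * nm B := le_of_mul_le_mul_left h2 (by positivity)
    have h4 : (nm x : ℝ) ≤ 2 * nm A + 2 * nm B := by exact_mod_cast h3
    linarith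
  -- the congruence
  have hcop : IsCoprime A.re a := by
    rw [← hχ.cop]
    exact hχ0
  obtain ⟨p, q, hpq⟩ := hcop
  obtain ⟨μ, hμ⟩ : ∃ μ : ℤ, μ = (-(x.re * p)) % a := ⟨_, rfl⟩
  have hμ0 : 0 ≤ μ := by rw [hμ]; exact Int.emod_nonneg _ ha.ne'
  have hμa : μ < a := by rw [hμ]; exact Int.emod_lt_of_pos _ ha
  have hμd : a ∣ A.re * μ + x.re := by
    obtain ⟨τ, hτ⟩ : ∃ τ : ℤ, -(x.re * p) = μ + a * τ :=
      ⟨(-(x.re * p)) / a, by rw [hμ]; exact (Int.emod_add_mul_ediv _ _).symm⟩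
    refine ⟨x.re * q - A.re * τ, ?_⟩
    linear_combination (-A.re) * hτ - x.re * hpq
  have hχr : χ (r - k * μ) = 1 := by
    have h1 : χ (A.re * (r - k * μ)) = χ B.re := by
      apply hχ.per
      obtain ⟨s, hs⟩ := hμd
      refine ⟨-(k * s), ?_⟩
      rw [e1]
      linear_combination (-k) * hs
    rw [hχ.mul, ← hχA] at h1
    have h2 : χ A.re * (χ (r - k * μ) - 1) = 0 := by linear_combination h1
    rcases mul_eq_zero.1 h2 with h3 | h3
    · exact absurd h3 hχ0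
    · linarith
  refine ⟨x, r, μ, ?_, hr1, hr2, hr3, hμ0, hμa, hχr, ?_, htrx', ?_⟩
  · unfold LQ.mkY
    rw [← e1, ← e2]
  · rw [mem_dedge, mem_pball hD, mem_pball hD]
    exact ⟨⟨pA, by linarith⟩, ⟨px, hnxX⟩, hx1⟩
  · exact cnd_of hD hac (prim_ne_zero pB) htr hx1 e1 e2 hg hμd

/-- the pair `p` can be recovered from the other data -/
def Rec (u : Qd t c) (p : Qd t c × Qd t c) (fl n : ℕ) (k r : ℤ)
    (e : Qd t c × Qd t c) : Prop :=
  (fl = 0 ∧ e.1 = p.1 ∧ (n : Qd t c) * mkY k r e.1 e.2 = u * p.2) ∨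
  (fl = 1 ∧ mkY k r e.1 e.2 = p.1 ∧ (n : Qd t c) * e.1 = u * p.2)

lemma mul_cancel (hD : t ^ 2 < 4 * c) {u z w : Qd t c} (hu : u ≠ 0) (h : u * z = u * w) : z = w := by
  have h1 : u * (z - w) = 0 := by rw [mul_sub, h, sub_self]
  have h2 : nm u * nm (z - w) = 0 := by
    rw [← nm_mul, h1]
    simp [GA.nm]
  rcases Nat.mul_eq_zero.1 h2 with h3 | h3
  · exact absurd ((GA.nm_eq_zero hD).1 h3) hu
  · exact sub_eq_zero.1 ((GA.nm_eq_zero hD).1 h3)

lemma rec_inj (hD : t ^ 2 < 4 * c) {u : Qd t c} (hu : u ≠ 0) {p p' : Qd t c × Qd t c} {fl n : ℕ}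
    {k r : ℤ} {e : Qd t c × Qd t c}
    (h : Rec u p fl n k r e) (h' : Rec u p' fl n k r e) : p = p' := by
  rcases h with ⟨f0, h1, h2⟩ | ⟨f0, h1, h2⟩ <;> rcases h' with ⟨f0', h1', h2'⟩ | ⟨f0', h1', h2'⟩
  · exact Prod.ext (h1.symm.trans h1') (mul_cancel hD hu (h2.symm.trans h2'))
  · omega
  · omega
  · exact Prod.ext (h1.symm.trans h1') (mul_cancel hD hu (h2.symm.trans h2'))

/-- the content divides the norm -/
lemma content_dvd (hD : t ^ 2 < 4 * c) {u z y : Qd t c} {n : ℕ} (hz : prim z)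
    (h : u * z = (n : Qd t c) * y) : n ∣ nm u := by
  have h1 : (nm u : Qd t c) * z = (n : Qd t c) * (star u * y) := by
    rw [← star_mul_self' hD, mul_assoc, h]
    ring
  have h2 := congrArg QuadraticAlgebra.re h1
  have h3 := congrArg QuadraticAlgebra.im h1
  rw [re_natCast_mul, re_natCast_mul] at h2
  rw [im_natCast_mul, im_natCast_mul] at h3
  unfold GA.prim at hz
  rw [← Int.isCoprime_iff_gcd_eq_one] at hz
  obtain ⟨p, q, hpq⟩ := hz
  have h4 : (n : ℤ) ∣ (nm u : ℤ) := by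
    refine ⟨p * (star u * y).re + q * (star u * y).im, ?_⟩
    linear_combination (-(nm u : ℤ)) * hpq + p * h2 + q * h3
  exact_mod_cast h4

lemma dt_bound (hD : t ^ 2 < 4 * c) {z y : Qd t c} {X N δ : ℝ} (hX : 0 ≤ X)
    (hN : 1 ≤ N) (nz : (nm z : ℝ) ≤ X) (ny : (nm y : ℝ) ≤ N * X) {j : ℤ}
    (hδ : |ang y - ang z + 2 * Real.pi * j| ≤ δ) :
    |(dt z y : ℝ)| ≤ 2 * δ * X * N := by
  have h1 := dt_eq_sin hD z y
  rw [← sin_add_two_pi_mul _ j] at h1
  have h2 : |Real.sin (ang y - ang z + 2 * Real.pi * j)| ≤ δ := Real.abs_sin_le_abs.trans hδ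
  have hδ0 : 0 ≤ δ := (abs_nonneg _).trans hδ
  have h3 : ‖tc z‖ * ‖tc y‖ ≤ X * N := by
    rw [norm_tc hD, norm_tc hD, ← Real.sqrt_mul (Nat.cast_nonneg _), Real.sqrt_le_left (by positivity)]
    have h4 := mul_le_mul nz ny (Nat.cast_nonneg _) hX
    have h5 : X * (N * X) * 1 ≤ X * (N * X) * N :=
      mul_le_mul_of_nonneg_left hN (by positivity)
    nlinarith
  have h4 : |(dt z y : ℝ)| * 1 ≤ |(dt z y : ℝ)| * Real.sqrt (4 * c - t ^ 2) :=
    mul_le_mul_of_nonneg_left (sqrt_disc hD) (abs_nonneg _)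
  have h5 : |(dt z y : ℝ)| * Real.sqrt (4 * c - t ^ 2) / 2 =
      ‖tc z‖ * ‖tc y‖ * |Real.sin (ang y - ang z + 2 * Real.pi * j)| := by
    have h6 := congrArg abs h1
    rw [abs_div, abs_mul, abs_mul, abs_mul, abs_of_nonneg (norm_nonneg (tc z)),
      abs_of_nonneg (norm_nonneg (tc y)), abs_of_nonneg (Real.sqrt_nonneg _),
      abs_of_pos (by norm_num : (0 : ℝ) < 2)] at h6
    exact h6
  have h6 : ‖tc z‖ * ‖tc y‖ * |Real.sin (ang y - ang z + 2 * Real.pi * j)| ≤ X * N * δ :=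
    mul_le_mul h3 h2 (abs_nonneg _) (by positivity)
  linarith

lemma tr_nonneg (hD : t ^ 2 < 4 * c) {z y : Qd t c} {δ : ℝ} (hδ1 : δ ≤ 1) {j : ℤ}
    (hδ : |ang y - ang z + 2 * Real.pi * j| ≤ δ) : 0 ≤ tr z y := by
  have h1 := ip_eq_cos hD z y
  rw [← cos_add_two_pi_mul _ j] at h1
  have h2 : 0 ≤ Real.cos (ang y - ang z + 2 * Real.pi * j) := by
    have h3 := abs_le.1 (hδ.trans hδ1)
    have hpi := Real.pi_gt_three
    apply Real.cos_nonneg_of_neg_pi_div_two_le_of_le <;> linarith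
  have h3 : 0 ≤ (ip z y : ℝ) + t * dt z y / 2 := by
    rw [h1]
    positivity
  have h4 : ((tr z y : ℤ) : ℝ) = 2 * ((ip z y : ℝ) + t * dt z y / 2) := by
    rw [tr_eq]
    push_cast
    ring
  have h5 : (0 : ℝ) ≤ ((tr z y : ℤ) : ℝ) := by rw [h4]; linarith
  exact_mod_cast h5

lemma exists_rec (hD : t ^ 2 < 4 * c) (hg : Pm g) (hχ : Ch a χ) (ha : 0 < a) (hac : a ∣ c)
    {u : Qd t c} (hu : u ≠ 0) (hχu : χ u.re = 1)
    (hdv : ∀ n : ℕ, n ∣ nm u → χ n = 1) {X δ : ℝ} (hX : 1 ≤ X) (hδ1 : δ ≤ 1) {k0 : ℤ}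
    (hk0 : 2 * δ * X * nm u ≤ k0) {p : Qd t c × Qd t c}
    (hp : p ∈ near g χ u δ X) :
    ∃ (fl n : ℕ) (k r μ : ℤ) (e : Qd t c × Qd t c), fl < 2 ∧ n ≤ nm u ∧ 0 < k ∧ k ≤ k0 ∧
      -k0 ≤ r ∧ r ≤ 0 ∧ IsCoprime r k ∧ 0 ≤ μ ∧ μ < a ∧ χ (r - k * μ) = 1 ∧
      e ∈ dedge t c (4 * (nm u * X)) ∧ 0 ≤ 2 * ip e.1 e.2 + t ∧
      Cnd g a t k r μ (nm e.1, ip e.1 e.2, nm e.2) ∧ Rec u p fl n k r e := by
  classical
  obtain ⟨z, z'⟩ := p
  unfold near at hp
  rw [mem_filter, mem_product] at hp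
  obtain ⟨⟨hz, hz'⟩, hgg, hχz, hχ0, jj, hjj⟩ := hp
  simp only at hz hz' hgg hχz hχ0 hjj
  obtain ⟨pz, nz⟩ := (mem_pball hD).1 hz
  obtain ⟨pz', nz'⟩ := (mem_pball hD).1 hz'
  have hw : u * z' ≠ 0 := mul_ne_zero' hD hu (prim_ne_zero pz')
  obtain ⟨y, n, hn, hy, hwy⟩ := exists_primpart hw
  have hnu := content_dvd hD pz' hwy
  have hχn := hdv n hnu
  have hangy : ang (u * z') = ang y := by rw [hwy, ang_natCast_mul hD hn]
  have hgly : g (nm (u * z')) = g (nm y) := by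
    rw [hwy]
    rw [nm_mul, nm_natCast, hg.sq_mul hn.ne' (nm_pos hD (prim_ne_zero hy)).ne']
  have hNu : (1 : ℝ) ≤ nm u := by exact_mod_cast (one_le_nm hD).2 hu
  have hyX : (nm y : ℝ) ≤ nm u * X := by
    have h1 : nm (u * z') = n ^ 2 * nm y := by rw [hwy, nm_mul, nm_natCast]
    rw [nm_mul] at h1
    have h2 : (nm y : ℝ) ≤ nm u * nm z' := by
      have : nm y ≤ nm u * nm z' := by
        rw [h1]; exact Nat.le_mul_of_pos_left _ (by positivity)
      exact_mod_cast this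
    exact h2.trans (mul_le_mul_of_nonneg_left nz' (Nat.cast_nonneg _))
  have hX0 : 0 ≤ X := by linarith
  have hzX : (nm z : ℝ) ≤ nm u * X := nz.trans (le_mul_of_one_le_left hX0 hNu)
  have hχy : χ y.re = χ z'.re := by
    have h1 : χ (u * z').re = χ z'.re := by rw [hχ.mul_re hac, hχu, one_mul]
    rw [hwy, re_natCast_mul, hχ.mul, hχn, one_mul] at h1
    exact h1
  have cy : χ y.re = χ z.re := by rw [hχz, hχy]
  rw [hangy] at hjj
  have hj2 : |ang y - ang z + 2 * Real.pi * ((-jj : ℤ) : ℝ)| ≤ δ := by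
    have : ang y - ang z + 2 * Real.pi * ((-jj : ℤ) : ℝ) = -(ang z - ang y + 2 * Real.pi * jj) := by
      push_cast
      ring
    rw [this, abs_neg]
    exact hjj
  rw [hgly] at hgg
  have hdt : dt z y ≠ 0 := by
    intro h0
    rcases dt_zero pz hy h0 with h | h
    · exact hgg (by rw [h])
    · exact hgg (by rw [h, nm_neg])
  have hdb := dt_bound hD hX0 hNu nz hyX hj2
  have hdb' : |dt z y| ≤ k0 := by
    have h1 : |(dt z y : ℝ)| ≤ k0 := hdb.trans hk0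
    exact_mod_cast h1
  have hnle : n ≤ nm u := Nat.le_of_dvd (nm_pos hD hu) hnu
  rcases lt_or_gt_of_ne hdt with hneg | hpos
  · have hsw : dt y z = - dt z y := by unfold GA.dt; ring
    have hd : 0 < dt y z := by omega
    obtain ⟨x, r, μ, g2, g3, g4, g5, g6, g7, g8, g9, g11, g10⟩ :=
      fin_dat hD hχ ha hac hy pz hd (tr_nonneg hD hδ1 hjj) hgg.symm cy
        (by rw [cy]; exact hχ0) hyX hzX
    have hkk : dt y z ≤ k0 := by rw [hsw]; exact (neg_le_abs _).trans hdb'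
    refine ⟨1, n, dt y z, r, μ, (y, x), by norm_num, hnle, hd, hkk, by linarith, g4, g5, g6, g7,
      g8, g9, g11, g10, Or.inr ⟨rfl, g2, hwy.symm⟩⟩
  · obtain ⟨x, r, μ, g2, g3, g4, g5, g6, g7, g8, g9, g11, g10⟩ :=
      fin_dat hD hχ ha hac pz hy hpos (tr_nonneg hD hδ1 hj2) hgg cy.symm hχ0
        hzX hyX
    have hkk : dt z y ≤ k0 := (le_abs_self _).trans hdb'
    refine ⟨0, n, dt z y, r, μ, (z, x), by norm_num, hnle, hpos, hkk, by linarith, g4, g5, g6, g7,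
      g8, g9, g11, g10, Or.inl ⟨rfl, rfl, ?_⟩⟩
    simp only
    rw [g2, hwy]

open scoped Classical in
/-- the pairs of determinant one belonging to the data `(k, r, μ)` -/
noncomputable def Sset (g : ℕ → ℤ) (t c a : ℤ) (X : ℝ) (κ : ℤ × ℤ × ℤ) :
    Finset (Qd t c × Qd t c) :=
  (dedge t c X).filter (fun e => 0 ≤ 2 * ip e.1 e.2 + t ∧
    Cnd g a t κ.1 κ.2.1 κ.2.2 (nm e.1, ip e.1 e.2, nm e.2))

open scoped Classical in
/-- the data -/
noncomputable def Fset (χ : ℤ → ℤ) (a k0 : ℤ) : Finset (ℤ × ℤ × ℤ) :=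
  ((Finset.Icc 1 k0) ×ˢ ((Finset.Icc (-k0) 0) ×ˢ (Finset.Ico 0 a))).filter
    (fun x => IsCoprime x.2.1 x.1 ∧ χ (x.2.1 - x.1 * x.2.2) = 1)

open scoped Classical in
lemma card_Sset (hD : t ^ 2 < 4 * c) (hW : S_MULT t c)
    (X : ℝ) (κ : ℤ × ℤ × ℤ) : (Sset g t c a X κ).card ≤
    6 * ((tri t c X X).filter (fun e => Cnd g a t κ.1 κ.2.1 κ.2.2 e)).card := by
  refine card_le_mul_card_image_of_maps_to
    (f := fun e : Qd t c × Qd t c => ((nm e.1, ip e.1 e.2, nm e.2) : Tr)) ?_ 6 ?_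
  · intro e he
    obtain ⟨h1, h2, h3⟩ := mem_filter.1 he
    obtain ⟨m1, m2, d1⟩ := mem_dedge.1 h1
    obtain ⟨p1, n1⟩ := (mem_pball hD).1 m1
    obtain ⟨p2, n2⟩ := (mem_pball hD).1 m2
    exact mem_filter.2 ⟨tri_mem hD (prim_ne_zero p1) (prim_ne_zero p2) d1 h2 n1 n2, h3⟩
  · intro f _
    refine hW f.2.1 f.1 _ fun e he => ?_
    obtain ⟨h1, h2⟩ := mem_filter.1 he
    obtain ⟨m1, m2, d1⟩ := mem_dedge.1 (mem_filter.1 h1).1
    refine ⟨d1, ?_, ?_⟩
    · rw [← h2]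
    · rw [← h2]

lemma near_card (hD : t ^ 2 < 4 * c) (hg : Pm g) (hχ : Ch a χ) (ha : 0 < a) (hac : a ∣ c)
    {u : Qd t c} (hu : u ≠ 0) (hχu : χ u.re = 1)
    (hdv : ∀ n : ℕ, n ∣ nm u → χ n = 1) {X δ : ℝ} (hX : 1 ≤ X) (hδ1 : δ ≤ 1) {k0 : ℤ}
    (hk0 : 2 * δ * X * nm u ≤ k0) :
    (near g χ u δ X).card ≤ 2 * (nm u + 1) * ∑ κ ∈ Fset χ a k0,
      (Sset g t c a (4 * (nm u * X)) κ).card := by
  classical
  obtain ⟨X', hX'⟩ : ∃ X' : ℝ, X' = 4 * (nm u * X) := ⟨_, rfl⟩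
  have hex : ∀ p : Qd t c × Qd t c, ∃ x : (ℕ × ℕ) × (Σ _ : ℤ × ℤ × ℤ, Qd t c × Qd t c),
      p ∈ near g χ u δ X → (x ∈ ((range 2) ×ˢ (range (nm u + 1))) ×ˢ
        ((Fset χ a k0).sigma (fun κ => Sset g t c a X' κ)) ∧
        Rec u p x.1.1 x.1.2 x.2.1.1 x.2.1.2.1 x.2.2) := by
    intro p
    by_cases hp : p ∈ near g χ u δ X
    · obtain ⟨fl, n, k, r, μ, e, g1, g2, g3, g4, g5, g6, g7, g8, g9, g10, g11, g11', g12, g13⟩ :=
        exists_rec hD hg hχ ha hac hu hχu hdv hX hδ1 hk0 hp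
      refine ⟨((fl, n), ⟨(k, r, μ), e⟩), fun _ => ⟨?_, g13⟩⟩
      rw [mem_product, mem_product, mem_sigma]
      refine ⟨⟨mem_range.2 g1, mem_range.2 (by simp only; omega)⟩, ?_, ?_⟩
      · unfold Fset
        rw [mem_filter, mem_product, mem_product, Finset.mem_Icc, Finset.mem_Icc, Finset.mem_Ico]
        exact ⟨⟨⟨g3, g4⟩, ⟨g5, g6⟩, g8, g9⟩, g7, g10⟩
      · unfold Sset
        rw [mem_filter, hX']
        exact ⟨g11, g11', g12⟩
    · exact ⟨((0, 0), ⟨(0, 0, 0), (0, 0)⟩), fun h => absurd h hp⟩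
  choose φ hφ using hex
  have hmap : (near g χ u δ X).card ≤ (((range 2) ×ˢ (range (nm u + 1))) ×ˢ
        ((Fset χ a k0).sigma (fun κ => Sset g t c a X' κ))).card := by
    refine Finset.card_le_card_of_injOn φ (fun p hp => (hφ p hp).1) ?_
    intro p hp q hq hpq
    rw [Finset.mem_coe] at hp hq
    have h1 := (hφ p hp).2
    have h2 := (hφ q hq).2
    rw [← hpq] at h2
    exact rec_inj hD hu h1 h2
  rw [card_product, card_product, card_range, card_range, card_sigma, hX'] at hmap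
  exact hmap

theorem tri_of (hg : Pm g) {b c₀ : ℤ} (ha : 0 < a) (hχ : Ch a χ) (hD : b ^ 2 < 4 * (a * c₀))
    (hnear : S_NEAR g χ b (a * c₀)) : S_TRI g χ a b c₀ := by
  classical
  obtain ⟨u, L, κ₁, X₁, hu, hχu, hdv, hL, hκ, hnear⟩ := hnear
  have hac : a ∣ a * c₀ := Dvd.intro _ rfl
  have hpi := Real.pi_pos
  have hW := Pool.Agent.W29.GA.mult hD
  have hNu : (1 : ℝ) ≤ nm u := by exact_mod_cast (one_le_nm hD).2 hu
  obtain ⟨k0, hk0⟩ : ∃ k0 : ℤ, k0 = ⌈2 * L * nm u⌉ := ⟨_, rfl⟩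
  have hk0R : 2 * L * nm u ≤ (k0 : ℝ) := by rw [hk0]; exact Int.le_ceil _
  obtain ⟨C, hC⟩ : ∃ C : ℝ, C = 4 * nm u := ⟨_, rfl⟩
  have hC1 : 1 ≤ C := by rw [hC]; linarith
  have hC0 : 0 < C := by linarith
  obtain ⟨F, hF⟩ : ∃ F : Finset (ℤ × ℤ × ℤ), F = Fset χ a k0 := ⟨_, rfl⟩
  obtain ⟨D, hDd⟩ : ∃ D : ℝ, D = 2 * (nm u + 1) * (6 + 1) * (F.card + 1) := ⟨_, rfl⟩
  have hD0 : 0 < D := by rw [hDd]; positivity
  refine ⟨F, κ₁ / (C * D), C * (|X₁| + L + 1), by positivity, ?_, ?_⟩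
  · intro x hx
    rw [hF] at hx
    unfold Fset at hx
    rw [mem_filter, mem_product, mem_product, Finset.mem_Icc, Finset.mem_Icc,
      Finset.mem_Ico] at hx
    obtain ⟨⟨⟨h1, h2⟩, ⟨h3, h4⟩, h5, h6⟩, h7, h8⟩ := hx
    exact ⟨by omega, h4, h7, h8⟩
  · intro Xo hXo
    obtain ⟨X, hX⟩ : ∃ X : ℝ, X = Xo / C := ⟨_, rfl⟩
    have hXC : C * X = Xo := by rw [hX]; field_simp
    have hXbig : |X₁| + L + 1 ≤ X := by
      rw [hX, le_div_iff₀ hC0]; linarith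
    have hab := abs_nonneg X₁
    have hX1 : 1 ≤ X := by linarith
    have hX0 : 0 < X := by linarith
    have hXX₁ : X₁ ≤ X := by
      have := le_abs_self X₁
      linarith
    have hδ1 : L / X ≤ 1 := by
      rw [div_le_one hX0]
      linarith
    have hkk : ∀ v : Qd b (a * c₀), (nm v : ℝ) ≤ nm u →
        2 * (L / X) * X * nm v ≤ k0 := by
      intro v hv
      have e1 : 2 * (L / X) * X * nm v = 2 * L * nm v := by field_simp
      rw [e1]
      refine le_trans ?_ hk0R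
      exact mul_le_mul_of_nonneg_left hv (by positivity)
    -- both cases
    have hmono : ∀ (Z : ℝ) (κ : ℤ × ℤ × ℤ), Z ≤ Xo → (Sset g b (a * c₀) a Z κ).card ≤
        6 * ((tri b (a * c₀) Xo Xo).filter (fun e => Cnd g a b κ.1 κ.2.1 κ.2.2 e)).card := by
      intro Z κ hZ
      refine le_trans (card_le_card ?_) (card_Sset hD hW Xo κ)
      intro e he
      unfold Sset at he ⊢
      rw [mem_filter, mem_dedge, mem_pball hD, mem_pball hD] at he ⊢
      exact ⟨⟨⟨he.1.1.1, he.1.1.2.trans hZ⟩, ⟨he.1.2.1.1, he.1.2.1.2.trans hZ⟩, he.1.2.2⟩, he.2⟩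
    have hboth : κ₁ * X ≤ 2 * (nm u + 1) * (6 * ∑ κ ∈ F,
        (((tri b (a * c₀) Xo Xo).filter (fun e => Cnd g a b κ.1 κ.2.1 κ.2.2 e)).card : ℝ)) := by
      have hcase : ∀ v : Qd b (a * c₀), v ≠ 0 → χ v.re = 1 → (∀ n : ℕ, n ∣ nm v → χ n = 1) →
          (nm v ≤ nm u) → κ₁ * X ≤ ((near g χ v (L / X) X).card : ℝ) →
          κ₁ * X ≤ 2 * (nm u + 1) * (6 * ∑ κ ∈ F,
        (((tri b (a * c₀) Xo Xo).filter (fun e => Cnd g a b κ.1 κ.2.1 κ.2.2 e)).card : ℝ)) := by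
        intro v hv hχv hdv' hvu h1
        have hvuR : (nm v : ℝ) ≤ nm u := by exact_mod_cast hvu
        have h2 := near_card hD hg hχ ha hac hv hχv hdv' hX1 hδ1 (hkk v hvuR)
        have h3 : (near g χ v (L / X) X).card ≤ 2 * (nm u + 1) * ∑ κ ∈ F,
            6 * ((tri b (a * c₀) Xo Xo).filter (fun e => Cnd g a b κ.1 κ.2.1 κ.2.2 e)).card := by
          rw [hF]
          refine h2.trans (Nat.mul_le_mul (by omega) (sum_le_sum fun κ _ => ?_))
          apply hmono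
          rw [← hXC, hC]
          have h4 : (nm v : ℝ) * X ≤ nm u * X := mul_le_mul_of_nonneg_right hvuR hX0.le
          linarith
        rw [← mul_sum] at h3
        refine h1.trans ?_
        exact_mod_cast h3
      have h1ne : (1 : Qd b (a * c₀)) ≠ 0 := by
        intro h
        have h2 := congrArg QuadraticAlgebra.re h
        rw [QuadraticAlgebra.re_one, QuadraticAlgebra.re_zero] at h2
        norm_num at h2
      have hnm1 : nm (1 : Qd b (a * c₀)) = 1 := by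
        have h := nm_natCast (t := b) (c := a * c₀) 1
        simpa using h
      rcases hnear X hXX₁ with h | h
      · refine hcase 1 h1ne ?_ ?_ ?_ h
        · rw [QuadraticAlgebra.re_one, hχ.one]
        · intro n hn
          rw [hnm1, Nat.dvd_one] at hn
          rw [hn, Nat.cast_one, hχ.one]
        · rw [hnm1]
          exact nm_pos hD hu
      · exact hcase u hu hχu hdv le_rfl h
    by_contra hcon
    push Not at hcon
    have h1 : ∑ κ ∈ F,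
        (((tri b (a * c₀) Xo Xo).filter (fun e => Cnd g a b κ.1 κ.2.1 κ.2.2 e)).card : ℝ) ≤
        F.card * (κ₁ / (C * D) * Xo) := by
      refine (sum_le_card_nsmul _ _ _ (fun κ hκ => (hcon κ hκ).le)).trans ?_
      rw [nsmul_eq_mul]
    have hXo0 : 0 < Xo := by rw [← hXC]; positivity
    have h2 : κ₁ * X ≤ 2 * (nm u + 1) * (6 * (F.card * (κ₁ / (C * D) * Xo))) := by
      refine hboth.trans ?_
      gcongr
    have h3 : 2 * ((nm u : ℝ) + 1) * (6 * (F.card * (κ₁ / (C * D) * Xo))) < D * (κ₁ / (C * D) * Xo) := by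
      have h4 : 0 < κ₁ / (C * D) * Xo := by positivity
      have h5 : 2 * ((nm u : ℝ) + 1) * (6 * F.card) < D := by
        rw [hDd]
        have h6 : (6 : ℝ) * F.card < (6 + 1) * (F.card + 1) := by
          have h8 : (0 : ℝ) ≤ F.card := Nat.cast_nonneg _
          nlinarith
        have h9 : (0 : ℝ) < 2 * ((nm u : ℝ) + 1) := by positivity
        have := mul_lt_mul_of_pos_left h6 h9
        linarith
      have := mul_lt_mul_of_pos_right h5 h4
      linarith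
    have h4 : D * (κ₁ / (C * D) * Xo) = κ₁ * X := by
      rw [hX]; field_simp
    linarith

end Pool.Agent.K9h53.LN
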