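import Pool.Agent.K9h53.LN.StB
import Pool.Agent.K9h53.LQ.Trans

/-!
Project LN (helper53): change of the pair, and the conclusion from the triples, all nonsquare
discriminants.
-/

set_option autoImplicit false

namespace Pool.Agent.K9h53.LN

open Finset Filter
open Pool.Agent.W78.GT
open Pool.Agent.W78.GS (Pm)
open Pool.Agent.K9h53.LQ (fQ nA nB nB_sq Cnd PB S_TRI S_FIN PJ Nt Ch SplOne Out e3 card_PB_mono fin_of_out)

variable {g : ℕ → ℤ} {a b c₀ k r μ j : ℤ}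

lemma out_of_pj (hg : Pm g) (ha : 0 < a) (hD : b ^ 2 - 4 * (a * c₀) ≠ 0)
    (hns : ¬ IsSquare (b ^ 2 - 4 * (a * c₀))) (hk : 0 < k)
    (h : PJ (b ^ 2 - 4 * (a * c₀)) (k * a) (r - k * μ)) : Out g a b c₀ k r μ := by
  obtain ⟨w, hw, hwr, hJ⟩ := h
  intro κ hκ
  exact stb hg ha hD hns hk hw hwr hJ hκ

lemma e3_facts (hD : b ^ 2 - 4 * (a * c₀) ≠ 0) (hj : 1 ≤ j)
    {X : ℝ} (hX : 1 ≤ X) {e : Tr} (he : e ∈ tri b (a * c₀) X X) :
    (((nA b 1 j e.1 e.2.1 e.2.2).toNat : ℕ) : ℤ) = nA b 1 j e.1 e.2.1 e.2.2 ∧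
    (((nA b 1 (j - 1) e.1 e.2.1 e.2.2).toNat : ℕ) : ℤ) = nA b 1 (j - 1) e.1 e.2.1 e.2.2 ∧
    0 < nA b 1 j e.1 e.2.1 e.2.2 ∧ 0 < nA b 1 (j - 1) e.1 e.2.1 e.2.2 ∧
    e3 b j e ∈ tri b (a * c₀)
      (((|(j : ℝ)| + 2) ^ 2 + (|(j : ℝ)| + 1) * (|b ^ 2 - 4 * (a * c₀)| : ℤ) + 1) * X)
      (((|(j : ℝ)| + 2) ^ 2 + (|(j : ℝ)| + 1) * (|b ^ 2 - 4 * (a * c₀)| : ℤ) + 1) * X) := by
  obtain ⟨a1, a2, a3, a4, a5, a6⟩ := mem_tri.1 he
  have hA : (0 : ℤ) < e.1 := by exact_mod_cast a1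
  have hγ : (0 : ℤ) < e.2.2 := by exact_mod_cast a3
  have p1 : 0 < nA b 1 j e.1 e.2.1 e.2.2 := by
    unfold nA
    have h1 : 0 ≤ j ^ 2 * (e.1 : ℤ) := by positivity
    have h2 : 0 ≤ j * 1 * (2 * e.2.1 + b) := mul_nonneg (by linarith) a6
    linarith
  have p2 : 0 < nA b 1 (j - 1) e.1 e.2.1 e.2.2 := by
    unfold nA
    have h1 : 0 ≤ (j - 1) ^ 2 * (e.1 : ℤ) := by positivity
    have h2 : 0 ≤ (j - 1) * 1 * (2 * e.2.1 + b) := mul_nonneg (by linarith) a6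
    linarith
  have q1 := Int.toNat_of_nonneg p1.le
  have q2 := Int.toNat_of_nonneg p2.le
  refine ⟨q1, q2, p1, p2, ?_⟩
  have hDR : (0 : ℝ) < ((|b ^ 2 - 4 * (a * c₀)| : ℤ) : ℝ) := by
    have h1 : 0 < |b ^ 2 - 4 * (a * c₀)| := abs_pos.2 hD
    exact_mod_cast h1
  have hjabs : |((j - 1 : ℤ) : ℝ)| ≤ |(j : ℝ)| + 1 := by
    push_cast
    calc |(j : ℝ) - 1| ≤ |(j : ℝ)| + |(1 : ℝ)| := abs_sub _ _
      _ = _ := by norm_num
  have b1 : ((nA b 1 j e.1 e.2.1 e.2.2 : ℤ) : ℝ) ≤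
      ((|(j : ℝ)| + 2) ^ 2 + (|(j : ℝ)| + 1) * (|b ^ 2 - 4 * (a * c₀)| : ℤ) + 1) * X := by
    refine (nA_le hD one_pos hX he).trans ?_
    apply mul_le_mul_of_nonneg_right _ (by linarith)
    have := abs_nonneg (j : ℝ)
    push_cast at hDR ⊢
    nlinarith
  have b2 : ((nA b 1 (j - 1) e.1 e.2.1 e.2.2 : ℤ) : ℝ) ≤
      ((|(j : ℝ)| + 2) ^ 2 + (|(j : ℝ)| + 1) * (|b ^ 2 - 4 * (a * c₀)| : ℤ) + 1) * X := by
    refine (nA_le hD one_pos hX he).trans ?_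
    apply mul_le_mul_of_nonneg_right _ (by linarith)
    have h0 := abs_nonneg (j : ℝ)
    have h1 := abs_nonneg ((j - 1 : ℤ) : ℝ)
    have h2 : (|((j - 1 : ℤ) : ℝ)| + ((1 : ℤ) : ℝ)) ^ 2 ≤ (|(j : ℝ)| + 2) ^ 2 := by
      push_cast at hjabs h1 ⊢
      apply pow_le_pow_left₀ (by linarith)
      linarith
    have h3 : |((j - 1 : ℤ) : ℝ)| * ((1 : ℤ) : ℝ) * ((|b ^ 2 - 4 * (a * c₀)| : ℤ) : ℝ) ≤
        (|(j : ℝ)| + 1) * ((|b ^ 2 - 4 * (a * c₀)| : ℤ) : ℝ) := by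
      apply mul_le_mul_of_nonneg_right _ hDR.le
      push_cast at hjabs ⊢
      linarith
    linarith
  unfold e3
  rw [mem_tri]
  simp only
  refine ⟨by omega, ?_, by omega, ?_, ?_, ?_⟩
  · have h1 : (((nA b 1 j e.1 e.2.1 e.2.2).toNat : ℕ) : ℝ) =
        ((nA b 1 j e.1 e.2.1 e.2.2 : ℤ) : ℝ) := by exact_mod_cast q1
    rw [h1]; exact b1
  · have h1 : (((nA b 1 (j - 1) e.1 e.2.1 e.2.2).toNat : ℕ) : ℝ) =
        ((nA b 1 (j - 1) e.1 e.2.1 e.2.2 : ℤ) : ℝ) := by exact_mod_cast q2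
    rw [h1]; exact b2
  · rw [q1, q2]
    have h5 : (e.1 : ℤ) * e.2.2 = e.2.1 ^ 2 + b * e.2.1 + a * c₀ := a5
    unfold nA Qp
    linear_combination h5
  · have h1 : 2 * ((e.2.2 : ℤ) + (2 * j - 1) * e.2.1 + (j - 1) * b + j * (j - 1) * e.1) + b =
        2 * e.2.2 + (2 * j - 1) * (2 * e.2.1 + b) + 2 * j * (j - 1) * e.1 := by ring
    rw [h1]
    have h2 : 0 ≤ (2 * j - 1) * (2 * e.2.1 + b) := mul_nonneg (by linarith) a6
    have h3 : 0 ≤ 2 * j * (j - 1) * (e.1 : ℤ) := by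
      apply mul_nonneg _ hA.le
      exact mul_nonneg (by linarith) (by linarith)
    linarith

lemma e3_cnd (hk : 0 < k) (hr : r ≤ 0) (hj : 1 ≤ j) (hjμ : a ∣ j - 1 - μ)
    (hD : b ^ 2 - 4 * (a * c₀) ≠ 0)
    {X : ℝ} (hX : 1 ≤ X) {e : Tr} (he : e ∈ tri b (a * c₀) X X) (hc : Cnd g a b k r μ e)
    (hgg : g e.1 = g (nA b 1 j e.1 e.2.1 e.2.2).toNat) :
    Cnd g a b (j * k - r) (k - (j * k - r)) 0 (e3 b j e) := by
  obtain ⟨q1, q2, p1, p2, -⟩ := e3_facts hD hj hX he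
  obtain ⟨a1, a2, a3, a4, a5, a6⟩ := mem_tri.1 he
  have hN : nA b (j * k - r) (k - (j * k - r)) (e3 b j e).1 (e3 b j e).2.1 (e3 b j e).2.2 =
      nA b k r e.1 e.2.1 e.2.2 := by
    unfold e3
    simp only
    rw [q1, q2]
    unfold nA
    ring
  have hB : k * nB b (j * k - r) (k - (j * k - r)) (e3 b j e).1 (e3 b j e).2.1 =
      2 * nA b k r e.1 e.2.1 e.2.2 - r * nB b k r e.1 e.2.1 + j * k * nB b k r e.1 e.2.1 := by
    unfold e3
    simp only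
    rw [q1]
    unfold nA nB
    ring
  have hpos := hc.pos
  have hBpos := hc.Bpos
  refine ⟨?_, ?_, ?_, ?_, ?_⟩
  · rw [hN]; exact hpos
  · have h1 : 0 ≤ k * nB b (j * k - r) (k - (j * k - r)) (e3 b j e).1 (e3 b j e).2.1 := by
      rw [hB]
      have h2 : 0 ≤ (-r) * nB b k r e.1 e.2.1 := mul_nonneg (by linarith) hBpos
      have h3 : 0 ≤ j * k * nB b k r e.1 e.2.1 :=
        mul_nonneg (mul_nonneg (by linarith) hk.le) hBpos
      linarith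
    exact (mul_nonneg_iff_of_pos_left hk).1 h1
  · rw [hN]
    have h1 : (e3 b j e).1 = (nA b 1 j e.1 e.2.1 e.2.2).toNat := rfl
    rw [h1, ← hgg]
    exact hc.sg
  · obtain ⟨s, hs⟩ := hjμ
    obtain ⟨v, hv⟩ := hc.r1
    obtain ⟨w, hw⟩ := hc.r2
    have h1 : (e3 b j e).2.1 = e.2.2 + (2 * j - 1) * e.2.1 + (j - 1) * b + j * (j - 1) * e.1 := rfl
    rw [mul_zero, zero_add, h1]
    have hj' : j = μ + 1 + a * s := by linarith
    refine ⟨w + v + s * (2 * e.2.1 + b + (2 * μ + 1 + a * s) * e.1), ?_⟩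
    rw [hj']
    linear_combination hw + hv
  · obtain ⟨s, hs⟩ := hjμ
    obtain ⟨w, hw⟩ := hc.r2
    have h1 : (((e3 b j e).2.2 : ℕ) : ℤ) = nA b 1 (j - 1) e.1 e.2.1 e.2.2 := q2
    rw [h1]
    have hj' : j = μ + 1 + a * s := by linarith
    refine ⟨w + s * (2 * e.2.1 + b + (2 * μ + a * s) * e.1), ?_⟩
    unfold nA
    rw [hj']
    linear_combination hw

lemma e3_inj (hD : b ^ 2 - 4 * (a * c₀) ≠ 0) (hj : 1 ≤ j) {X : ℝ} (hX : 1 ≤ X) {e f : Tr}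
    (he : e ∈ tri b (a * c₀) X X) (hf : f ∈ tri b (a * c₀) X X) (h : e3 b j e = e3 b j f) :
    e = f := by
  obtain ⟨q1, q2, -⟩ := e3_facts hD hj hX he
  obtain ⟨u1, u2, -⟩ := e3_facts hD hj hX hf
  unfold e3 at h
  simp only [Prod.mk.injEq] at h
  obtain ⟨h1, h2, h3⟩ := h
  have h1' : nA b 1 j e.1 e.2.1 e.2.2 = nA b 1 j f.1 f.2.1 f.2.2 := by
    rw [← q1, ← u1, h1]
  have h3' : nA b 1 (j - 1) e.1 e.2.1 e.2.2 = nA b 1 (j - 1) f.1 f.2.1 f.2.2 := by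
    rw [← q2, ← u2, h3]
  unfold nA at h1' h3'
  -- `A = A'' - β₃ + γ₃`
  have hA : (e.1 : ℤ) = f.1 := by linear_combination h1' - 2 * h2 + h3'
  have hn : 2 * e.2.1 = 2 * f.2.1 := by
    linear_combination (1 - 2 * j) * hA + h1' - h3'
  exact tri_ext he hf (by exact_mod_cast hA) (by linarith)

theorem out_trans (ha : 0 < a) (hD : b ^ 2 - 4 * (a * c₀) ≠ 0) (hk : 0 < k) (hr : r ≤ 0)
    (hj : 1 ≤ j) (hjμ : a ∣ j - 1 - μ) (h1 : Out g a b c₀ 1 j μ)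
    (h2 : Out g a b c₀ (j * k - r) (k - (j * k - r)) 0) : Out g a b c₀ k r μ := by
  classical
  intro κ hκ
  obtain ⟨C₂, hC₂⟩ : ∃ C₂ : ℝ, C₂ = (|(j : ℝ)| + 2) ^ 2 +
    (|(j : ℝ)| + 1) * (|b ^ 2 - 4 * (a * c₀)| : ℤ) + 1 := ⟨_, rfl⟩
  have hDR : (0 : ℝ) < ((|b ^ 2 - 4 * (a * c₀)| : ℤ) : ℝ) := by
    have h1 : 0 < |b ^ 2 - 4 * (a * c₀)| := abs_pos.2 hD
    exact_mod_cast h1
  have hC₂1 : 1 ≤ C₂ := by
    rw [hC₂]
    have h3 := abs_nonneg (j : ℝ)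
    have h4 : 0 ≤ (|(j : ℝ)| + 2) ^ 2 := by positivity
    have h5 : 0 ≤ (|(j : ℝ)| + 1) * ((|b ^ 2 - 4 * (a * c₀)| : ℤ) : ℝ) :=
      mul_nonneg (by linarith) hDR.le
    linarith
  obtain ⟨Ca, κa, Xa, hCa1, hκa, hXa⟩ := h1 (κ / 2) (by positivity)
  obtain ⟨Cb, κb, Xb, hCb1, hκb, hXb⟩ := h2 (κ / (2 * C₂)) (by positivity)
  refine ⟨max Ca (Cb * C₂), min κa κb, max (max 1 Xa) Xb, le_max_of_le_left hCa1,
    lt_min hκa hκb, fun X hX hcard s hs => ?_⟩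
  have hX1 : 1 ≤ X := (le_max_left _ _).trans ((le_max_left _ _).trans hX)
  have hX2 : Xa ≤ X := (le_max_right _ _).trans ((le_max_left _ _).trans hX)
  have hX3 : Xb ≤ X := (le_max_right _ _).trans hX
  have hX0 : 0 < X := by linarith
  set G := (tri b (a * c₀) X X).filter (fun e => Cnd g a b k r μ e) with hG
  have hsplit := Finset.card_filter_add_card_filter_not
    (s := G) (fun e : Tr => g e.1 = g (nA b 1 j e.1 e.2.1 e.2.2).toNat)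
  have hsplitR : (((G.filter (fun e : Tr => g e.1 = g (nA b 1 j e.1 e.2.1 e.2.2).toNat)).card : ℕ) : ℝ) +
      (((G.filter (fun e : Tr => ¬ g e.1 = g (nA b 1 j e.1 e.2.1 e.2.2).toNat)).card : ℕ) : ℝ) =
      G.card := by exact_mod_cast hsplit
  by_cases hcase : κ / 2 * X ≤
      (((G.filter (fun e : Tr => ¬ g e.1 = g (nA b 1 j e.1 e.2.1 e.2.2).toNat)).card : ℕ) : ℝ)
  · have hle : (((G.filter (fun e : Tr => ¬ g e.1 = g (nA b 1 j e.1 e.2.1 e.2.2).toNat)).card : ℕ) : ℝ) ≤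
        (((tri b (a * c₀) X X).filter (fun e => Cnd g a b 1 j μ e)).card : ℝ) := by
      apply Nat.cast_le.2
      apply card_le_card
      intro e he
      rw [mem_filter, hG, mem_filter] at he
      obtain ⟨⟨he1, he2⟩, he3⟩ := he
      obtain ⟨q1, q2, p1, p2, -⟩ := e3_facts hD hj hX1 he1
      obtain ⟨a1, a2, a3, a4, a5, a6⟩ := mem_tri.1 he1
      rw [mem_filter]
      refine ⟨he1, p1, ?_, he3, he2.r1, he2.r2⟩
      unfold nB
      have h3 : 0 ≤ 2 * j * (e.1 : ℤ) := mul_nonneg (by linarith) (by positivity)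
      linarith
    have h3 := hXa X hX2 (hcase.trans hle) s hs
    have h4 : min κa κb * X ≤ κa * X := mul_le_mul_of_nonneg_right (min_le_left _ _) hX0.le
    exact (h4.trans h3).trans
      (card_PB_mono (mul_le_mul_of_nonneg_right (le_max_left _ _) hX0.le) s)
  · have hge : κ / (2 * C₂) * (C₂ * X) ≤
        (((G.filter (fun e : Tr => g e.1 = g (nA b 1 j e.1 e.2.1 e.2.2).toNat)).card : ℕ) : ℝ) := by
      push Not at hcase
      have e1 : κ / (2 * C₂) * (C₂ * X) = κ / 2 * X := by field_simp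
      rw [e1]
      linarith
    have hle : (((G.filter (fun e : Tr => g e.1 = g (nA b 1 j e.1 e.2.1 e.2.2).toNat)).card : ℕ) : ℝ) ≤
        (((tri b (a * c₀) (C₂ * X) (C₂ * X)).filter
          (fun e => Cnd g a b (j * k - r) (k - (j * k - r)) 0 e)).card : ℝ) := by
      apply Nat.cast_le.2
      refine Finset.card_le_card_of_injOn (e3 b j) ?_ ?_
      · intro e he
        rw [Finset.mem_coe, mem_filter, hG, mem_filter] at he
        obtain ⟨⟨he1, he2⟩, he3⟩ := he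
        obtain ⟨q1, q2, p1, p2, hm⟩ := e3_facts hD hj hX1 he1
        rw [Finset.mem_coe, mem_filter, hC₂]
        exact ⟨hm, e3_cnd hk hr hj hjμ hD hX1 he1 he2 he3⟩
      · intro e he f hf hef
        rw [Finset.mem_coe, mem_filter, hG, mem_filter] at he hf
        exact e3_inj hD hj hX1 he.1.1 hf.1.1 hef
    have hXC : X ≤ C₂ * X := by nlinarith
    have h3 := hXb (C₂ * X) (hX3.trans hXC) (hge.trans hle) s hs
    have h4 : min κa κb * X ≤ κb * (C₂ * X) :=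
      mul_le_mul (min_le_right _ _) hXC hX0.le hκb.le
    refine (h4.trans h3).trans ?_
    rw [← mul_assoc]
    exact card_PB_mono (mul_le_mul_of_nonneg_right (le_max_right _ _) hX0.le) s

end Pool.Agent.K9h53.LN
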