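import Pool.Agent.K9h53.LN.Stm
import Pool.Agent.K9h53.LQ.U0

/-!
Project LN (helper53): the auxiliary element, imaginary orders.
-/

set_option autoImplicit false

namespace Pool.Agent.K9h53.LN

open Pool.Agent.W78
open Pool.Agent.W78.GA (Qd nm)
open Pool.Agent.K9h53.LQ (Ch SplOne)
open Pool.Agent.K9h53.LQ.U0

/-- Task A -/
theorem u0_of {t c a : ℤ} {χ : ℤ → ℤ} (hd : t ^ 2 < 4 * c) (ha : 0 < a)
    (hχ : Ch a χ) (hs : SplOne (t ^ 2 - 4 * c) a χ) :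
    ∃ u : Qd t c, u ≠ 0 ∧ Pool.Agent.H376R2.MR.lam (nm u) = -1 ∧ χ u.re = 1 ∧
      ∀ n : ℕ, n ∣ nm u → χ n = 1 := by
  obtain ⟨D, hD⟩ : ∃ D, D = t ^ 2 - 4 * c := ⟨_, rfl⟩
  rw [← hD] at hs
  have hD0 : D < 0 := by rw [hD]; linarith
  have hns : ¬ IsSquare D := fun h => absurd h.nonneg (not_le.2 hD0)
  have hM : 2 ≤ 2 * a * (-D) := by nlinarith
  obtain ⟨p, X₀, Y₀, W₀, hp, hpM, heq₀, -, hW₀, hXW₀, hY₀, hWM₀, hXY₀⟩ := key hns hM
  -- choose the sign such that `W > 0`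
  obtain ⟨X, Y, W, heq, hW, hXW, hY, hWM, hXY⟩ : ∃ X Y W : ℤ, X ^ 2 - D * Y ^ 2 = p * W ^ 2 ∧ 0 < W ∧
      2 * a * (-D) ∣ X - W ∧ 2 * a * (-D) ∣ Y ∧ IsCoprime W (2 * a * (-D)) ∧ IsCoprime X Y := by
    rcases lt_or_gt_of_ne hW₀ with h | h
    · refine ⟨-X₀, -Y₀, -W₀, by rw [neg_sq, neg_sq, neg_sq]; exact heq₀, by omega, ?_,
        (dvd_neg).2 hY₀, hWM₀.neg_left, hXY₀.neg_left.neg_right⟩
      have e : -X₀ - -W₀ = -(X₀ - W₀) := by ring
      rw [e]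
      exact (dvd_neg).2 hXW₀
    · exact ⟨X₀, Y₀, W₀, heq₀, h, hXW₀, hY₀, hWM₀, hXY₀⟩
  have hpi : Prime (p : ℤ) := Nat.prime_iff_prime_int.1 hp
  have hspl : ∀ q : ℕ, q.Prime → (q : ℤ) ∣ p * W ^ 2 → χ q = 1 := by
    intro q hq hqd
    have hqi : Prime (q : ℤ) := Nat.prime_iff_prime_int.1 hq
    refine hs q hq ?_ ?_
    · intro hqM
      have hqM' : (q : ℤ) ∣ 2 * a * (-D) := by
        have e : 2 * a * (-D) = -(2 * a * D) := by ring
        rw [e]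
        exact (dvd_neg).2 hqM
      have hnu : ∀ x : ℤ, IsCoprime x (2 * a * (-D)) → ¬ (q : ℤ) ∣ x := fun x hx hqx =>
        hqi.not_isUnit (hx.isUnit_of_dvd' hqx hqM')
      rcases hqi.dvd_or_dvd hqd with h1 | h1
      · exact hnu _ hpM h1
      · exact hnu _ hWM (hqi.dvd_of_dvd_pow h1)
    · have hqY : ¬ (q : ℤ) ∣ Y := by
        intro h1
        have h2 : (q : ℤ) ∣ X ^ 2 := by
          have e : X ^ 2 = p * W ^ 2 + Y * (D * Y) := by linarith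
          rw [e]
          exact dvd_add hqd (Dvd.dvd.mul_right h1 _)
        exact hqi.not_isUnit (hXY.isUnit_of_dvd' (hqi.dvd_of_dvd_pow h2) h1)
      have : Fact q.Prime := ⟨hq⟩
      have hY0 : ((Y : ℤ) : ZMod q) ≠ 0 := by
        rw [Ne, ZMod.intCast_zmod_eq_zero_iff_dvd]
        exact hqY
      refine ⟨((X : ℤ) : ZMod q) / ((Y : ℤ) : ZMod q), ?_⟩
      have h3 : (((X ^ 2 - D * Y ^ 2 : ℤ)) : ZMod q) = 0 := by
        rw [heq, ZMod.intCast_zmod_eq_zero_iff_dvd]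
        exact hqd
      push_cast at h3
      field_simp
      linear_combination h3
  have hnm : nm (⟨X - t * Y, 2 * Y⟩ : Qd t c) = W.natAbs ^ 2 * p := by
    unfold GA.nm
    have e : (X - t * Y) ^ 2 + t * (X - t * Y) * (2 * Y) + c * (2 * Y) ^ 2 = W ^ 2 * p := by
      have h := heq
      rw [hD] at h
      linear_combination h
    show ((X - t * Y) ^ 2 + t * (X - t * Y) * (2 * Y) + c * (2 * Y) ^ 2).natAbs = _
    rw [e, Int.natAbs_mul, Int.natAbs_pow, Int.natAbs_natCast]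
  have hWn : W.natAbs ≠ 0 := Int.natAbs_ne_zero.2 hW.ne'
  have hN0 : W.natAbs ^ 2 * p ≠ 0 := mul_ne_zero (pow_ne_zero 2 hWn) hp.ne_zero
  have hall := chi_one hχ hN0 (fun q hq hqd => hspl q hq (by
    have h1 : (q : ℤ) ∣ ((W.natAbs ^ 2 * p : ℕ) : ℤ) := Int.natCast_dvd_natCast.2 hqd
    rw [Nat.cast_mul, Nat.cast_pow, Int.natCast_natAbs, sq_abs] at h1
    rwa [mul_comm] at h1))
  have hχW : χ W = 1 := by
    have h1 := hall W.natAbs ⟨W.natAbs * p, by ring⟩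
    rw [Int.natCast_natAbs, abs_of_pos hW] at h1
    exact h1
  refine ⟨⟨X - t * Y, 2 * Y⟩, ?_, ?_, ?_, ?_⟩
  · intro h0
    have h1 : nm (⟨X - t * Y, 2 * Y⟩ : Qd t c) = 0 := by
      rw [h0]
      simp [GA.nm]
    rw [hnm] at h1
    exact hN0 h1
  · rw [hnm, Pool.Agent.W78.GA.lam_sq_mul hWn hp.ne_zero, Pool.Agent.W78.GA.lam_prime hp]
  · show χ (X - t * Y) = 1
    have haM : a ∣ 2 * a * (-D) := ⟨2 * (-D), by ring⟩
    rw [hχ.per (X - t * Y) W, hχW]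
    have e : X - t * Y - W = (X - W) - t * Y := by ring
    rw [e]
    exact dvd_sub (haM.trans hXW) (Dvd.dvd.mul_left (haM.trans hY) t)
  · intro n hn
    rw [hnm] at hn
    exact hall n hn

end Pool.Agent.K9h53.LN
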