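import Pool.Agent.K9h53.LN.MrX
import Pool.Agent.K9h53.LN.NearP
import Pool.Agent.K9h53.LN.TaskD
import Pool.Agent.K9h53.LN.A0
import Pool.Agent.K9h53.LN.U0
import Pool.Agent.K9h53.LQ.Main

/-!
Project LN (helper53): many triples with different signs, negative discriminants.
-/

set_option autoImplicit false

namespace Pool.Agent.K9h53.LN

open Finset Filter
open Pool.Agent.W78
open Pool.Agent.W78.GA (Qd nm prim bg dt ip)
open Pool.Agent.W78.GS (Pm)
open Pool.Agent.H376R2.MR (lam)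
open Pool.Agent.K9h53.LQ (Ch SplOne S_TRI)

variable {χ : ℤ → ℤ} {a b c₀ : ℤ}

theorem tri_all (ha : 0 < a) (hD : b ^ 2 - 4 * (a * c₀) < 0) (hχ : Ch a χ)
    (hs : SplOne (b ^ 2 - 4 * (a * c₀)) a χ) : S_TRI lam χ a b c₀ := by
  have hg : Pm lam := GS.pm_lam
  have hac : a ∣ a * c₀ := Dvd.intro _ rfl
  have hd : b ^ 2 < 4 * (a * c₀) := by linarith
  obtain ⟨u₀, hu₀, hgu, hχu, hdv⟩ := u0_of hd ha hχ hs
  have hlat : GA.S_LAT b (a * c₀) := Pool.Agent.W45.GA.lat hd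
  have hs2 : SplOne (b ^ 2 - 4 * (a * c₀)) a (fun x => χ x ^ 2) := by
    intro q hq h1 h2
    simp only
    rw [hs q hq h1 h2, one_pow]
  have hsq : χ (-1) ^ 2 = 1 := by
    rw [pow_two, ← hχ.mul, neg_mul_neg, one_mul, hχ.one]
  have hm1 := mr_gt (e := 0) hg hd hχ.sq ha hac hs2 (by rw [hsq, pow_zero])
  obtain ⟨e, he⟩ : ∃ e : ℕ, χ (-1) = (-1) ^ e := by
    rcases hχ.val (-1) with h | h | h
    · rw [h] at hsq
      norm_num at hsq
    · exact ⟨0, by rw [h, pow_zero]⟩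
    · exact ⟨1, by rw [h, pow_one]⟩
  have hm2 := mr_gt (e := e) hg hd hχ ha hac hs he
  have hA0 : S_A0 b (a * c₀) a := a0_of hd ha (Pool.Agent.W240.GA.A0.a0_of hd hlat)
  have hnear := near_of hg hd hχ hm1 hm2 hA0 (Pool.Agent.W803.GA.sect hd) hlat hu₀ hgu hχu hdv
  exact tri_of hg ha hχ hd hnear

end Pool.Agent.K9h53.LN
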